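import Mathlib
import Pool.Agent.Lib.MP_55cac8_lc.NV.Defs

section

/-!
# Task E1: words and their values

Elementary.  `vl` is a product over a list (`List.map_append`, `List.prod_append`); `det (mt R l) = 1` (`Matrix.det_fin_two`);
`mt R (!l.1, l.2) * mt R l = 1 = mt R l * mt R (!l.1, l.2)` by cases on the two Booleans (`Matrix.mul_fin_two`, `Matrix.one_fin_two`).  Induction on the word.
`vl_map`: the ring homomorphism `ℤ → R` maps the matrices of the letters to the matrices of the letters (`Matrix.map_mul`, `map_prod`).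
-/

set_option autoImplicit false

namespace Pool.Agent.NV

open Matrix

private theorem E1_det (R : Type) [CommRing R] (l : Lt) : (mt R l).det = 1 := by
  rcases l with ⟨a, b⟩
  cases a <;> cases b <;> simp [mt, Matrix.det_fin_two]

private theorem E1_inv (R : Type) [CommRing R] (l : Lt) : mt R (!l.1, l.2) * mt R l = 1 := by
  rcases l with ⟨a, b⟩
  cases a <;> cases b <;> simp [mt, Matrix.one_fin_two]

private theorem E1_inv' (R : Type) [CommRing R] (l : Lt) : mt R l * mt R (!l.1, l.2) = 1 := by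
  rcases l with ⟨a, b⟩
  cases a <;> cases b <;> simp [mt, Matrix.one_fin_two]

private theorem E1_map (R : Type) [CommRing R] (l : Lt) :
    (mt ℤ l).map (Int.cast : ℤ → R) = mt R l := by
  rcases l with ⟨a, b⟩
  ext i j
  fin_cases i <;> fin_cases j <;> cases a <;> cases b <;> simp [mt]

private theorem E1_vinv_cons (l : Lt) (w : List Lt) : vinv (l :: w) = vinv w ++ [(!l.1, l.2)] := by
  simp [vinv]

theorem vl_nil (R : Type) [CommRing R] : vl R [] = 1 := by
  unfold vl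
  rfl

theorem vl_cons (R : Type) [CommRing R] (l : Lt) (w : List Lt) : vl R (l :: w) = mt R l * vl R w := by
  unfold vl
  rw [List.map_cons, List.prod_cons]

theorem vl_append (R : Type) [CommRing R] (v w : List Lt) : vl R (v ++ w) = vl R v * vl R w := by
  unfold vl
  rw [List.map_append, List.prod_append]

theorem det_vl (R : Type) [CommRing R] (w : List Lt) : (vl R w).det = 1 := by
  induction w with
  | nil => rw [vl_nil, Matrix.det_one]
  | cons l w ih => rw [vl_cons, Matrix.det_mul, ih, E1_det, one_mul]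

theorem vl_vinv_mul (R : Type) [CommRing R] (w : List Lt) : vl R (vinv w) * vl R w = 1 := by
  induction w with
  | nil =>
    have h : vinv [] = [] := by simp [vinv]
    rw [h, vl_nil, one_mul]
  | cons l w ih =>
    rw [E1_vinv_cons, vl_append, vl_cons R l w, vl_cons, vl_nil, mul_one, mul_assoc,
      ← mul_assoc (mt R (!l.1, l.2)), E1_inv, one_mul, ih]

theorem vl_mul_vinv (R : Type) [CommRing R] (w : List Lt) : vl R w * vl R (vinv w) = 1 := by
  induction w with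
  | nil =>
    have h : vinv [] = [] := by simp [vinv]
    rw [h, vl_nil, one_mul]
  | cons l w ih =>
    rw [E1_vinv_cons, vl_append, vl_cons R l w, vl_cons, vl_nil, mul_one, mul_assoc,
      ← mul_assoc (vl R w), ih, one_mul, E1_inv']

theorem vinv_length (w : List Lt) : (vinv w).length = w.length := by
  simp [vinv]

theorem vl_map (R : Type) [CommRing R] (w : List Lt) : (vl ℤ w).map (Int.cast : ℤ → R) = vl R w := by
  induction w with
  | nil =>
    rw [vl_nil, vl_nil]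
    exact Matrix.map_one _ Int.cast_zero Int.cast_one
  | cons l w ih =>
    rw [vl_cons, vl_cons, ← ih, ← E1_map R l]
    exact Matrix.map_mul (f := Int.castRingHom R)

end Pool.Agent.NV
end

section

/-!
# Task E2: the subtractive Euclidean algorithm

`eu_inv`: for the state `((a, b), w) = eu L s t` the matrix `vl R w.reverse` maps the column `(a, b)` to `(s, t)`: induction on `L` (`Function.iterate_succ_apply'`): for `b < a` the new state is
`((a - b, b), u_1 :: w)`, `(u_1 :: w).reverse = w.reverse ++ [u_1]`, `vl_append`, and `u_1 (a - b, b) = (a, b)`; similarly for `a < b`; for `a = b` nothing changes.  State it with the two coordinates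
(`M 0 0 * a + M 0 1 * b = s`, `M 1 0 * a + M 1 1 * b = t`), casts of natural numbers to `R` (`Nat.cast_sub`).
`cw_col`: if `OK L s t` then `(a, b) = (1, 1)`, and `(1, 1)` is the first column of `v_1`: the first column of `vl R (cw L s t) = vl R w.reverse * v_1` is `(M 0 0 + M 0 1, M 1 0 + M 1 1) = (s, t)`.
`eu_length`: every step adds at most one letter.
`OK_mono`: `estep` fixes `((1, 1), w)`, so if the first component is `(1, 1)` after `L` steps it is after `L' ≥ L` steps.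
`OK_pos`: if `s = 0` or `t = 0` one coordinate remains `0` for ever: `estep` does not change a state with a coordinate `0` except that letters are added (`a - 0 = a`): the first component is constant.
`eu_add`: `estep^[a + L]`, used as: if `t < s` then `OK (L + 1) s t ↔ OK L (s - t) t` (the list of letters has no influence on the numbers): state it as below.
`OK_step_right`, `OK_swap`: the numbers of `estep` for `(t, s)` are those for `(s, t)` exchanged.
`OK_mul`: `OK L q r → OK (L + a) (a * q + r) q` for `1 ≤ q`, `1 ≤ r`: induction on `a`, from the statements above (`(a + 1) q + r > q`, one step leads to `a q + r, q`; for `a = 0` swap).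
-/

set_option autoImplicit false

namespace Pool.Agent.NV

open Matrix

private def E2_nst (q : ℕ × ℕ) : ℕ × ℕ :=
  if q.2 < q.1 then (q.1 - q.2, q.2) else if q.1 < q.2 then (q.1, q.2 - q.1) else q

private theorem E2_estep_fst (q : (ℕ × ℕ) × List Lt) : (estep q).1 = E2_nst q.1 := by
  unfold estep E2_nst
  split_ifs <;> rfl

private theorem E2_iter (L : ℕ) (q : (ℕ × ℕ) × List Lt) : (estep^[L] q).1 = E2_nst^[L] q.1 := by
  induction L with
  | zero => rfl
  | succ L ih => rw [Function.iterate_succ_apply', Function.iterate_succ_apply', E2_estep_fst, ih]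

private theorem E2_OK (L s t : ℕ) : OK L s t ↔ E2_nst^[L] (s, t) = (1, 1) := by
  unfold OK eu
  rw [E2_iter]

private theorem E2_succ (L s t : ℕ) : eu (L + 1) s t = estep (eu L s t) := by
  unfold eu
  rw [Function.iterate_succ_apply']

theorem eu_length (L s t : ℕ) : (eu L s t).2.length ≤ L := by
  induction L with
  | zero => exact le_rfl
  | succ L ih =>
    rw [E2_succ]
    unfold estep
    split_ifs
    · simp only [List.length_cons]
      omega
    · simp only [List.length_cons]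
      omega
    · omega

private theorem E2_mul (R : Type) [CommRing R] (w : List Lt) (l : Lt) :
    vl R (l :: w).reverse = vl R w.reverse * mt R l := by
  rw [List.reverse_cons, vl_append, vl_cons, vl_nil, mul_one]

private theorem E2_u (R : Type) [CommRing R] (M : Matrix (Fin 2) (Fin 2) R) :
    (M * mt R (false, false)) 0 0 = M 0 0 ∧ (M * mt R (false, false)) 0 1 = M 0 0 + M 0 1 ∧
    (M * mt R (false, false)) 1 0 = M 1 0 ∧ (M * mt R (false, false)) 1 1 = M 1 0 + M 1 1 := by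
  simp [mt, Matrix.mul_apply, Fin.sum_univ_two]

private theorem E2_v (R : Type) [CommRing R] (M : Matrix (Fin 2) (Fin 2) R) :
    (M * mt R (false, true)) 0 0 = M 0 0 + M 0 1 ∧ (M * mt R (false, true)) 0 1 = M 0 1 ∧
    (M * mt R (false, true)) 1 0 = M 1 0 + M 1 1 ∧ (M * mt R (false, true)) 1 1 = M 1 1 := by
  simp [mt, Matrix.mul_apply, Fin.sum_univ_two]

theorem eu_inv (R : Type) [CommRing R] (L s t : ℕ) :
    vl R (eu L s t).2.reverse 0 0 * ((eu L s t).1.1 : R) + vl R (eu L s t).2.reverse 0 1 * ((eu L s t).1.2 : R) = s ∧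
    vl R (eu L s t).2.reverse 1 0 * ((eu L s t).1.1 : R) + vl R (eu L s t).2.reverse 1 1 * ((eu L s t).1.2 : R) = t := by
  induction L with
  | zero =>
    have h : eu 0 s t = ((s, t), []) := rfl
    rw [h]
    simp only [List.reverse_nil, vl_nil]
    simp
  | succ L ih =>
    rw [E2_succ]
    set q := eu L s t with hq
    obtain ⟨⟨a, b⟩, w⟩ := q
    simp only at ih
    unfold estep
    simp only
    split_ifs with h1 h2
    · simp only [E2_mul]
      obtain ⟨e1, e2, e3, e4⟩ := E2_u R (vl R w.reverse)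
      rw [e1, e2, e3, e4, Nat.cast_sub h1.le]
      exact ⟨by linear_combination ih.1, by linear_combination ih.2⟩
    · simp only [E2_mul]
      obtain ⟨e1, e2, e3, e4⟩ := E2_v R (vl R w.reverse)
      rw [e1, e2, e3, e4, Nat.cast_sub h2.le]
      exact ⟨by linear_combination ih.1, by linear_combination ih.2⟩
    · exact ih

theorem cw_col (R : Type) [CommRing R] {L s t : ℕ} (h : OK L s t) :
    vl R (cw L s t) 0 0 = s ∧ vl R (cw L s t) 1 0 = t := by
  have h1 := eu_inv R L s t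
  unfold OK at h
  rw [h] at h1
  unfold cw
  rw [vl_append, vl_cons, vl_nil, mul_one]
  obtain ⟨e1, e2, e3, e4⟩ := E2_v R (vl R (eu L s t).2.reverse)
  rw [e1, e3]
  simp only [Nat.cast_one, mul_one] at h1
  exact h1

theorem cw_length (L s t : ℕ) : (cw L s t).length ≤ L + 1 := by
  unfold cw
  rw [List.length_append, List.length_reverse]
  have := eu_length L s t
  simp only [List.length_singleton]
  omega

theorem OK_mono {L L' s t : ℕ} (h : OK L s t) (hL : L ≤ L') : OK L' s t := by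
  rw [E2_OK] at h ⊢
  obtain ⟨d, rfl⟩ := Nat.exists_eq_add_of_le hL
  rw [add_comm, Function.iterate_add_apply, h]
  exact Function.iterate_fixed rfl d

theorem OK_pos {L s t : ℕ} (h : OK L s t) : 0 < s ∧ 0 < t := by
  rw [E2_OK] at h
  by_contra hcon
  have h0 : s = 0 ∨ t = 0 := by omega
  have hf : E2_nst (s, t) = (s, t) := by
    unfold E2_nst
    simp only
    rcases h0 with rfl | rfl
    · split_ifs with h1 h2
      · omega
      · rw [Nat.sub_zero]
      · rfl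
    · split_ifs with h1 h2
      · rw [Nat.sub_zero]
      · omega
      · rfl
  rw [Function.iterate_fixed hf L] at h
  have h1 : s = 1 := congrArg Prod.fst h
  have h2 : t = 1 := congrArg Prod.snd h
  omega

theorem OK_step {L s t : ℕ} (h : t < s) : OK (L + 1) s t ↔ OK L (s - t) t := by
  rw [E2_OK, E2_OK, Function.iterate_succ_apply]
  have h1 : E2_nst (s, t) = (s - t, t) := by
    unfold E2_nst
    rw [if_pos h]
  rw [h1]

private theorem E2_swap (q : ℕ × ℕ) : E2_nst q.swap = (E2_nst q).swap := by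
  obtain ⟨a, b⟩ := q
  unfold E2_nst
  simp only [Prod.fst_swap, Prod.snd_swap]
  split_ifs with h1 h2 h2
  · omega
  · rfl
  · rfl
  · rfl

theorem OK_swap {L s t : ℕ} : OK L s t ↔ OK L t s := by
  rw [E2_OK, E2_OK]
  have h : ∀ (L : ℕ) (q : ℕ × ℕ), E2_nst^[L] q.swap = (E2_nst^[L] q).swap := by
    intro L q
    induction L with
    | zero => rfl
    | succ L ih => rw [Function.iterate_succ_apply', Function.iterate_succ_apply', ih, E2_swap]
  have h1 := h L (s, t)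
  rw [Prod.swap_prod_mk] at h1
  rw [h1]
  constructor
  · intro h2
    rw [h2]
    rfl
  · intro h2
    have h3 := congrArg Prod.swap h2
    rw [Prod.swap_swap] at h3
    exact h3

theorem OK_one (a : ℕ) : OK a (a + 1) 1 := by
  induction a with
  | zero => rfl
  | succ a ih =>
    rw [OK_step (by omega)]
    exact ih

theorem OK_mul {L q r : ℕ} (h : OK L q r) (a : ℕ) : OK (L + a) (a * q + r) q := by
  obtain ⟨hq, hr⟩ := OK_pos h
  induction a with
  | zero =>
    rw [zero_mul, zero_add, add_zero]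
    exact OK_swap.1 h
  | succ a ih =>
    have e1 : (a + 1) * q + r - q = a * q + r := by
      rw [add_mul, one_mul]
      omega
    have e2 : q < (a + 1) * q + r := by
      rw [add_mul, one_mul]
      omega
    rw [← add_assoc, OK_step e2, e1]
    exact ih

end Pool.Agent.NV
end

section

/-!
# Task E3: loops and conjugation

`lw_val`: let `W`, `W'` be the values in `ZMod p` of `cw L v.1 v.2` and `cw L v'.1 v'.2`, `I = vl (vinv (cw L v'.1 v'.2))`, `I * W' = 1` (`vl_vinv_mul`), so `M := vl (lw L v v') = I * W` (`vl_append`).  The first column of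
`W` is `g` times the first column of `W'` (`cw_col` and `h1`, `h2`), so the first column of `M` is `g` times the first column of `I * W' = 1`: `M 0 0 = g`, `M 1 0 = 0`.  `det M = 1` (`det_vl`) gives `g * M 1 1 = 1`.
So `g ≠ 0` and `M 1 1 = g⁻¹`.  (`ZMod p` is a field by `Fact p.Prime`.)
`up_mul`: `Matrix.mul_fin_two`.
`cj_val`: `vl (cj γ e) = M * u * J` with `M = !![g, x; 0, g⁻¹]`, `J = vl (vinv γ)`, `M * J = 1`, so `J = !![g⁻¹, -x; 0, g]` (multiply `M * J = 1` by this matrix from the left); then `Matrix.mul_fin_two` and `field_simp`/`ring`.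
Lengths: `vinv_length`, `cw_length`.
-/

set_option autoImplicit false

namespace Pool.Agent.NV

open Matrix

variable {p : ℕ} [Fact p.Prime]

theorem lw_val {L : ℕ} {v v' : ℕ × ℕ} (hv : OK L v.1 v.2) (hv' : OK L v'.1 v'.2) (g : ZMod p)
    (h1 : (v.1 : ZMod p) = g * v'.1) (h2 : (v.2 : ZMod p) = g * v'.2) :
    g ≠ 0 ∧ ∃ x, vl (ZMod p) (lw L v v') = !![g, x; 0, g⁻¹] := by
  obtain ⟨a1, a2⟩ := cw_col (ZMod p) hv
  obtain ⟨b1, b2⟩ := cw_col (ZMod p) hv'
  have hI := vl_vinv_mul (ZMod p) (cw L v'.1 v'.2)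
  have hM : vl (ZMod p) (lw L v v') = vl (ZMod p) (vinv (cw L v'.1 v'.2)) * vl (ZMod p) (cw L v.1 v.2) :=
    vl_append _ _ _
  have hdet := det_vl (ZMod p) (lw L v v')
  have e00 := congrFun (congrFun hI 0) 0
  have e10 := congrFun (congrFun hI 1) 0
  have m00 := congrFun (congrFun hM 0) 0
  have m10 := congrFun (congrFun hM 1) 0
  rw [Matrix.mul_apply, Fin.sum_univ_two, b1, b2] at e00 e10
  rw [Matrix.mul_apply, Fin.sum_univ_two, a1, a2, h1, h2] at m00 m10
  rw [Matrix.one_apply_eq] at e00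
  rw [Matrix.one_apply_ne (by decide)] at e10
  have n00 : vl (ZMod p) (lw L v v') 0 0 = g := by
    rw [m00]
    linear_combination g * e00
  have n10 : vl (ZMod p) (lw L v v') 1 0 = 0 := by
    rw [m10]
    linear_combination g * e10
  rw [Matrix.det_fin_two, n00, n10, mul_zero, sub_zero] at hdet
  have hg : g ≠ 0 := by
    rintro rfl
    rw [zero_mul] at hdet
    exact zero_ne_one hdet
  refine ⟨hg, vl (ZMod p) (lw L v v') 0 1, ?_⟩
  have n11 : vl (ZMod p) (lw L v v') 1 1 = g⁻¹ := eq_inv_of_mul_eq_one_right hdet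
  have heta := Matrix.eta_fin_two (vl (ZMod p) (lw L v v'))
  rw [n00, n10, n11] at heta
  exact heta

theorem lw_length (L : ℕ) (v v' : ℕ × ℕ) : (lw L v v').length ≤ 2 * L + 2 := by
  unfold lw
  rw [List.length_append, vinv_length]
  have h1 := cw_length L v'.1 v'.2
  have h2 := cw_length L v.1 v.2
  omega

theorem up_mul {γ γ' : List Lt} {g h x x' : ZMod p} (h1 : vl (ZMod p) γ = !![g, x; 0, g⁻¹])
    (h2 : vl (ZMod p) γ' = !![h, x'; 0, h⁻¹]) :
    ∃ x'', vl (ZMod p) (γ ++ γ') = !![g * h, x''; 0, (g * h)⁻¹] := by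
  refine ⟨g * x' + x * h⁻¹, ?_⟩
  rw [vl_append, h1, h2, Matrix.mul_fin_two, mul_inv]
  simp

theorem cj_val {γ : List Lt} {g x : ZMod p} (hg : g ≠ 0) (h : vl (ZMod p) γ = !![g, x; 0, g⁻¹]) (e : Bool) :
    vl (ZMod p) (cj γ e) = !![1, (if e = true then -(g * g) else g * g); 0, 1] := by
  have hJ := vl_mul_vinv (ZMod p) γ
  have hMI : !![g⁻¹, -x; 0, g] * vl (ZMod p) γ = 1 := by
    rw [h, Matrix.mul_fin_two, Matrix.one_fin_two]
    have h3 : g⁻¹ * g = 1 := inv_mul_cancel₀ hg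
    have h4 : g * g⁻¹ = 1 := mul_inv_cancel₀ hg
    congr 1
    ext i j
    fin_cases i <;> fin_cases j <;> simp [h3, h4]
    ring
  have hJ2 : vl (ZMod p) (vinv γ) = !![g⁻¹, -x; 0, g] := by
    calc vl (ZMod p) (vinv γ) = (!![g⁻¹, -x; 0, g] * vl (ZMod p) γ) * vl (ZMod p) (vinv γ) := by
          rw [hMI, one_mul]
      _ = !![g⁻¹, -x; 0, g] * (vl (ZMod p) γ * vl (ZMod p) (vinv γ)) := mul_assoc _ _ _
      _ = !![g⁻¹, -x; 0, g] := by rw [hJ, mul_one]
  unfold cj
  rw [vl_append, vl_cons, hJ2, h]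
  unfold mt
  have h3 : g⁻¹ * g = 1 := inv_mul_cancel₀ hg
  have h4 : g * g⁻¹ = 1 := mul_inv_cancel₀ hg
  cases e
  · simp only [Bool.false_eq_true, if_false, Matrix.mul_fin_two]
    ext i j
    fin_cases i <;> fin_cases j <;> simp [h3, h4]
    ring
  · simp only [Bool.false_eq_true, if_false, if_true, Matrix.mul_fin_two]
    ext i j
    fin_cases i <;> fin_cases j <;> simp [h3, h4]
    ring

theorem cj_length (γ : List Lt) (e : Bool) : (cj γ e).length = 2 * γ.length + 1 := by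
  unfold cj
  rw [List.length_append, List.length_cons, vinv_length]
  omega

end Pool.Agent.NV
end

section

/-!
# Task E4: the word which is found has the value `u_y`

Put `gᵢ = (nd p y x i).1 / (nd p y x i).2`.  `Good` gives `LP` for all `i`; by `OK_pos` (`E2`) the second number `(den * w).val` is positive, so `den ≠ 0` (`ZMod.val_zero`), and `lw_val` applies to `lwi i` with `g = gᵢ`:
the casts of `(num * w).val`, `(den * w).val` to `ZMod p` are `num * w`, `den * w` (`ZMod.natCast_zmod_val`, `NeZero p`), and `num * w = (num / den) * (den * w)`.  So `gᵢ ≠ 0` and `vl (lwi i) = !![gᵢ, *; 0, gᵢ⁻¹]`.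
`up_mul` for the pairs (0,1), (2,3), (4,5), `cj_val`, `vl_append`, product of three upper unitriangular matrices: the value is `!![1, (g₀ g₁)² + (g₂ g₃)² - (g₄ g₅)²; 0, 1]`.
With `g₀ = x 0`, `g₁ = x 1`, `g₂ g₃ = n1 / (2 x₄)`, `g₄ g₅ = n2 / (2 x₄)` (`x 2`, `x 3`, `x 4` and `2` are not `0`), `λ = y - (x₀ x₁)²`, `n1 = x₄² + λ`, `n2 = λ - x₄²`: `n1² - n2² = 4 x₄² λ`.  So the sum is `y` (`field_simp`, `ring`).
`2 ≠ 0` in `ZMod p` as `p ≠ 2` (from `x₄ + x₄ ≠ 0` it also follows directly: the denominator `(x 4 + x 4) * x 2` is not `0`).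
Length: `cj_length`, `lw_length`: `3 (2 (2 L + 2 + 2 L + 2) + 1) = 24 L + 27`.
-/

set_option autoImplicit false

namespace Pool.Agent.NV

open Matrix

variable {p : ℕ} [Fact p.Prime]

private theorem E4_ne {L : ℕ} {a : ZMod p} {v : ZMod p × ZMod p}
    (h : OK L (a * v.1).val (a * v.2).val) : a ≠ 0 ∧ v.1 ≠ 0 ∧ v.2 ≠ 0 := by
  obtain ⟨h1, h2⟩ := OK_pos h
  refine ⟨?_, ?_, ?_⟩
  · rintro rfl
    rw [zero_mul, ZMod.val_zero] at h1
    exact lt_irrefl _ h1
  · intro h0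
    rw [h0, mul_zero, ZMod.val_zero] at h1
    exact lt_irrefl _ h1
  · intro h0
    rw [h0, mul_zero, ZMod.val_zero] at h2
    exact lt_irrefl _ h2

private theorem E4_loop {L : ℕ} {a b : ZMod p} {v : ZMod p × ZMod p} (h : LP p L a b v) :
    ∃ x, vl (ZMod p) (lw L ((a * v.1).val, (a * v.2).val) ((b * v.1).val, (b * v.2).val)) =
      !![a / b, x; 0, (a / b)⁻¹] := by
  have hb := (E4_ne h.2).1
  refine (lw_val (v := ((a * v.1).val, (a * v.2).val)) (v' := ((b * v.1).val, (b * v.2).val)) h.1 h.2 (a / b)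
    ?_ ?_).2
  · change (((a * v.1).val : ℕ) : ZMod p) = a / b * (((b * v.1).val : ℕ) : ZMod p)
    rw [ZMod.natCast_zmod_val, ZMod.natCast_zmod_val, ← mul_assoc, div_mul_cancel₀ a hb]
  · change (((a * v.2).val : ℕ) : ZMod p) = a / b * (((b * v.2).val : ℕ) : ZMod p)
    rw [ZMod.natCast_zmod_val, ZMod.natCast_zmod_val, ← mul_assoc, div_mul_cancel₀ a hb]

private theorem E4_pair {g g' : List Lt} {a b a' b' : ZMod p} (ha : a ≠ 0) (hb : b ≠ 0) (ha' : a' ≠ 0)
    (hb' : b' ≠ 0) (h1 : ∃ x, vl (ZMod p) g = !![a / b, x; 0, (a / b)⁻¹])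
    (h2 : ∃ x, vl (ZMod p) g' = !![a' / b', x; 0, (a' / b')⁻¹]) (e : Bool) :
    vl (ZMod p) (cj (g ++ g') e) = !![1, (if e = true then -(a / b * (a' / b') * (a / b * (a' / b'))) else
      a / b * (a' / b') * (a / b * (a' / b'))); 0, 1] := by
  obtain ⟨x, hx⟩ := h1
  obtain ⟨x', hx'⟩ := h2
  obtain ⟨x'', hx''⟩ := up_mul hx hx'
  exact cj_val (mul_ne_zero (div_ne_zero ha hb) (div_ne_zero ha' hb')) hx'' e

theorem good_ne {L : ℕ} {y : ZMod p} {x : Fin 5 → ZMod p} {w : Fin 6 → ZMod p × ZMod p}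
    (h : Good p L y x w) : (∀ i, x i ≠ 0) ∧ ∀ i, (w i).1 ≠ 0 ∧ (w i).2 ≠ 0 := by
  have h0 : LP p L (x 0) 1 (w 0) := h 0
  have h1 : LP p L (x 1) 1 (w 1) := h 1
  have h2 : LP p L (x 2) 1 (w 2) := h 2
  have h3 : LP p L (n1 p y x) ((x 4 + x 4) * x 2) (w 3) := h 3
  have h4 : LP p L (x 3) 1 (w 4) := h 4
  refine ⟨fun i => ?_, fun i => ⟨(E4_ne (h i).1).2.1, (E4_ne (h i).1).2.2⟩⟩
  have h44 : x 4 ≠ 0 := by
    intro h0
    apply left_ne_zero_of_mul (E4_ne h3.2).1
    rw [h0, add_zero]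
  fin_cases i
  · exact (E4_ne h0.1).1
  · exact (E4_ne h1.1).1
  · exact (E4_ne h2.1).1
  · exact (E4_ne h4.1).1
  · exact h44

theorem good_word {L : ℕ} {y : ZMod p} {x : Fin 5 → ZMod p} {w : Fin 6 → ZMod p × ZMod p}
    (h : Good p L y x w) : vl (ZMod p) (outw p L y x w) = !![1, y; 0, 1] := by
  have h0 : LP p L (x 0) 1 (w 0) := h 0
  have h1 : LP p L (x 1) 1 (w 1) := h 1
  have h2 : LP p L (x 2) 1 (w 2) := h 2
  have h3 : LP p L (n1 p y x) ((x 4 + x 4) * x 2) (w 3) := h 3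
  have h4 : LP p L (x 3) 1 (w 4) := h 4
  have h5 : LP p L (n2 p y x) ((x 4 + x 4) * x 3) (w 5) := h 5
  have hx := (good_ne h).1
  have hm : x 4 + x 4 ≠ 0 := left_ne_zero_of_mul (E4_ne h3.2).1
  have e1 : vl (ZMod p) (cj (lwi p L y x w 0 ++ lwi p L y x w 1) false) = _ :=
    E4_pair (hx 0) one_ne_zero (hx 1) one_ne_zero (E4_loop h0) (E4_loop h1) false
  have e2 : vl (ZMod p) (cj (lwi p L y x w 2 ++ lwi p L y x w 3) false) = _ :=
    E4_pair (hx 2) one_ne_zero (E4_ne h3.1).1 (E4_ne h3.2).1 (E4_loop h2) (E4_loop h3) false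
  have e3 : vl (ZMod p) (cj (lwi p L y x w 4 ++ lwi p L y x w 5) true) = _ :=
    E4_pair (hx 3) one_ne_zero (E4_ne h5.1).1 (E4_ne h5.2).1 (E4_loop h4) (E4_loop h5) true
  have f2 : x 2 / 1 * (n1 p y x / ((x 4 + x 4) * x 2)) = n1 p y x / (x 4 + x 4) := by
    have := hx 2
    rw [div_one, mul_comm (x 4 + x 4) (x 2), ← div_div, mul_div_assoc', mul_div_cancel₀]
    exact this
  have f3 : x 3 / 1 * (n2 p y x / ((x 4 + x 4) * x 3)) = n2 p y x / (x 4 + x 4) := by
    have := hx 3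
    rw [div_one, mul_comm (x 4 + x 4) (x 3), ← div_div, mul_div_assoc', mul_div_cancel₀]
    exact this
  rw [f2] at e2
  rw [f3] at e3
  unfold outw
  rw [vl_append, vl_append, e1, e2, e3, Matrix.mul_fin_two, Matrix.mul_fin_two]
  have key : x 0 / 1 * (x 1 / 1) * (x 0 / 1 * (x 1 / 1)) + (n1 p y x / (x 4 + x 4) * (n1 p y x / (x 4 + x 4)) +
      -(n2 p y x / (x 4 + x 4) * (n2 p y x / (x 4 + x 4)))) = y := by
    have k1 : n1 p y x / (x 4 + x 4) * (n1 p y x / (x 4 + x 4)) + -(n2 p y x / (x 4 + x 4) * (n2 p y x / (x 4 + x 4))) =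
        y - x 0 * x 1 * (x 0 * x 1) := by
      have k2 : n1 p y x / (x 4 + x 4) * (n1 p y x / (x 4 + x 4)) + -(n2 p y x / (x 4 + x 4) * (n2 p y x / (x 4 + x 4))) =
          (n1 p y x * n1 p y x - n2 p y x * n2 p y x) / ((x 4 + x 4) * (x 4 + x 4)) := by
        rw [div_mul_div_comm, div_mul_div_comm, ← sub_eq_add_neg, ← sub_div]
      rw [k2, div_eq_iff (mul_ne_zero hm hm)]
      unfold n1 n2
      ring
    rw [k1, div_one, div_one]
    ring
  rw [if_neg Bool.false_ne_true, if_neg Bool.false_ne_true, if_pos rfl]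
  congr 1
  ext i j
  fin_cases i <;> fin_cases j
  · change 1 * (1 * 1 + _ * 0) + _ * (0 * 1 + 1 * 0) = (1 : ZMod p)
    ring
  · change 1 * (1 * _ + _ * 1) + _ * (0 * _ + 1 * 1) = y
    refine Eq.trans ?_ key
    ring
  · change 0 * (1 * 1 + _ * 0) + 1 * (0 * 1 + 1 * 0) = (0 : ZMod p)
    ring
  · change 0 * (1 * _ + _ * 1) + 1 * (0 * _ + 1 * 1) = (1 : ZMod p)
    ring

theorem outw_length (L : ℕ) (y : ZMod p) (x : Fin 5 → ZMod p) (w : Fin 6 → ZMod p × ZMod p) :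
    (outw p L y x w).length ≤ 24 * L + 27 := by
  have hl : ∀ i, (lwi p L y x w i).length ≤ 2 * L + 2 := fun i => lw_length _ _ _
  unfold outw
  simp only [List.length_append, cj_length]
  have h0 := hl 0
  have h1 := hl 1
  have h2 := hl 2
  have h3 := hl 3
  have h4 := hl 4
  have h5 := hl 5
  omega

end Pool.Agent.NV
end

section

/-!
# Counting pairs with small partial quotients: definitions
-/

set_option autoImplicit false

namespace Pool.Agent.NV

/-- The parameter of the exponential weight. -/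
noncomputable def tht (A : ℕ) : ℝ := 1 / (((A : ℝ) + 2) * Real.log (A + 1))

/-- The exponent `1 - 6 / (A - 2)`. -/
noncomputable def ex (A : ℕ) : ℝ := 1 - 6 / ((A : ℝ) - 2)

/-- The measure of the cylinder with the denominators `q`, `q'`. -/
noncomputable def mu (q q' : ℕ) : ℝ := 1 / ((q : ℝ) * (q + q'))

/-- The weight of the pair `(Q, q)`, `Q > q`: it is `exp (-θ · (number of steps))` if all partial quotients are at most `A` and
the pair is coprime, and `0` otherwise. -/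
noncomputable def gw (A : ℕ) (Q q : ℕ) : ℝ :=
  if h0 : q = 0 then 0
  else if q = 1 then (if 2 ≤ Q ∧ Q ≤ A + 1 then Real.exp (-tht A * ((Q : ℝ) - 1)) else 0)
  else if Q / q ≤ A ∧ 1 ≤ Q / q then Real.exp (-tht A * ((Q / q : ℕ) : ℝ)) * gw A q (Q % q) else 0
termination_by q
decreasing_by exact Nat.mod_lt _ (Nat.pos_of_ne_zero h0)

end Pool.Agent.NV
end

section

/-!
# Task C1: the inequality for the children of a cylinder

Let `A ≥ 14`, `1 ≤ q' ≤ q`, `t = q' / q ∈ (0, 1]`, `p_a = mu (a q + q') q / mu q q' = (1 + t) / ((a + t) (a + 1 + t))` for `a ≥ 1` (`mu (a q + q') q = 1 / ((a q + q') ((a + 1) q + q'))`).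
1. `p_a ≤ 1 / (2 + t) ≤ 1/2`.
2. `∑_{a=1}^A p_a = (1 + t) (1/(1+t) - 1/(A+1+t)) = 1 - (1+t)/(A+1+t) ≥ 1 - 2/(A+2)` (telescoping sum; `(1+t)/(A+1+t)` increases with `t`).
3. `a p_a ≤ 2 / (a + 1)`: `a (1+t)(a+1) ≤ 2 (a+t)(a+1+t)` since `1 + t ≤ 2`, `a ≤ a + t`, `a + 1 ≤ a + 1 + t`.  `∑_{a=1}^A 1/(a+1) ≤ log (A+1)` (induction: `1/(a+1) ≤ log (a+1) - log a`, i.e. `log (1 - 1/(a+1)) ≤ -1/(a+1)`,
   `Real.log_le_sub_one_of_pos`).  So `∑ a p_a ≤ 2 log (A+1)`.
4. With `θ = tht A`, `s = ex A = 1 - k`, `k = 6/(A-2) ∈ (0, 1/2]`: `mu (a q + q') q ^ s = mu q q' ^ s * p_a ^ s`, `p_a ^ s = p_a * p_a ^ (-k) ≥ p_a * 2 ^ k` (as `p_a ≤ 1/2`), `exp (-θ a) ≥ 1 - θ a`.  So the sum divided by `mu q q' ^ s` is at least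
   `2 ^ k (∑ p_a - θ ∑ a p_a) ≥ 2 ^ k (1 - 2/(A+2) - 2 log (A+1) / ((A+2) log (A+1))) = 2 ^ k (1 - 4/(A+2)) = 2 ^ k (A-2)/(A+2)`.
5. `2 ^ k ≥ (A+2)/(A-2)`: `log ((A+2)/(A-2)) ≤ 4/(A-2)` (`log x ≤ x - 1`) and `k log 2 = 6 log 2/(A-2) ≥ 4/(A-2)` (`Real.log_two_gt_d9`: `log 2 > 0.69`).
-/

set_option autoImplicit false

namespace Pool.Agent.NV

theorem mu_pos {q q' : ℕ} (h : 1 ≤ q) : 0 < mu q q' := by
  unfold mu
  have h1 : (1 : ℝ) ≤ q := by exact_mod_cast h
  have h2 : (0 : ℝ) ≤ q' := Nat.cast_nonneg _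
  exact one_div_pos.2 (mul_pos (by linarith) (by linarith))

/-- the quotient of the measures -/
private noncomputable def C1_p (Q Q' : ℝ) (a : ℕ) : ℝ :=
  Q * (Q + Q') / (((a : ℝ) * Q + Q') * (((a : ℝ) + 1) * Q + Q'))

private theorem C1_pos {Q Q' : ℝ} (h1 : 1 ≤ Q') (h2 : Q' ≤ Q) (a : ℕ) : 0 < C1_p Q Q' a := by
  unfold C1_p
  have h3 : (0 : ℝ) ≤ a := Nat.cast_nonneg a
  have h4 : 0 ≤ (a : ℝ) * Q := mul_nonneg h3 (by linarith)
  have h5 : 0 ≤ ((a : ℝ) + 1) * Q := mul_nonneg (by linarith) (by linarith)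
  apply div_pos
  · exact mul_pos (by linarith) (by linarith)
  · exact mul_pos (by linarith) (by linarith)

private theorem C1_half {Q Q' : ℝ} (h1 : 1 ≤ Q') (h2 : Q' ≤ Q) {a : ℕ} (ha : 1 ≤ a) : C1_p Q Q' a ≤ 1 / 2 := by
  unfold C1_p
  have h3 : (1 : ℝ) ≤ a := by exact_mod_cast ha
  have h4 : Q ≤ (a : ℝ) * Q := by nlinarith
  have h5 : 2 * Q ≤ ((a : ℝ) + 1) * Q := by nlinarith
  rw [div_le_div_iff₀ (mul_pos (by linarith) (by linarith)) (by norm_num)]
  have h6 : (Q + Q') * (2 * Q) ≤ ((a : ℝ) * Q + Q') * (((a : ℝ) + 1) * Q + Q') :=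
    mul_le_mul (by linarith) (by linarith) (by linarith) (by linarith)
  linarith

private theorem C1_tel {Q Q' : ℝ} (h1 : 1 ≤ Q') (h2 : Q' ≤ Q) (A : ℕ) :
    ∑ a ∈ Finset.Icc 1 A, C1_p Q Q' a = 1 - (Q + Q') / (((A : ℝ) + 1) * Q + Q') := by
  induction A with
  | zero =>
    rw [Finset.Icc_eq_empty (by norm_num), Finset.sum_empty, Nat.cast_zero, zero_add, one_mul,
      div_self (by linarith), sub_self]
  | succ A ih =>
    rw [Finset.sum_Icc_succ_top (by omega), ih]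
    unfold C1_p
    push_cast
    have h3 : (0 : ℝ) ≤ A := Nat.cast_nonneg A
    have h4 : 0 ≤ ((A : ℝ) + 1) * Q := mul_nonneg (by linarith) (by linarith)
    have h5 : 0 ≤ ((A : ℝ) + 1 + 1) * Q := mul_nonneg (by linarith) (by linarith)
    have h6 : 0 < ((A : ℝ) + 1) * Q + Q' := by linarith
    have h7 : ((A : ℝ) + 1 + 1) * Q + Q' = (((A : ℝ) + 1) * Q + Q') + Q := by ring
    rw [h7]
    generalize ((A : ℝ) + 1) * Q + Q' = X at h6 ⊢
    have h8 : X ≠ 0 := h6.ne'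
    have h9 : X + Q ≠ 0 := by linarith
    field_simp
    ring

private theorem C1_mul {Q Q' : ℝ} (h1 : 1 ≤ Q') (h2 : Q' ≤ Q) (a : ℕ) : (a : ℝ) * C1_p Q Q' a ≤ 2 / ((a : ℝ) + 1) := by
  unfold C1_p
  have h3 : (0 : ℝ) ≤ a := Nat.cast_nonneg a
  have h4 : 0 ≤ (a : ℝ) * Q := mul_nonneg h3 (by linarith)
  have h5 : 0 < ((a : ℝ) + 1) * Q := mul_pos (by linarith) (by linarith)
  rw [← mul_div_assoc, div_le_div_iff₀ (mul_pos (by linarith) (by linarith)) (by linarith)]
  have h6 : ((a : ℝ) * Q) * (((a : ℝ) + 1) * Q) ≤ ((a : ℝ) * Q + Q') * (((a : ℝ) + 1) * Q + Q') :=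
    mul_le_mul (by linarith) (by linarith) h5.le (by linarith)
  have h7 : (a : ℝ) * (Q * (Q + Q')) * ((a : ℝ) + 1) ≤ 2 * (((a : ℝ) * Q) * (((a : ℝ) + 1) * Q)) := by
    have h8 : (a : ℝ) * (Q * (Q + Q')) * ((a : ℝ) + 1) = ((a : ℝ) * (((a : ℝ) + 1) * Q)) * (Q + Q') := by ring
    have h9 : 2 * (((a : ℝ) * Q) * (((a : ℝ) + 1) * Q)) = ((a : ℝ) * (((a : ℝ) + 1) * Q)) * (2 * Q) := by ring
    rw [h8, h9]
    exact mul_le_mul_of_nonneg_left (by linarith) (mul_nonneg h3 h5.le)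
  linarith

private theorem C1_harm (A : ℕ) : ∑ a ∈ Finset.Icc 1 A, 1 / ((a : ℝ) + 1) ≤ Real.log ((A : ℝ) + 1) := by
  induction A with
  | zero => simp
  | succ A ih =>
    rw [Finset.sum_Icc_succ_top (by omega)]
    push_cast
    have h3 : (0 : ℝ) ≤ A := Nat.cast_nonneg A
    have h4 : Real.log (((A : ℝ) + 1) / ((A : ℝ) + 1 + 1)) ≤ ((A : ℝ) + 1) / ((A : ℝ) + 1 + 1) - 1 :=
      Real.log_le_sub_one_of_pos (by positivity)
    rw [Real.log_div (by positivity) (by positivity)] at h4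
    have h5 : ((A : ℝ) + 1) / ((A : ℝ) + 1 + 1) - 1 = -(1 / ((A : ℝ) + 1 + 1)) := by
      field_simp
      ring
    rw [h5] at h4
    linarith

theorem children {A q q' : ℕ} (hA : 14 ≤ A) (h1 : 1 ≤ q') (h2 : q' ≤ q) :
    mu q q' ^ ex A ≤ ∑ a ∈ Finset.Icc 1 A, Real.exp (-tht A * (a : ℝ)) * mu (a * q + q') q ^ ex A := by
  have hAr : (14 : ℝ) ≤ A := by exact_mod_cast hA
  have hQ1 : (1 : ℝ) ≤ (q' : ℝ) := by exact_mod_cast h1
  have hQ2 : (q' : ℝ) ≤ (q : ℝ) := by exact_mod_cast h2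
  obtain ⟨Q, hQ⟩ : ∃ Q : ℝ, Q = (q : ℝ) := ⟨_, rfl⟩
  obtain ⟨Q', hQ'⟩ : ∃ Q' : ℝ, Q' = (q' : ℝ) := ⟨_, rfl⟩
  have hmu0 : 0 < mu q q' := mu_pos (by omega)
  obtain ⟨k, hk⟩ : ∃ k : ℝ, k = 6 / ((A : ℝ) - 2) := ⟨_, rfl⟩
  have hk0 : 0 < k := by rw [hk]; exact div_pos (by norm_num) (by linarith)
  have hex : ex A = 1 + -k := by unfold ex; rw [hk]; ring
  have hθ0 : 0 < tht A := by
    unfold tht
    have : 0 < Real.log ((A : ℝ) + 1) := Real.log_pos (by linarith)
    positivity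
  have hmu : ∀ a : ℕ, mu (a * q + q') q = mu q q' * C1_p Q Q' a := by
    intro a
    unfold mu C1_p
    rw [hQ, hQ']
    push_cast
    have h3 : (0 : ℝ) ≤ a := Nat.cast_nonneg a
    have h4 : 0 ≤ (a : ℝ) * q := mul_nonneg h3 (by linarith)
    have e1 : (a : ℝ) * q + q' ≠ 0 := by linarith
    have e2 : (a : ℝ) * q + q' + q ≠ 0 := by linarith
    have e3 : ((a : ℝ) + 1) * q + q' = (a : ℝ) * q + q' + q := by ring
    have e4 : (q : ℝ) ≠ 0 := by linarith
    have e5 : (q : ℝ) + q' ≠ 0 := by linarith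
    rw [e3]
    field_simp
  rw [← hQ'] at hQ1
  rw [← hQ, ← hQ'] at hQ2
  have hterm : ∀ a ∈ Finset.Icc 1 A, (mu q q' ^ ex A * 2 ^ k) * (C1_p Q Q' a - tht A * ((a : ℝ) * C1_p Q Q' a)) ≤
      Real.exp (-tht A * (a : ℝ)) * mu (a * q + q') q ^ ex A := by
    intro a ha
    have ha1 : 1 ≤ a := (Finset.mem_Icc.1 ha).1
    have hp0 := C1_pos hQ1 hQ2 a
    have hp1 := C1_half hQ1 hQ2 ha1
    rw [hmu a, Real.mul_rpow hmu0.le hp0.le]
    have h3 : (2 : ℝ) ^ k ≤ C1_p Q Q' a ^ (-k) := by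
      have h4 := Real.rpow_le_rpow_of_nonpos hp0 hp1 (show -k ≤ 0 by linarith)
      refine le_trans (le_of_eq ?_) h4
      rw [one_div, Real.inv_rpow (by norm_num), Real.rpow_neg (by norm_num), inv_inv]
    have h4 : C1_p Q Q' a * 2 ^ k ≤ C1_p Q Q' a ^ ex A := by
      rw [hex, Real.rpow_add hp0, Real.rpow_one]
      exact mul_le_mul_of_nonneg_left h3 hp0.le
    have h5 : 1 - tht A * a ≤ Real.exp (-tht A * (a : ℝ)) := by
      have := Real.add_one_le_exp (-tht A * (a : ℝ))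
      linarith
    have h6 : 0 ≤ mu q q' ^ ex A := Real.rpow_nonneg hmu0.le _
    have h7 : 0 ≤ C1_p Q Q' a * 2 ^ k := mul_nonneg hp0.le (Real.rpow_nonneg (by norm_num) _)
    calc (mu q q' ^ ex A * 2 ^ k) * (C1_p Q Q' a - tht A * ((a : ℝ) * C1_p Q Q' a))
        = (1 - tht A * a) * (mu q q' ^ ex A * (C1_p Q Q' a * 2 ^ k)) := by ring
      _ ≤ Real.exp (-tht A * (a : ℝ)) * (mu q q' ^ ex A * (C1_p Q Q' a * 2 ^ k)) :=
          mul_le_mul_of_nonneg_right h5 (mul_nonneg h6 h7)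
      _ ≤ Real.exp (-tht A * (a : ℝ)) * (mu q q' ^ ex A * C1_p Q Q' a ^ ex A) :=
          mul_le_mul_of_nonneg_left (mul_le_mul_of_nonneg_left h4 h6) (Real.exp_pos _).le
  refine le_trans ?_ (Finset.sum_le_sum hterm)
  rw [← Finset.mul_sum, Finset.sum_sub_distrib, ← Finset.mul_sum, C1_tel hQ1 hQ2]
  have hsum2 : ∑ a ∈ Finset.Icc 1 A, (a : ℝ) * C1_p Q Q' a ≤ 2 * Real.log ((A : ℝ) + 1) := by
    calc ∑ a ∈ Finset.Icc 1 A, (a : ℝ) * C1_p Q Q' a ≤ ∑ a ∈ Finset.Icc 1 A, 2 * (1 / ((a : ℝ) + 1)) := by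
          apply Finset.sum_le_sum
          intro a _
          have := C1_mul hQ1 hQ2 a
          rw [mul_one_div]
          exact this
      _ = 2 * ∑ a ∈ Finset.Icc 1 A, 1 / ((a : ℝ) + 1) := by rw [← Finset.mul_sum]
      _ ≤ 2 * Real.log ((A : ℝ) + 1) := by linarith [C1_harm A]
  have hlog : 0 < Real.log ((A : ℝ) + 1) := Real.log_pos (by linarith)
  have h3 : tht A * ∑ a ∈ Finset.Icc 1 A, (a : ℝ) * C1_p Q Q' a ≤ 2 / ((A : ℝ) + 2) := by
    calc tht A * ∑ a ∈ Finset.Icc 1 A, (a : ℝ) * C1_p Q Q' a ≤ tht A * (2 * Real.log ((A : ℝ) + 1)) :=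
          mul_le_mul_of_nonneg_left hsum2 hθ0.le
      _ = 2 / ((A : ℝ) + 2) := by
          unfold tht
          field_simp
  have h4 : (Q + Q') / (((A : ℝ) + 1) * Q + Q') ≤ 2 / ((A : ℝ) + 2) := by
    have h5 : 0 < ((A : ℝ) + 1) * Q + Q' := by
      have : 0 < ((A : ℝ) + 1) * Q := mul_pos (by linarith) (by linarith)
      linarith
    rw [div_le_div_iff₀ h5 (by linarith)]
    have h6 : (A : ℝ) * Q' ≤ (A : ℝ) * Q := mul_le_mul_of_nonneg_left hQ2 (by linarith)
    nlinarith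
  have h5 : ((A : ℝ) - 2) / ((A : ℝ) + 2) ≤ 1 - (Q + Q') / (((A : ℝ) + 1) * Q + Q') -
      tht A * ∑ a ∈ Finset.Icc 1 A, (a : ℝ) * C1_p Q Q' a := by
    have h6 : ((A : ℝ) - 2) / ((A : ℝ) + 2) = 1 - 2 / ((A : ℝ) + 2) - 2 / ((A : ℝ) + 2) := by
      field_simp
      ring
    rw [h6]
    linarith
  have h6 : 1 ≤ (2 : ℝ) ^ k * (((A : ℝ) - 2) / ((A : ℝ) + 2)) := by
    have h7 : ((A : ℝ) + 2) / ((A : ℝ) - 2) ≤ (2 : ℝ) ^ k := by
      have h8 : (2 : ℝ) ^ k = Real.exp (Real.log 2 * k) := Real.rpow_def_of_pos (by norm_num) k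
      have h9 : 4 / ((A : ℝ) - 2) ≤ Real.log 2 * k := by
        have := Real.log_two_gt_d9
        rw [hk, ← mul_div_assoc]
        apply div_le_div_of_nonneg_right _ (by linarith)
        linarith
      have h10 := Real.add_one_le_exp (Real.log 2 * k)
      have h11 : ((A : ℝ) + 2) / ((A : ℝ) - 2) = 4 / ((A : ℝ) - 2) + 1 := by
        have : (A : ℝ) - 2 ≠ 0 := by linarith
        field_simp
        ring
      rw [h8, h11]
      linarith
    have h8 : (((A : ℝ) + 2) / ((A : ℝ) - 2)) * (((A : ℝ) - 2) / ((A : ℝ) + 2)) = 1 := by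
      have e1 : (A : ℝ) - 2 ≠ 0 := by linarith
      have e2 : (A : ℝ) + 2 ≠ 0 := by linarith
      field_simp
    rw [← h8]
    exact mul_le_mul_of_nonneg_right h7 (div_nonneg (by linarith) (by linarith))
  have h7 : 0 ≤ mu q q' ^ ex A := Real.rpow_nonneg hmu0.le _
  have h8 : 0 ≤ (2 : ℝ) ^ k := Real.rpow_nonneg (by norm_num) _
  calc mu q q' ^ ex A = mu q q' ^ ex A * 1 := (mul_one _).symm
    _ ≤ mu q q' ^ ex A * ((2 : ℝ) ^ k * (((A : ℝ) - 2) / ((A : ℝ) + 2))) := mul_le_mul_of_nonneg_left h6 h7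
    _ ≤ mu q q' ^ ex A * ((2 : ℝ) ^ k * (1 - (Q + Q') / (((A : ℝ) + 1) * Q + Q') -
      tht A * ∑ a ∈ Finset.Icc 1 A, (a : ℝ) * C1_p Q Q' a)) :=
        mul_le_mul_of_nonneg_left (mul_le_mul_of_nonneg_left h5 h8) h7
    _ = _ := by ring

end Pool.Agent.NV
end

section

/-!
# Task C2: the weights

`gw_nonneg`: strong induction on `q` (unfold `gw` once with `rw [gw]`).
`gw_zero_of_lt`: if `(A + 1) * q < Q` then `gw A Q q = 0` (for `q = 1`: `Q > A + 1`; otherwise `Q / q ≥ A + 1 > A`, as `(A + 1) * q ≤ Q`, `Nat.le_div_iff_mul_le`).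
`gw_child`: for `2 ≤ q`, `q' < q`, `1 ≤ a ≤ A`: `gw A (a q + q') q = exp (-θ a) * gw A q q'` (`(a q + q') / q = a`, `(a q + q') % q = q'`; if `q' = 0` both sides are `0`).
`gw_root`: `gw A (a + 1) 1 = exp (-θ a)` for `1 ≤ a ≤ A`.
-/

set_option autoImplicit false

namespace Pool.Agent.NV

theorem gw_nonneg (A Q q : ℕ) : 0 ≤ gw A Q q := by
  induction q using Nat.strong_induction_on generalizing Q with
  | _ q ih =>
    rw [gw]
    split_ifs with h0 h1 h2 h3
    · exact le_rfl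
    · exact (Real.exp_pos _).le
    · exact le_rfl
    · exact mul_nonneg (Real.exp_pos _).le (ih _ (Nat.mod_lt _ (Nat.pos_of_ne_zero h0)) q)
    · exact le_rfl

theorem gw_zero_of_lt {A Q q : ℕ} (h : (A + 1) * q < Q) : gw A Q q = 0 := by
  rw [gw]
  split_ifs with h0 h1 h2 h3
  · rfl
  · subst h1
    omega
  · rfl
  · exfalso
    have h4 : A + 1 ≤ Q / q := (Nat.le_div_iff_mul_le (Nat.pos_of_ne_zero h0)).2 h.le
    omega
  · rfl

theorem gw_child {A q q' a : ℕ} (hq : 2 ≤ q) (h : q' < q) (ha : 1 ≤ a) (haA : a ≤ A) :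
    gw A (a * q + q') q = Real.exp (-tht A * (a : ℝ)) * gw A q q' := by
  have h0 : ¬ q = 0 := by omega
  have h1 : ¬ q = 1 := by omega
  have e1 : (a * q + q') / q = a := by
    rw [add_comm, Nat.add_mul_div_right _ _ (by omega), Nat.div_eq_of_lt h, zero_add]
  have e2 : (a * q + q') % q = q' := by
    rw [add_comm, Nat.add_mul_mod_self_right, Nat.mod_eq_of_lt h]
  conv_lhs => rw [gw]
  rw [e1, e2, dif_neg h0, if_neg h1, if_pos ⟨haA, ha⟩]

theorem gw_root {A a : ℕ} (ha : 1 ≤ a) (haA : a ≤ A) : gw A (a + 1) 1 = Real.exp (-tht A * (a : ℝ)) := by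
  rw [gw, dif_neg one_ne_zero, if_pos rfl, if_pos ⟨by omega, by omega⟩]
  congr 2
  push_cast
  ring

end Pool.Agent.NV
end

section

/-!
# Task D1: Cauchy-Schwarz

`VS_card`: `v ↦ (v.1.val, v.2.val)` is a bijection from `VS p L` to the set on the right: values are `< p`, positive by `OK_pos`; inverse by casts (`ZMod.val_natCast_of_lt`).  `Finset.card_bij'` or `Finset.card_nbij'`.
`cnt_zero`: `OK L (0 * v.1).val _` is false by `OK_pos` (`ZMod.val_zero`).
`cnt_le`: `cnt p L g ≤ (VS p L).card` (subset) `≤ (p - 1) ^ 2` (`VS_card`; the product set has `(p-1)²` elements).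
`cs`: for `v ∈ VS` both coordinates are nonzero (`OK_pos`).  For `z : ZMod p` let `r z` be the number of `v ∈ VS` with `v.1 = z * v.2`; `r 0 = 0` and `∑_z r z = |VS|` (slope `z = v.1 / v.2 ≠ 0`; `Finset.card_eq_sum_card_fiberwise`).
`∑_g cnt g = #{(g, v) : v ∈ VS, g v ∈ VS} ≥ #{(v, v') ∈ VS² : same slope} = ∑_z (r z)²`: the map `(v, v') ↦ (v'.1 / v.1, v)` is injective on pairs with the same slope, as `v' = g v`.
Cauchy-Schwarz over the `p - 1` nonzero slopes: `(∑_{z ≠ 0} r z)² ≤ (p - 1) ∑_{z ≠ 0} (r z)²` (`sq_sum_le_card_mul_sum_sq`).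
-/

set_option autoImplicit false

namespace Pool.Agent.NV

variable {p : ℕ} [Fact p.Prime]

theorem VS_card (L : ℕ) : (VS p L).card =
    ((Finset.Icc 1 (p - 1) ×ˢ Finset.Icc 1 (p - 1)).filter fun v : ℕ × ℕ => OK L v.1 v.2).card := by
  have hp : 0 < p := (Fact.out : p.Prime).pos
  refine Finset.card_bij' (fun v _ => (v.1.val, v.2.val)) (fun v _ => ((v.1 : ZMod p), (v.2 : ZMod p)))
    ?_ ?_ ?_ ?_
  · intro v hv
    have h : OK L v.1.val v.2.val := by simpa [VS] using hv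
    have h1 := OK_pos h
    have h2 : v.1.val < p := ZMod.val_lt _
    have h3 : v.2.val < p := ZMod.val_lt _
    simp only [Finset.mem_filter, Finset.mem_product, Finset.mem_Icc]
    exact ⟨⟨⟨h1.1, by omega⟩, ⟨h1.2, by omega⟩⟩, h⟩
  · intro v hv
    simp only [Finset.mem_filter, Finset.mem_product, Finset.mem_Icc] at hv
    have h1 : v.1 < p := by omega
    have h2 : v.2 < p := by omega
    simp only [VS, Finset.mem_filter, Finset.mem_univ, true_and]
    rw [ZMod.val_natCast_of_lt h1, ZMod.val_natCast_of_lt h2]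
    exact hv.2
  · intro v _
    ext <;> simp
  · intro v hv
    simp only [Finset.mem_filter, Finset.mem_product, Finset.mem_Icc] at hv
    have h1 : v.1 < p := by omega
    have h2 : v.2 < p := by omega
    ext
    · exact ZMod.val_natCast_of_lt h1
    · exact ZMod.val_natCast_of_lt h2

theorem cnt_zero (L : ℕ) : cnt p L 0 = 0 := by
  unfold cnt
  rw [Finset.card_eq_zero, Finset.filter_eq_empty_iff]
  rintro v _ ⟨_, h⟩
  have := (OK_pos h).1
  simp at this

theorem cnt_le (L : ℕ) (g : ZMod p) : cnt p L g ≤ (p - 1) ^ 2 := by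
  have h1 : cnt p L g ≤ (VS p L).card := by
    unfold cnt VS
    apply Finset.card_le_card
    intro v hv
    simp only [Finset.mem_filter, Finset.mem_univ, true_and] at hv ⊢
    exact hv.1
  refine h1.trans ?_
  rw [VS_card]
  refine (Finset.card_filter_le _ _).trans ?_
  rw [Finset.card_product, Nat.card_Icc, sq]
  simp

private theorem D1_ne {L : ℕ} {v : ZMod p × ZMod p} (h : OK L v.1.val v.2.val) : v.1 ≠ 0 ∧ v.2 ≠ 0 := by
  have h1 := OK_pos h
  constructor
  · intro h0; rw [h0] at h1; simp at h1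
  · intro h0; rw [h0] at h1; simp at h1

theorem cs (L : ℕ) : (VS p L).card ^ 2 ≤ (p - 1) * ∑ g : ZMod p, cnt p L g := by
  classical
  set S := VS p L with hS
  have hmem : ∀ v, v ∈ S ↔ OK L v.1.val v.2.val := by
    intro v; simp [hS, VS]
  have hm : ∀ v ∈ S, v.1 / v.2 ∈ (Finset.univ.erase (0 : ZMod p)) := by
    intro v hv
    have h := D1_ne ((hmem v).1 hv)
    simp only [Finset.mem_erase, Finset.mem_univ, and_true]
    exact div_ne_zero h.1 h.2
  have h1 : S.card = ∑ z ∈ Finset.univ.erase (0 : ZMod p), (S.filter fun v => v.1 / v.2 = z).card :=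
    Finset.card_eq_sum_card_fiberwise hm
  have hc : (Finset.univ.erase (0 : ZMod p)).card = p - 1 := by
    rw [Finset.card_erase_of_mem (Finset.mem_univ _), Finset.card_univ, ZMod.card]
  have h2 : S.card ^ 2 ≤ (p - 1) * ∑ z ∈ Finset.univ.erase (0 : ZMod p), (S.filter fun v => v.1 / v.2 = z).card ^ 2 := by
    have h := sq_sum_le_card_mul_sum_sq (s := Finset.univ.erase (0 : ZMod p))
      (f := fun z => (S.filter fun v => v.1 / v.2 = z).card)
    rw [hc] at h
    rw [h1]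
    exact_mod_cast h
  have h3 : ∑ z ∈ Finset.univ.erase (0 : ZMod p), (S.filter fun v => v.1 / v.2 = z).card ^ 2
      = ∑ v ∈ S, (S.filter fun v' => v'.1 / v'.2 = v.1 / v.2).card := by
    rw [← Finset.sum_fiberwise_of_maps_to hm]
    apply Finset.sum_congr rfl
    intro z _
    rw [Finset.sum_congr rfl (g := fun _ => (S.filter fun v => v.1 / v.2 = z).card)]
    · rw [Finset.sum_const, smul_eq_mul, sq]
    · intro v hv
      rw [(Finset.mem_filter.1 hv).2]
  have h4 : ∑ g : ZMod p, cnt p L g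
      = ∑ v ∈ S, (Finset.univ.filter fun g : ZMod p => OK L (g * v.1).val (g * v.2).val).card := by
    simp only [cnt, Finset.card_filter]
    rw [Finset.sum_comm]
    rw [hS, VS, Finset.sum_filter]
    apply Finset.sum_congr rfl
    intro v _
    by_cases h : OK L v.1.val v.2.val
    · simp [h]
    · simp [h]
  have h5 : ∀ v ∈ S, (S.filter fun v' => v'.1 / v'.2 = v.1 / v.2).card
      ≤ (Finset.univ.filter fun g : ZMod p => OK L (g * v.1).val (g * v.2).val).card := by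
    intro v hv
    have hv0 := D1_ne ((hmem v).1 hv)
    have key : ∀ v' ∈ (S.filter fun v' => v'.1 / v'.2 = v.1 / v.2), v'.1 / v.1 * v.1 = v'.1 ∧ v'.1 / v.1 * v.2 = v'.2 := by
      intro v' hv'
      rw [Finset.mem_filter] at hv'
      have h0 := D1_ne ((hmem v').1 hv'.1)
      have h := hv'.2
      rw [div_eq_div_iff h0.2 hv0.2] at h
      refine ⟨div_mul_cancel₀ _ hv0.1, ?_⟩
      rw [div_mul_eq_mul_div, div_eq_iff hv0.1, h, mul_comm]
    apply Finset.card_le_card_of_injOn (fun v' => v'.1 / v.1)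
    · intro v' hv'
      have hv'' : v' ∈ (S.filter fun v' => v'.1 / v'.2 = v.1 / v.2) := by simpa using hv'
      have hk := key v' hv''
      rw [Finset.coe_filter]
      simp only [Finset.mem_univ, true_and, Set.mem_ofPred_eq]
      rw [hk.1, hk.2]
      exact (hmem v').1 (Finset.mem_filter.1 hv'').1
    · intro a ha b hb hab
      have ha' := key a (by simpa using ha)
      have hb' := key b (by simpa using hb)
      simp only at hab
      ext
      · rw [← ha'.1, ← hb'.1, hab]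
      · rw [← ha'.2, ← hb'.2, hab]
  rw [h4]
  refine h2.trans (Nat.mul_le_mul_left _ ?_)
  rw [h3]
  exact Finset.sum_le_sum h5

end Pool.Agent.NV
end

section

/-!
# Task F1: a bilinear exponential sum with squares

`ψ = ZMod.stdAddChar` (an additive character `ZMod p → ℂ`, primitive: `ZMod.isPrimitive_stdAddChar p`), `‖ψ t‖ = 1` (`AddChar.norm_apply`).
`parseval`: for `c : ZMod p → ℂ`: `∑_t ‖∑_u c u ψ(t u)‖² = p ∑_u ‖c u‖²`: expand, `∑_t ψ(t (u - u')) = p` if `u = u'` and `0` otherwise (`AddChar.sum_mulShift` or `AddChar.sum_eq_ite`).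
`sum_sq_fibre`: for a nonnegative function `h` on `ZMod p` and `ξ ≠ 0`: `∑_a h (ξ * (a * a)) ≤ 2 ∑_t h t`, since `a ↦ ξ a²` takes every value at most twice (`a² = b²` iff `b = a` or `b = -a`, `sq_eq_sq_iff_eq_or_eq_neg`).
`gbound`: with `h t = ∑_b f b ψ(t b²)` the sum is `∑_a f a h(ξ a²)` (`(a b)² = a² b²`, `ψ(ξ (ab)²) = ψ((ξ a²) b²)`).  Cauchy-Schwarz: norm `≤ sqrt (∑ f²) sqrt (∑_a ‖h(ξ a²)‖²)`; `∑_a ‖h(ξ a²)‖² ≤ 2 ∑_t ‖h t‖²`;
`h t = ∑_u c u ψ(t u)` with `c u = ∑_{b : b² = u} f b`, `∑_u (c u)² ≤ 2 ∑_b f b²` (at most two `b` in a fibre, `(x + y)² ≤ 2 x² + 2 y²`; or `(∑_{b²=u} f b)² ≤ #fibre ∑ f b²`, `sq_sum_le_card_mul_sum_sq`).  Together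
`≤ sqrt (∑ f²) sqrt (2 · p · 2 ∑ f²) = 2 sqrt p ∑ f² ≤ 2 sqrt p ∑ f` since `0 ≤ f ≤ 1`.
(For `p = 2` fibres have one element; no assumption is needed.)
-/

set_option autoImplicit false

namespace Pool.Agent.NV

open Finset

variable {p : ℕ} [Fact p.Prime]

theorem parseval (c : ZMod p → ℂ) :
    ∑ t : ZMod p, ‖∑ u : ZMod p, c u * ZMod.stdAddChar (t * u)‖ ^ 2 = p * ∑ u : ZMod p, ‖c u‖ ^ 2 := by
  classical
  have key : ∑ t : ZMod p, (∑ u : ZMod p, c u * ZMod.stdAddChar (t * u)) *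
      (starRingEnd ℂ) (∑ v : ZMod p, c v * ZMod.stdAddChar (t * v)) =
      p * ∑ u : ZMod p, c u * (starRingEnd ℂ) (c u) := by
    have h1 : ∀ t : ZMod p, (∑ u : ZMod p, c u * ZMod.stdAddChar (t * u)) *
        (starRingEnd ℂ) (∑ v : ZMod p, c v * ZMod.stdAddChar (t * v)) =
        ∑ u : ZMod p, ∑ v : ZMod p, (c u * (starRingEnd ℂ) (c v)) *
          (ZMod.stdAddChar (t * (u - v)) : ℂ) := by
      intro t
      rw [map_sum, Finset.sum_mul_sum]
      refine Finset.sum_congr rfl fun u _ => Finset.sum_congr rfl fun v _ => ?_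
      have e1 : (starRingEnd ℂ) (c v * ZMod.stdAddChar (t * v)) =
          (starRingEnd ℂ) (c v) * (ZMod.stdAddChar (-(t * v)) : ℂ) := by
        rw [AddChar.map_neg_eq_conj]
        exact map_mul (starRingEnd ℂ) _ _
      have e2 : t * (u - v) = t * u + -(t * v) := by ring
      rw [e1, e2, AddChar.map_add_eq_mul]
      ring
    simp only [h1]
    rw [Finset.sum_comm]
    rw [Finset.mul_sum]
    refine Finset.sum_congr rfl fun u _ => ?_
    rw [Finset.sum_comm]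
    have h2 : ∀ v : ZMod p, ∑ t : ZMod p, (c u * (starRingEnd ℂ) (c v)) * (ZMod.stdAddChar (t * (u - v)) : ℂ) =
        if v = u then p * (c u * (starRingEnd ℂ) (c u)) else 0 := by
      intro v
      rw [← Finset.mul_sum, AddChar.sum_mulShift _ (ZMod.isPrimitive_stdAddChar p)]
      by_cases hv : v = u
      · rw [hv, sub_self, if_pos rfl, if_pos rfl, ZMod.card]
        push_cast
        ring
      · rw [if_neg hv, if_neg (sub_ne_zero.2 (Ne.symm hv))]
        push_cast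
        ring
    simp only [h2]
    rw [Finset.sum_ite_eq' Finset.univ u, if_pos (Finset.mem_univ _)]
  have h3 : ∀ z : ℂ, z * (starRingEnd ℂ) z = ((‖z‖ ^ 2 : ℝ) : ℂ) := by
    intro z
    rw [Complex.mul_conj, Complex.normSq_eq_norm_sq]
  simp only [h3] at key
  exact_mod_cast key

private theorem F1_card (ξ : ZMod p) (hξ : ξ ≠ 0) (t : ZMod p) [DecidableEq (ZMod p)] :
    (Finset.univ.filter fun a : ZMod p => ξ * (a * a) = t).card ≤ 2 := by
  by_cases h : ∃ a : ZMod p, ξ * (a * a) = t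
  · obtain ⟨a, ha⟩ := h
    refine (Finset.card_le_card (t := {a, -a}) fun b hb => ?_).trans Finset.card_le_two
    have hb' : ξ * (b * b) = t := (Finset.mem_filter.1 hb).2
    have h1 : b * b = a * a := mul_left_cancel₀ hξ (hb'.trans ha.symm)
    rw [Finset.mem_insert, Finset.mem_singleton]
    exact mul_self_eq_mul_self_iff.1 h1
  · have h1 : (Finset.univ.filter fun a : ZMod p => ξ * (a * a) = t) = ∅ := by
      refine Finset.filter_eq_empty_iff.2 fun a _ ha => h ⟨a, ha⟩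
    rw [h1]
    simp

theorem sum_sq_fibre (h : ZMod p → ℝ) (h0 : ∀ t, 0 ≤ h t) {ξ : ZMod p} (hξ : ξ ≠ 0) :
    ∑ a : ZMod p, h (ξ * (a * a)) ≤ 2 * ∑ t : ZMod p, h t := by
  classical
  rw [← Finset.sum_fiberwise Finset.univ (fun a : ZMod p => ξ * (a * a)) (fun a => h (ξ * (a * a))),
    Finset.mul_sum]
  refine Finset.sum_le_sum fun t _ => ?_
  calc ∑ a ∈ Finset.univ.filter (fun a : ZMod p => ξ * (a * a) = t), h (ξ * (a * a))
      = ∑ a ∈ Finset.univ.filter (fun a : ZMod p => ξ * (a * a) = t), h t :=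
        Finset.sum_congr rfl fun a ha => by rw [(Finset.mem_filter.1 ha).2]
    _ = ((Finset.univ.filter fun a : ZMod p => ξ * (a * a) = t).card : ℝ) * h t := by
        rw [Finset.sum_const, nsmul_eq_mul]
    _ ≤ 2 * h t := by
        refine mul_le_mul_of_nonneg_right ?_ (h0 t)
        exact_mod_cast F1_card ξ hξ t

theorem gbound (f : ZMod p → ℝ) (h0 : ∀ a, 0 ≤ f a) (h1 : ∀ a, f a ≤ 1) {ξ : ZMod p} (hξ : ξ ≠ 0) :
    ‖∑ a : ZMod p, ∑ b : ZMod p, ((f a * f b : ℝ) : ℂ) * ZMod.stdAddChar (ξ * (a * b * (a * b)))‖ ≤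
      2 * Real.sqrt p * ∑ a : ZMod p, f a := by
  classical
  let h : ZMod p → ℂ := fun t => ∑ b : ZMod p, (f b : ℂ) * ZMod.stdAddChar (t * (b * b))
  let c : ZMod p → ℂ := fun u => ∑ b ∈ Finset.univ.filter (fun b : ZMod p => b * b = u), (f b : ℂ)
  have hp0 : (0 : ℝ) ≤ p := Nat.cast_nonneg _
  have hf2 : 0 ≤ ∑ a : ZMod p, f a ^ 2 := Finset.sum_nonneg fun a _ => sq_nonneg _
  have hh : ∀ t, h t = ∑ u : ZMod p, c u * ZMod.stdAddChar (t * u) := by
    intro t
    show ∑ b : ZMod p, (f b : ℂ) * ZMod.stdAddChar (t * (b * b)) = _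
    rw [← Finset.sum_fiberwise Finset.univ (fun b : ZMod p => b * b)
      (fun b => (f b : ℂ) * ZMod.stdAddChar (t * (b * b)))]
    refine Finset.sum_congr rfl fun u _ => ?_
    show _ = (∑ b ∈ Finset.univ.filter (fun b : ZMod p => b * b = u), (f b : ℂ)) * _
    rw [Finset.sum_mul]
    exact Finset.sum_congr rfl fun b hb => by rw [(Finset.mem_filter.1 hb).2]
  have hc : ∑ u : ZMod p, ‖c u‖ ^ 2 ≤ 2 * ∑ b : ZMod p, f b ^ 2 := by
    rw [← Finset.sum_fiberwise Finset.univ (fun b : ZMod p => b * b) (fun b => f b ^ 2), Finset.mul_sum]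
    refine Finset.sum_le_sum fun u _ => ?_
    have e1 : ‖c u‖ = |∑ b ∈ Finset.univ.filter (fun b : ZMod p => b * b = u), f b| := by
      show ‖∑ b ∈ Finset.univ.filter (fun b : ZMod p => b * b = u), (f b : ℂ)‖ = _
      rw [← Complex.ofReal_sum, Complex.norm_real, Real.norm_eq_abs]
    rw [e1, sq_abs]
    have e2 : ((Finset.univ.filter fun b : ZMod p => b * b = u).card : ℝ) ≤ 2 := by
      have e3 := F1_card (1 : ZMod p) one_ne_zero u
      simp only [one_mul] at e3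
      exact_mod_cast e3
    calc (∑ b ∈ Finset.univ.filter (fun b : ZMod p => b * b = u), f b) ^ 2
        ≤ ((Finset.univ.filter fun b : ZMod p => b * b = u).card : ℝ) *
          ∑ b ∈ Finset.univ.filter (fun b : ZMod p => b * b = u), f b ^ 2 := sq_sum_le_card_mul_sum_sq
      _ ≤ 2 * ∑ b ∈ Finset.univ.filter (fun b : ZMod p => b * b = u), f b ^ 2 :=
          mul_le_mul_of_nonneg_right e2 (Finset.sum_nonneg fun b _ => sq_nonneg _)
  have hsum : ∑ a : ZMod p, ‖h (ξ * (a * a))‖ ^ 2 ≤ 4 * p * ∑ b : ZMod p, f b ^ 2 := by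
    have e1 := sum_sq_fibre (fun t => ‖h t‖ ^ 2) (fun t => sq_nonneg _) hξ
    have e2 : ∑ t : ZMod p, ‖h t‖ ^ 2 = p * ∑ u : ZMod p, ‖c u‖ ^ 2 := by
      simp only [hh]
      exact parseval c
    calc ∑ a : ZMod p, ‖h (ξ * (a * a))‖ ^ 2 ≤ 2 * ∑ t : ZMod p, ‖h t‖ ^ 2 := e1
      _ = 2 * (p * ∑ u : ZMod p, ‖c u‖ ^ 2) := by rw [e2]
      _ ≤ 2 * (p * (2 * ∑ b : ZMod p, f b ^ 2)) :=
          mul_le_mul_of_nonneg_left (mul_le_mul_of_nonneg_left hc hp0) (by norm_num)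
      _ = 4 * p * ∑ b : ZMod p, f b ^ 2 := by ring
  have hrew : ∑ a : ZMod p, ∑ b : ZMod p, ((f a * f b : ℝ) : ℂ) * ZMod.stdAddChar (ξ * (a * b * (a * b))) =
      ∑ a : ZMod p, (f a : ℂ) * h (ξ * (a * a)) := by
    refine Finset.sum_congr rfl fun a _ => ?_
    show _ = (f a : ℂ) * ∑ b : ZMod p, (f b : ℂ) * ZMod.stdAddChar (ξ * (a * a) * (b * b))
    rw [Finset.mul_sum]
    refine Finset.sum_congr rfl fun b _ => ?_
    have e1 : ξ * (a * b * (a * b)) = ξ * (a * a) * (b * b) := by ring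
    rw [e1]
    push_cast
    ring
  rw [hrew]
  calc ‖∑ a : ZMod p, (f a : ℂ) * h (ξ * (a * a))‖ ≤ ∑ a : ZMod p, ‖(f a : ℂ) * h (ξ * (a * a))‖ :=
        norm_sum_le _ _
    _ = ∑ a : ZMod p, f a * ‖h (ξ * (a * a))‖ := by
        refine Finset.sum_congr rfl fun a _ => ?_
        rw [norm_mul, Complex.norm_real, Real.norm_eq_abs, abs_of_nonneg (h0 a)]
    _ ≤ Real.sqrt (∑ a : ZMod p, f a ^ 2) * Real.sqrt (∑ a : ZMod p, ‖h (ξ * (a * a))‖ ^ 2) :=
        Real.sum_mul_le_sqrt_mul_sqrt _ _ _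
    _ ≤ Real.sqrt (∑ a : ZMod p, f a ^ 2) * Real.sqrt (4 * p * ∑ b : ZMod p, f b ^ 2) :=
        mul_le_mul_of_nonneg_left (Real.sqrt_le_sqrt hsum) (Real.sqrt_nonneg _)
    _ = 2 * Real.sqrt p * ∑ a : ZMod p, f a ^ 2 := by
        rw [Real.sqrt_mul (by positivity), Real.sqrt_mul (by norm_num : (0 : ℝ) ≤ 4)]
        have e4 : Real.sqrt 4 = 2 := by
          rw [show (4 : ℝ) = 2 ^ 2 by norm_num]
          exact Real.sqrt_sq (by norm_num)
        rw [e4]
        have e5 := Real.mul_self_sqrt hf2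
        calc Real.sqrt (∑ a : ZMod p, f a ^ 2) * (2 * Real.sqrt p * Real.sqrt (∑ a : ZMod p, f a ^ 2))
            = 2 * Real.sqrt p * (Real.sqrt (∑ a : ZMod p, f a ^ 2) * Real.sqrt (∑ a : ZMod p, f a ^ 2)) := by ring
          _ = 2 * Real.sqrt p * ∑ a : ZMod p, f a ^ 2 := by rw [e5]
    _ ≤ 2 * Real.sqrt p * ∑ a : ZMod p, f a := by
        refine mul_le_mul_of_nonneg_left (Finset.sum_le_sum fun a _ => ?_) (by positivity)
        have := h0 a
        have := h1 a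
        nlinarith

end Pool.Agent.NV
end

section

/-!
# Task F2: the number of solutions of `t₁ + t₂ - t₃ = y`, weighted

`ψ = ZMod.stdAddChar`, `H(ξ) = ∑_t h t ψ(ξ t)`.  Orthogonality: `∑_ξ ψ(ξ u) = p` if `u = 0`, else `0` (`AddChar.sum_mulShift`, `ZMod.isPrimitive_stdAddChar`).  So
`p * ∑_{t₁,t₂} h t₁ h t₂ h (t₁ + t₂ - y) = ∑_ξ ∑_{t₁,t₂,t₃} h t₁ h t₂ h t₃ ψ(ξ (t₁ + t₂ - t₃ - y)) = ∑_ξ H(ξ)² conj(H(ξ)) ψ(-ξ y)` (`h` is real, `conj ψ(u) = ψ(-u)`).  The term `ξ = 0` is `(∑ h)³`, the other `p - 1` terms have norm at most `B³`.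
So `p * sum ≥ (∑ h)³ - (p - 1) B³`, and `sum ≥ (∑ h)³ / p - B³` (`B ≥ 0` follows from the bound if `p ≥ 2`; take `ξ = 1`).
-/

set_option autoImplicit false

namespace Pool.Agent.NV

open Finset

variable {p : ℕ} [Fact p.Prime]

theorem three_terms (h : ZMod p → ℝ) (B : ℝ)
    (hB : ∀ ξ : ZMod p, ξ ≠ 0 → ‖∑ t : ZMod p, (h t : ℂ) * ZMod.stdAddChar (ξ * t)‖ ≤ B) (y : ZMod p) :
    (∑ t, h t) ^ 3 / p - B ^ 3 ≤ ∑ t₁ : ZMod p, ∑ t₂ : ZMod p, h t₁ * h t₂ * h (t₁ + t₂ - y) := by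
  classical
  have hpp : p.Prime := Fact.out
  have hp : (0 : ℝ) < p := by exact_mod_cast hpp.pos
  have hB0 : 0 ≤ B := le_trans (norm_nonneg _) (hB 1 one_ne_zero)
  obtain ⟨H, hH⟩ : ∃ H : ZMod p → ℂ, ∀ ξ, H ξ = ∑ t : ZMod p, (h t : ℂ) * ZMod.stdAddChar (ξ * t) :=
    ⟨_, fun _ => rfl⟩
  have hB' : ∀ ξ : ZMod p, ξ ≠ 0 → ‖H ξ‖ ≤ B := fun ξ hξ => by rw [hH]; exact hB ξ hξ
  -- one frequency
  have hone : ∀ ξ : ZMod p, H ξ * H ξ * (starRingEnd ℂ) (H ξ) * ZMod.stdAddChar (-(ξ * y)) =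
      ∑ t₁ : ZMod p, ∑ t₂ : ZMod p, ∑ t₃ : ZMod p,
        ((h t₁ : ℂ) * h t₂ * h t₃) * ZMod.stdAddChar (ξ * (t₁ + t₂ - t₃ - y)) := by
    intro ξ
    have hc : (starRingEnd ℂ) (H ξ) = ∑ t : ZMod p, (h t : ℂ) * ZMod.stdAddChar (-(ξ * t)) := by
      rw [hH, map_sum]
      refine Finset.sum_congr rfl fun t _ => ?_
      rw [map_mul, Complex.conj_ofReal, AddChar.map_neg_eq_conj]
    rw [hc, hH, Finset.sum_mul_sum, Finset.sum_mul, Finset.sum_mul]
    refine Finset.sum_congr rfl fun t₁ _ => ?_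
    rw [Finset.sum_mul, Finset.sum_mul]
    refine Finset.sum_congr rfl fun t₂ _ => ?_
    rw [Finset.mul_sum, Finset.sum_mul]
    refine Finset.sum_congr rfl fun t₃ _ => ?_
    have he : ξ * (t₁ + t₂ - t₃ - y) = ξ * t₁ + ξ * t₂ + -(ξ * t₃) + -(ξ * y) := by ring
    rw [he, AddChar.map_add_eq_mul, AddChar.map_add_eq_mul, AddChar.map_add_eq_mul]
    ring
  have key : (p : ℂ) * ((∑ t₁ : ZMod p, ∑ t₂ : ZMod p, h t₁ * h t₂ * h (t₁ + t₂ - y) : ℝ) : ℂ) =
      ∑ ξ : ZMod p, H ξ * H ξ * (starRingEnd ℂ) (H ξ) * ZMod.stdAddChar (-(ξ * y)) := by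
    symm
    rw [Finset.sum_congr rfl fun ξ _ => hone ξ, Finset.sum_comm]
    push_cast
    rw [Finset.mul_sum]
    refine Finset.sum_congr rfl fun t₁ _ => ?_
    rw [Finset.sum_comm, Finset.mul_sum]
    refine Finset.sum_congr rfl fun t₂ _ => ?_
    rw [Finset.sum_comm]
    have hin : ∀ t₃ : ZMod p, (∑ ξ : ZMod p, ((h t₁ : ℂ) * h t₂ * h t₃) *
        ZMod.stdAddChar (ξ * (t₁ + t₂ - t₃ - y))) =
        if t₃ = t₁ + t₂ - y then (p : ℂ) * (h t₁ * h t₂ * h t₃) else 0 := by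
      intro t₃
      rw [← Finset.mul_sum, AddChar.sum_mulShift _ (ZMod.isPrimitive_stdAddChar p), ZMod.card]
      by_cases ht : t₃ = t₁ + t₂ - y
      · have h0 : t₁ + t₂ - t₃ - y = 0 := by rw [ht]; ring
        rw [if_pos h0, if_pos ht]
        ring
      · have h0 : ¬ (t₁ + t₂ - t₃ - y = 0) := by
          intro h1
          apply ht
          have : t₁ + t₂ - y - t₃ = 0 := by rw [← h1]; ring
          exact (sub_eq_zero.1 this).symm
        rw [if_neg h0, if_neg ht]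
        simp
    rw [Finset.sum_congr rfl fun t₃ _ => hin t₃, Finset.sum_ite_eq']
    simp
  rw [← Finset.add_sum_erase Finset.univ
    (fun ξ : ZMod p => H ξ * H ξ * (starRingEnd ℂ) (H ξ) * ZMod.stdAddChar (-(ξ * y)))
    (Finset.mem_univ (0 : ZMod p))] at key
  obtain ⟨R, hR⟩ : ∃ R : ℂ, R = ∑ ξ ∈ Finset.univ.erase (0 : ZMod p),
      H ξ * H ξ * (starRingEnd ℂ) (H ξ) * ZMod.stdAddChar (-(ξ * y)) := ⟨_, rfl⟩
  rw [← hR] at key
  have hRn : ‖R‖ ≤ (p - 1) * B ^ 3 := by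
    rw [hR]
    refine (norm_sum_le _ _).trans ?_
    have h1 : ∀ ξ ∈ Finset.univ.erase (0 : ZMod p),
        ‖H ξ * H ξ * (starRingEnd ℂ) (H ξ) * ZMod.stdAddChar (-(ξ * y))‖ ≤ B ^ 3 := by
      intro ξ hξ
      have hb := hB' ξ (Finset.ne_of_mem_erase hξ)
      rw [norm_mul, norm_mul, norm_mul, RCLike.norm_conj, AddChar.norm_apply, mul_one]
      have h0 := norm_nonneg (H ξ)
      calc ‖H ξ‖ * ‖H ξ‖ * ‖H ξ‖ = ‖H ξ‖ ^ 3 := by ring
        _ ≤ B ^ 3 := pow_le_pow_left₀ h0 hb 3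
    refine (Finset.sum_le_card_nsmul _ _ _ h1).trans ?_
    rw [Finset.card_erase_of_mem (Finset.mem_univ _), Finset.card_univ, ZMod.card, nsmul_eq_mul,
      Nat.cast_sub hpp.one_le]
    simp
  have hH0 : H 0 = ((∑ t, h t : ℝ) : ℂ) := by
    rw [hH]
    push_cast
    refine Finset.sum_congr rfl fun t _ => ?_
    rw [zero_mul, AddChar.map_zero_eq_one, mul_one]
  rw [hH0, Complex.conj_ofReal, zero_mul, neg_zero, AddChar.map_zero_eq_one, mul_one] at key
  have hre := congrArg Complex.re key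
  rw [Complex.add_re] at hre
  have e1 : ((p : ℂ) * ((∑ t₁ : ZMod p, ∑ t₂ : ZMod p, h t₁ * h t₂ * h (t₁ + t₂ - y) : ℝ) : ℂ)).re =
      p * ∑ t₁ : ZMod p, ∑ t₂ : ZMod p, h t₁ * h t₂ * h (t₁ + t₂ - y) := by
    rw [← Complex.ofReal_natCast, ← Complex.ofReal_mul, Complex.ofReal_re]
  have e2 : (((∑ t, h t : ℝ) : ℂ) * ((∑ t, h t : ℝ) : ℂ) * ((∑ t, h t : ℝ) : ℂ)).re = (∑ t, h t) ^ 3 := by
    rw [← Complex.ofReal_mul, ← Complex.ofReal_mul, Complex.ofReal_re]
    ring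
  rw [e1, e2] at hre
  have hRre : -‖R‖ ≤ R.re := (abs_le.1 (Complex.abs_re_le_norm R)).1
  have hB3 : 0 ≤ B ^ 3 := pow_nonneg hB0 3
  obtain ⟨S, hS⟩ : ∃ S : ℝ, S = ∑ t₁ : ZMod p, ∑ t₂ : ZMod p, h t₁ * h t₂ * h (t₁ + t₂ - y) := ⟨_, rfl⟩
  rw [← hS] at hre ⊢
  have hfin : (∑ t, h t) ^ 3 - p * B ^ 3 ≤ p * S := by nlinarith
  have : (∑ t, h t) ^ 3 / p - B ^ 3 = ((∑ t, h t) ^ 3 - p * B ^ 3) / p := by
    field_simp
  rw [this, div_le_iff₀ hp]
  linarith

end Pool.Agent.NV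
end

section

/-!
# Task F3: the weighted number of representations

Let `h t = ∑_{a, b : (ab)² = t} f a f b` (write `∑ a, ∑ b, if a * b * (a * b) = t then f a * f b else 0`).  `∑_t h t = (∑ f)²`, `∑_t h t ψ(ξ t) = ∑_{a,b} f a f b ψ(ξ (ab)²)` (exchange the sums, `Finset.sum_ite_eq`), which is `≤ B = 2 sqrt p ∑ f` by `gbound`.
`three_terms` gives `(∑ f)⁶ / p - B³ ≤ ∑_{t₁,t₂} h t₁ h t₂ h (t₁ + t₂ - y)`, and the right side is the sum over all six variables: `t₁ = (a₀b₀)²`, `t₂ = (ab)²`, `t₃ = (cd)² = t₁ + t₂ - y`.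
The sum over `t : Fin 6 → ZMod p` is an iterated sum (`Fin.consEquiv`, `Fin.sum_univ_succ`-style: `Fintype.sum_equiv` with `Fin.insertNthEquiv`/`Fin.consEquiv` or `Fin.cons`; six times), or use
`Equiv` of `Fin 6 → ZMod p` with the six-fold product (`fun t => (t 0, t 1, t 2, t 3, t 4, t 5)`, inverse `![..]`) and `Fintype.sum_prod_type`.
-/

set_option autoImplicit false

namespace Pool.Agent.NV

open Finset

variable {p : ℕ} [Fact p.Prime]

/-- the weighted number of representations of `t` -/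
private noncomputable def F3h (f : ZMod p → ℝ) (t : ZMod p) : ℝ :=
  ∑ a, ∑ b, if a * b * (a * b) = t then f a * f b else 0

private theorem F3real (f g : ZMod p → ℝ) :
    ∑ t, F3h f t * g t = ∑ a, ∑ b, f a * f b * g (a * b * (a * b)) := by
  unfold F3h
  simp only [Finset.sum_mul]
  rw [Finset.sum_comm]
  refine Finset.sum_congr rfl ?_
  intro a _
  rw [Finset.sum_comm]
  refine Finset.sum_congr rfl ?_
  intro b _
  rw [Finset.sum_eq_single (a * b * (a * b))]
  · rw [if_pos rfl]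
  · intro t _ ht
    rw [if_neg (Ne.symm ht), zero_mul]
  · intro h
    exact absurd (Finset.mem_univ _) h

private theorem F3complex (f : ZMod p → ℝ) (g : ZMod p → ℂ) :
    ∑ t, (F3h f t : ℂ) * g t = ∑ a, ∑ b, ((f a * f b : ℝ) : ℂ) * g (a * b * (a * b)) := by
  unfold F3h
  simp only [Complex.ofReal_sum, Finset.sum_mul]
  rw [Finset.sum_comm]
  refine Finset.sum_congr rfl ?_
  intro a _
  rw [Finset.sum_comm]
  refine Finset.sum_congr rfl ?_
  intro b _
  rw [Finset.sum_eq_single (a * b * (a * b))]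
  · rw [if_pos rfl]
  · intro t _ ht
    rw [if_neg (Ne.symm ht), Complex.ofReal_zero, zero_mul]
  · intro h
    exact absurd (Finset.mem_univ _) h

private theorem F3cons {n : ℕ} (F : (Fin (n + 1) → ZMod p) → ℝ) :
    ∑ t, F t = ∑ x, ∑ s : Fin n → ZMod p, F (Fin.cons x s) := by
  rw [← Fintype.sum_prod_type' (f := fun (x : ZMod p) (s : Fin n → ZMod p) => F (Fin.cons x s))]
  exact (Fintype.sum_equiv (Fin.consEquiv (fun _ => ZMod p)) _ _ (fun x => rfl)).symm

private theorem F3six (F : (Fin 6 → ZMod p) → ℝ) :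
    ∑ t, F t = ∑ a, ∑ b, ∑ c, ∑ d, ∑ e, ∑ g, F ![a, b, c, d, e, g] := by
  rw [F3cons]
  refine Finset.sum_congr rfl fun a _ => ?_
  rw [F3cons]
  refine Finset.sum_congr rfl fun b _ => ?_
  rw [F3cons]
  refine Finset.sum_congr rfl fun c _ => ?_
  rw [F3cons]
  refine Finset.sum_congr rfl fun d _ => ?_
  rw [F3cons]
  refine Finset.sum_congr rfl fun e _ => ?_
  rw [F3cons]
  refine Finset.sum_congr rfl fun g _ => ?_
  rw [Fintype.sum_unique]
  congr 1

theorem wcount (f : ZMod p → ℝ) (h0 : ∀ a, 0 ≤ f a) (h1 : ∀ a, f a ≤ 1) (y : ZMod p) :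
    (∑ a, f a) ^ 6 / p - (2 * Real.sqrt p * ∑ a, f a) ^ 3 ≤
      ∑ t : Fin 6 → ZMod p, if t 0 * t 1 * (t 0 * t 1) + t 2 * t 3 * (t 2 * t 3) - t 4 * t 5 * (t 4 * t 5) = y then
        ∏ i, f (t i) else 0 := by
  have hsum : ∑ t, F3h f t = (∑ a, f a) ^ 2 := by
    have h := F3real f (fun _ => 1)
    simp only [mul_one] at h
    rw [h, sq, Finset.sum_mul_sum]
  have hB : ∀ ξ : ZMod p, ξ ≠ 0 → ‖∑ t : ZMod p, (F3h f t : ℂ) * ZMod.stdAddChar (ξ * t)‖ ≤
      2 * Real.sqrt p * ∑ a, f a := by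
    intro ξ hξ
    rw [F3complex f (fun t => ZMod.stdAddChar (ξ * t))]
    exact gbound f h0 h1 hξ
  have key := three_terms (F3h f) (2 * Real.sqrt p * ∑ a, f a) hB y
  rw [hsum, ← pow_mul] at key
  refine le_trans key (le_of_eq ?_)
  have e1 : ∑ t₁ : ZMod p, ∑ t₂ : ZMod p, F3h f t₁ * F3h f t₂ * F3h f (t₁ + t₂ - y) =
      ∑ t₁ : ZMod p, F3h f t₁ * ∑ t₂ : ZMod p, F3h f t₂ * F3h f (t₁ + t₂ - y) := by
    refine Finset.sum_congr rfl fun t₁ _ => ?_
    rw [Finset.mul_sum]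
    refine Finset.sum_congr rfl fun t₂ _ => ?_
    ring
  rw [e1, F3real f (fun t₁ => ∑ t₂ : ZMod p, F3h f t₂ * F3h f (t₁ + t₂ - y)), F3six]
  refine Finset.sum_congr rfl fun a _ => Finset.sum_congr rfl fun b _ => ?_
  rw [F3real f (fun t₂ => F3h f (a * b * (a * b) + t₂ - y)), Finset.mul_sum]
  refine Finset.sum_congr rfl fun c _ => ?_
  rw [Finset.mul_sum]
  refine Finset.sum_congr rfl fun d _ => ?_
  unfold F3h
  rw [Finset.mul_sum, Finset.mul_sum]
  refine Finset.sum_congr rfl fun e _ => ?_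
  rw [Finset.mul_sum, Finset.mul_sum]
  refine Finset.sum_congr rfl fun g _ => ?_
  have hp : ∏ i : Fin 6, f ((![a, b, c, d, e, g] : Fin 6 → ZMod p) i) = f a * f b * f c * f d * f e * f g := by
    rw [Fin.prod_univ_six]
    rfl
  rw [hp]
  change _ = if a * b * (a * b) + c * d * (c * d) - e * g * (e * g) = y then _ else 0
  by_cases hc : e * g * (e * g) = a * b * (a * b) + c * d * (c * d) - y
  · rw [if_pos hc, if_pos (by rw [hc]; ring)]
    ring
  · rw [if_neg hc, if_neg]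
    · ring
    · intro h
      apply hc
      rw [← h]
      ring

end Pool.Agent.NV
end

section

/-!
# Task G1: the number of good choices as a sum of products

`card_LP`: for `b ≠ 0` the map `v ↦ (b v.1, b v.2)` is a bijection of `ZMod p × ZMod p`; with `u = b v` the condition `LP p L a b v` is `OK (a/b u) ∧ OK u` (`a * v.1 = a / b * (b * v.1)`), so the number is `cnt p L (a / b)` (the two conditions in the other order).
`GS_card`: `GS p L y` is the set of pairs `(x, w)` with `∀ i, LP .. (w i)`; for fixed `x` the number of `w : Fin 6 → _` is `∏ i, #{v : LP .. v}` (`Fintype.card_pi`, `Fintype.piFinset`, `Fintype.card_piFinset`), so `|GS| = ∑_x ∏_i #{v // LP ..}`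
(`Finset.card_filter`, `Finset.sum_product` or `Finset.card_eq_sum_card_fiberwise`).
`GS_ge`: drop the `x` for which `x 2`, `x 3` or `x 4 + x 4` is `0`, use `card_LP` for the others (`Fin.prod_univ_succ` or `Fin.prod_univ_six`; the denominators are `1`, `1`, `1`, `(x 4 + x 4) * x 2`, `1`, `(x 4 + x 4) * x 3`; `x 0 / 1 = x 0`).
-/

set_option autoImplicit false

namespace Pool.Agent.NV

variable {p : ℕ} [Fact p.Prime]

theorem card_LP (L : ℕ) (a b : ZMod p) (hb : b ≠ 0) :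
    (Finset.univ.filter fun v : ZMod p × ZMod p => LP p L a b v).card = cnt p L (a / b) := by
  unfold cnt
  refine Finset.card_bij' (fun v _ => (b * v.1, b * v.2)) (fun u _ => (b⁻¹ * u.1, b⁻¹ * u.2)) ?_ ?_ ?_ ?_
  · intro v hv
    simp only [Finset.mem_filter, Finset.mem_univ, true_and] at hv ⊢
    unfold LP at hv
    refine ⟨hv.2, ?_⟩
    have h1 : a / b * (b * v.1) = a * v.1 := by field_simp
    have h2 : a / b * (b * v.2) = a * v.2 := by field_simp
    rw [h1, h2]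
    exact hv.1
  · intro u hu
    simp only [Finset.mem_filter, Finset.mem_univ, true_and] at hu ⊢
    unfold LP
    have h1 : a * (b⁻¹ * u.1) = a / b * u.1 := by field_simp
    have h2 : a * (b⁻¹ * u.2) = a / b * u.2 := by field_simp
    have h3 : b * (b⁻¹ * u.1) = u.1 := by field_simp
    have h4 : b * (b⁻¹ * u.2) = u.2 := by field_simp
    simp only [h1, h2, h3, h4]
    exact ⟨hu.2, hu.1⟩
  · intro v _
    have h3 : b⁻¹ * (b * v.1) = v.1 := by field_simp
    have h4 : b⁻¹ * (b * v.2) = v.2 := by field_simp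
    simp only [h3, h4, Prod.mk.eta]
  · intro v _
    have h3 : b * (b⁻¹ * v.1) = v.1 := by field_simp
    have h4 : b * (b⁻¹ * v.2) = v.2 := by field_simp
    simp only [h3, h4, Prod.mk.eta]

theorem GS_card (L : ℕ) (y : ZMod p) : (GS p L y).card = ∑ x : Fin 5 → ZMod p, ∏ i : Fin 6,
    (Finset.univ.filter fun v : ZMod p × ZMod p => LP p L (nd p y x i).1 (nd p y x i).2 v).card := by
  classical
  have key : ∀ x : Fin 5 → ZMod p, ∏ i : Fin 6,
      (Finset.univ.filter fun v : ZMod p × ZMod p => LP p L (nd p y x i).1 (nd p y x i).2 v).card =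
      (Finset.univ.filter fun w : Fin 6 → ZMod p × ZMod p => Good p L y x w).card := by
    intro x
    rw [← Fintype.card_piFinset]
    congr 1
    ext w
    simp only [Fintype.mem_piFinset, Finset.mem_filter, Finset.mem_univ, true_and]
    rfl
  rw [Finset.sum_congr rfl (fun x _ => key x)]
  unfold GS
  rw [Finset.card_filter]
  rw [← Finset.univ_product_univ, Finset.sum_product]
  refine Finset.sum_congr rfl fun x _ => ?_
  rw [Finset.card_filter]

/-- The six multipliers. -/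
def mlt (p : ℕ) [Fact p.Prime] (y : ZMod p) (x : Fin 5 → ZMod p) : Fin 6 → ZMod p :=
  ![x 0, x 1, x 2, n1 p y x / ((x 4 + x 4) * x 2), x 3, n2 p y x / ((x 4 + x 4) * x 3)]

theorem GS_ge (L : ℕ) (y : ZMod p) :
    ∑ x ∈ (Finset.univ.filter fun x : Fin 5 → ZMod p => x 2 ≠ 0 ∧ x 3 ≠ 0 ∧ x 4 + x 4 ≠ 0),
      ∏ i : Fin 6, cnt p L (mlt p y x i) ≤ (GS p L y).card := by
  rw [GS_card]
  have h1 : ∑ x ∈ (Finset.univ.filter fun x : Fin 5 → ZMod p => x 2 ≠ 0 ∧ x 3 ≠ 0 ∧ x 4 + x 4 ≠ 0),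
      ∏ i : Fin 6, cnt p L (mlt p y x i) =
      ∑ x ∈ (Finset.univ.filter fun x : Fin 5 → ZMod p => x 2 ≠ 0 ∧ x 3 ≠ 0 ∧ x 4 + x 4 ≠ 0),
      ∏ i : Fin 6, (Finset.univ.filter fun v : ZMod p × ZMod p => LP p L (nd p y x i).1 (nd p y x i).2 v).card := by
    refine Finset.sum_congr rfl fun x hx => ?_
    simp only [Finset.mem_filter, Finset.mem_univ, true_and] at hx
    obtain ⟨h2, h3, h4⟩ := hx
    refine Finset.prod_congr rfl fun i _ => ?_
    have hne : (nd p y x i).2 ≠ 0 := by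
      fin_cases i
      · exact one_ne_zero
      · exact one_ne_zero
      · exact one_ne_zero
      · exact mul_ne_zero h4 h2
      · exact one_ne_zero
      · exact mul_ne_zero h4 h3
    rw [card_LP L _ _ hne]
    congr 1
    fin_cases i
    · exact (div_one (x 0)).symm
    · exact (div_one (x 1)).symm
    · exact (div_one (x 2)).symm
    · rfl
    · exact (div_one (x 3)).symm
    · rfl
  rw [h1]
  exact Finset.sum_le_sum_of_subset (Finset.subset_univ _)

end Pool.Agent.NV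
end

section

/-!
# Task G2: from solutions of the equation to choices

Here `p ≠ 2`.  `Tup` are the `t : Fin 6 → ZMod p` with all `t i ≠ 0`, `(t₀t₁)² + (t₂t₃)² - (t₄t₅)² = y` and `(t₀t₁)² ≠ y`.  Map `t` to `x = (t 0, t 1, t 2, t 4, m)`, `m = t₂t₃ - t₄t₅`.  Put `λ = y - (t₀t₁)² ≠ 0`, `X = t₂t₃`, `Z = t₄t₅`: `X² - Z² = λ`, so
`m = X - Z ≠ 0` and `X + Z = λ/m`, `n1 = m² + λ = m (m + X + Z) = 2 m X`, `n2 = λ - m² = 2 m Z`; so `n1 / ((m + m) t₂) = X / t₂ = t₃`, `n2 / ((m + m) t₄) = Z / t₄ = t₅` (`2 ≠ 0` in `ZMod p`): `mlt p y x = t` (`field_simp`, `linear_combination`).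
In particular the map is injective, `x 2`, `x 3`, `x 4 + x 4` are not `0`.  `Finset.sum_le_sum_of_injOn` or: `∑_{t ∈ Tup} ∏ cnt (t i) = ∑_{x ∈ image} ∏ cnt (mlt x i) ≤ ∑_{x ∈ filter}` (`Finset.sum_image`, `Finset.sum_le_sum_of_subset`).
`deg_card`: the tuples with all `t i ≠ 0`, `(t₀t₁)² + (t₂t₃)² - (t₄t₅)² = y` and `(t₀t₁)² = y` satisfy `(t₂t₃)² = (t₄t₅)²`.  Given `t₀` there are at most two `t₁` (`(t₀t₁)² = y`, `t₀ ≠ 0`), given `t₂, t₃, t₄` at most two `t₅`: at most `2 (p-1) · 2 (p-1)³` tuples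
(fibres of the map to `(t₀, t₂, t₃, t₄)` have at most `4` elements: `Finset.card_le_mul_card_image`).
-/

set_option autoImplicit false

namespace Pool.Agent.NV

variable {p : ℕ} [Fact p.Prime]

/-- The equation for six numbers. -/
def Eq6 (y : ZMod p) (t : Fin 6 → ZMod p) : Prop :=
  t 0 * t 1 * (t 0 * t 1) + t 2 * t 3 * (t 2 * t 3) - t 4 * t 5 * (t 4 * t 5) = y

instance (y : ZMod p) (t : Fin 6 → ZMod p) : Decidable (Eq6 y t) := by unfold Eq6; infer_instance

private theorem G2_two (hp2 : p ≠ 2) : (2 : ZMod p) ≠ 0 := by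
  intro h
  have h1 : ((2 : ℕ) : ZMod p) = 0 := by exact_mod_cast h
  rw [ZMod.natCast_eq_zero_iff] at h1
  exact hp2 ((Nat.prime_dvd_prime_iff_eq (Fact.out : p.Prime) Nat.prime_two).1 h1)

/-- The map from six numbers to choices. -/
private def G2_map (t : Fin 6 → ZMod p) : Fin 5 → ZMod p :=
  ![t 0, t 1, t 2, t 4, t 2 * t 3 - t 4 * t 5]

private theorem G2_m (y : ZMod p) (t : Fin 6 → ZMod p) (h : Eq6 y t)
    (hne : t 0 * t 1 * (t 0 * t 1) ≠ y) : t 2 * t 3 - t 4 * t 5 ≠ 0 := by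
  intro hm
  apply hne
  unfold Eq6 at h
  have h2 : t 2 * t 3 = t 4 * t 5 := sub_eq_zero.1 hm
  rw [h2] at h
  rw [← h]
  ring

private theorem G2_mlt (hp2 : p ≠ 2) (y : ZMod p) (t : Fin 6 → ZMod p) (h0 : ∀ i, t i ≠ 0) (h : Eq6 y t)
    (hne : t 0 * t 1 * (t 0 * t 1) ≠ y) : mlt p y (G2_map t) = t := by
  have hm := G2_m y t h hne
  have h2 := G2_two hp2
  have hmm : t 2 * t 3 - t 4 * t 5 + (t 2 * t 3 - t 4 * t 5) ≠ 0 := by
    rw [← two_mul]; exact mul_ne_zero h2 hm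
  unfold Eq6 at h
  funext i
  fin_cases i
  · rfl
  · rfl
  · rfl
  · show ((t 2 * t 3 - t 4 * t 5) * (t 2 * t 3 - t 4 * t 5) + (y - t 0 * t 1 * (t 0 * t 1))) /
      ((t 2 * t 3 - t 4 * t 5 + (t 2 * t 3 - t 4 * t 5)) * t 2) = t 3
    rw [div_eq_iff (mul_ne_zero hmm (h0 2))]
    rw [← h]
    ring
  · rfl
  · show ((y - t 0 * t 1 * (t 0 * t 1)) - (t 2 * t 3 - t 4 * t 5) * (t 2 * t 3 - t 4 * t 5)) /
      ((t 2 * t 3 - t 4 * t 5 + (t 2 * t 3 - t 4 * t 5)) * t 4) = t 5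
    rw [div_eq_iff (mul_ne_zero hmm (h0 4))]
    rw [← h]
    ring

theorem tup_le (hp2 : p ≠ 2) (L : ℕ) (y : ZMod p) :
    ∑ t ∈ (Finset.univ.filter fun t : Fin 6 → ZMod p => (∀ i, t i ≠ 0) ∧ Eq6 y t ∧ t 0 * t 1 * (t 0 * t 1) ≠ y),
      ∏ i : Fin 6, cnt p L (t i) ≤
    ∑ x ∈ (Finset.univ.filter fun x : Fin 5 → ZMod p => x 2 ≠ 0 ∧ x 3 ≠ 0 ∧ x 4 + x 4 ≠ 0),
      ∏ i : Fin 6, cnt p L (mlt p y x i) := by
  classical
  have hinj : Set.InjOn (G2_map (p := p)) (↑(Finset.univ.filter fun t : Fin 6 → ZMod p =>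
      (∀ i, t i ≠ 0) ∧ Eq6 y t ∧ t 0 * t 1 * (t 0 * t 1) ≠ y) : Set (Fin 6 → ZMod p)) := by
    intro t ht s hs hts
    simp only [Finset.coe_filter, Finset.mem_univ, true_and, Set.mem_setOf_eq] at ht hs
    rw [← G2_mlt hp2 y t ht.1 ht.2.1 ht.2.2, ← G2_mlt hp2 y s hs.1 hs.2.1 hs.2.2, hts]
  have h1 : ∑ t ∈ (Finset.univ.filter fun t : Fin 6 → ZMod p => (∀ i, t i ≠ 0) ∧ Eq6 y t ∧ t 0 * t 1 * (t 0 * t 1) ≠ y),
      ∏ i : Fin 6, cnt p L (t i) =
      ∑ x ∈ ((Finset.univ.filter fun t : Fin 6 → ZMod p => (∀ i, t i ≠ 0) ∧ Eq6 y t ∧ t 0 * t 1 * (t 0 * t 1) ≠ y).image G2_map),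
      ∏ i : Fin 6, cnt p L (mlt p y x i) := by
    rw [Finset.sum_image hinj]
    refine Finset.sum_congr rfl fun t ht => ?_
    simp only [Finset.mem_filter, Finset.mem_univ, true_and] at ht
    rw [G2_mlt hp2 y t ht.1 ht.2.1 ht.2.2]
  rw [h1]
  refine Finset.sum_le_sum_of_subset ?_
  intro x hx
  rw [Finset.mem_image] at hx
  obtain ⟨t, ht, rfl⟩ := hx
  simp only [Finset.mem_filter, Finset.mem_univ, true_and] at ht ⊢
  refine ⟨ht.1 2, ht.1 4, ?_⟩
  show t 2 * t 3 - t 4 * t 5 + (t 2 * t 3 - t 4 * t 5) ≠ 0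
  rw [← two_mul]
  exact mul_ne_zero (G2_two hp2) (G2_m y t ht.2.1 ht.2.2)

theorem deg_card (y : ZMod p) :
    (Finset.univ.filter fun t : Fin 6 → ZMod p => (∀ i, t i ≠ 0) ∧ Eq6 y t ∧ t 0 * t 1 * (t 0 * t 1) = y).card ≤
      4 * (p - 1) ^ 4 := by
  classical
  set D := Finset.univ.filter fun t : Fin 6 → ZMod p => (∀ i, t i ≠ 0) ∧ Eq6 y t ∧ t 0 * t 1 * (t 0 * t 1) = y with hD
  let G : (Fin 6 → ZMod p) → (Fin 4 → ZMod p) := fun t => ![t 0, t 2, t 3, t 4]
  have hfib : ∀ a ∈ D.image G, (D.filter fun t => G t = a).card ≤ 4 := by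
    intro a ha
    rw [Finset.mem_image] at ha
    obtain ⟨s, hs, rfl⟩ := ha
    rw [hD] at hs
    simp only [Finset.mem_filter, Finset.mem_univ, true_and] at hs
    obtain ⟨hs0, hsE, hsy⟩ := hs
    have hsub : (D.filter fun t => G t = G s) ⊆
        (({s 1, -s 1} : Finset (ZMod p)) ×ˢ ({s 5, -s 5} : Finset (ZMod p))).image
          (fun q => (![s 0, q.1, s 2, s 3, s 4, q.2] : Fin 6 → ZMod p)) := by
      intro t ht
      rw [hD] at ht
      simp only [Finset.mem_filter, Finset.mem_univ, true_and] at ht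
      obtain ⟨⟨ht0, htE, hty⟩, hG⟩ := ht
      have e0 : t 0 = s 0 := congrFun hG 0
      have e2 : t 2 = s 2 := congrFun hG 1
      have e3 : t 3 = s 3 := congrFun hG 2
      have e4 : t 4 = s 4 := congrFun hG 3
      have q1 : t 1 = s 1 ∨ t 1 = -s 1 := by
        have : (s 0 * s 0) * ((t 1 - s 1) * (t 1 + s 1)) = 0 := by
          rw [e0] at hty
          linear_combination hty - hsy
        rcases mul_eq_zero.1 this with h | h
        · exact absurd h (mul_ne_zero (hs0 0) (hs0 0))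
        · rcases mul_eq_zero.1 h with h | h
          · exact Or.inl (sub_eq_zero.1 h)
          · exact Or.inr (eq_neg_of_add_eq_zero_left h)
      have q5 : t 5 = s 5 ∨ t 5 = -s 5 := by
        unfold Eq6 at htE hsE
        have : (s 4 * s 4) * ((t 5 - s 5) * (t 5 + s 5)) = 0 := by
          rw [hty, e2, e3, e4] at htE
          rw [hsy] at hsE
          linear_combination hsE - htE
        rcases mul_eq_zero.1 this with h | h
        · exact absurd h (mul_ne_zero (hs0 4) (hs0 4))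
        · rcases mul_eq_zero.1 h with h | h
          · exact Or.inl (sub_eq_zero.1 h)
          · exact Or.inr (eq_neg_of_add_eq_zero_left h)
      rw [Finset.mem_image]
      refine ⟨(t 1, t 5), ?_, ?_⟩
      · rw [Finset.mem_product]
        refine ⟨?_, ?_⟩
        · simp only [Finset.mem_insert, Finset.mem_singleton]
          exact q1
        · simp only [Finset.mem_insert, Finset.mem_singleton]
          exact q5
      · funext i
        fin_cases i
        · exact e0.symm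
        · rfl
        · exact e2.symm
        · exact e3.symm
        · exact e4.symm
        · rfl
    refine (Finset.card_le_card hsub).trans (Finset.card_image_le.trans ?_)
    rw [Finset.card_product]
    exact Nat.mul_le_mul Finset.card_le_two Finset.card_le_two
  have himg : (D.image G).card ≤ (p - 1) ^ 4 := by
    have hsub : D.image G ⊆ Fintype.piFinset fun _ : Fin 4 => (Finset.univ.erase (0 : ZMod p)) := by
      intro a ha
      rw [Finset.mem_image] at ha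
      obtain ⟨s, hs, rfl⟩ := ha
      rw [hD] at hs
      simp only [Finset.mem_filter, Finset.mem_univ, true_and] at hs
      obtain ⟨hs0, _, _⟩ := hs
      rw [Fintype.mem_piFinset]
      intro i
      rw [Finset.mem_erase]
      refine ⟨?_, Finset.mem_univ _⟩
      fin_cases i
      · exact hs0 0
      · exact hs0 2
      · exact hs0 3
      · exact hs0 4
    refine (Finset.card_le_card hsub).trans ?_
    rw [Fintype.card_piFinset]
    rw [Finset.prod_const, Finset.card_erase_of_mem (Finset.mem_univ _), Finset.card_univ, ZMod.card]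
    rw [Finset.card_univ, Fintype.card_fin]
  exact (Finset.card_le_mul_card_image D 4 hfib).trans (Nat.mul_le_mul_left 4 himg)

end Pool.Agent.NV
end

section

/-!
# Task G3: the lower bound for the number of good choices

Let `N = p - 1`, `f g = cnt p L g / N²`: `0 ≤ f ≤ 1` (`cnt_le`, `D1`), `f 0 = 0` (`cnt_zero`), `F = ∑ f`.  `N ≥ 2`.
`wcount` (`F3`): `F⁶/p - (2 sqrt p F)³ ≤ ∑_{t : Eq6 y t} ∏ f (t i)`; the tuples with some `t i = 0` contribute `0`; the others are those of `tup_le` and those of `deg_card`, which contribute at most `4 N⁴` (`f ≤ 1`, `Finset.prod_le_one`).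
`∏ f (t i) = (∏ cnt (t i)) / N¹²`.  With `tup_le` and `GS_ge`: `|GS| ≥ N¹² (F⁶/p - 8 (sqrt p)³ F³ - 4 N⁴)`.
The hypothesis: `32 (sqrt p)⁵ ≤ F³`.  So `8 (sqrt p)³ F³ = 8 (sqrt p)⁵ F³ / p ≤ F⁶/(4 p)`, and `F⁶ ≥ 1024 p⁵`, so `4 N⁴ ≤ 4 p⁴ ≤ F⁶/(256 p)`.  The sum is `≥ F⁶/(2 p)`.
-/

set_option autoImplicit false

namespace Pool.Agent.NV

variable {p : ℕ} [Fact p.Prime]

theorem good_ge (hp2 : p ≠ 2) (L : ℕ) (y : ZMod p)
    (hF : 32 * Real.sqrt p ^ 5 ≤ (∑ g : ZMod p, (cnt p L g : ℝ) / ((p : ℝ) - 1) ^ 2) ^ 3) :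
    ((p : ℝ) - 1) ^ 12 * ((∑ g : ZMod p, (cnt p L g : ℝ) / ((p : ℝ) - 1) ^ 2) ^ 6 / (2 * p)) ≤ (GS p L y).card := by
  have hp : 2 ≤ p := (Fact.out : p.Prime).two_le
  have hpR : (2 : ℝ) ≤ p := by exact_mod_cast hp
  have hN : 0 < (p : ℝ) - 1 := by linarith
  have hNc : ((p - 1 : ℕ) : ℝ) = (p : ℝ) - 1 := by
    rw [Nat.cast_sub (by omega)]
    simp
  set N : ℝ := (p : ℝ) - 1 with hNd
  set f : ZMod p → ℝ := fun g => (cnt p L g : ℝ) / N ^ 2 with hf
  have f0 : ∀ a, 0 ≤ f a := fun a => by positivity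
  have f1 : ∀ a, f a ≤ 1 := by
    intro a
    rw [hf]
    simp only
    rw [div_le_one (by positivity), ← hNc]
    exact_mod_cast cnt_le L a
  have fz : f 0 = 0 := by
    rw [hf]
    simp only [cnt_zero, Nat.cast_zero, zero_div]
  change N ^ 12 * ((∑ g : ZMod p, f g) ^ 6 / (2 * p)) ≤ _
  change 32 * Real.sqrt p ^ 5 ≤ (∑ g : ZMod p, f g) ^ 3 at hF
  have hw := wcount f f0 f1 y
  set F : ℝ := ∑ g : ZMod p, f g with hFd
  have hprod : ∀ t : Fin 6 → ZMod p, ∏ i, f (t i) = ((∏ i : Fin 6, cnt p L (t i) : ℕ) : ℝ) / N ^ 12 := by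
    intro t
    rw [hf]
    simp only
    rw [Finset.prod_div_distrib, Finset.prod_const, Finset.card_univ, Fintype.card_fin, ← pow_mul,
      Nat.cast_prod]
  have hsplit : (∑ t : Fin 6 → ZMod p,
      if t 0 * t 1 * (t 0 * t 1) + t 2 * t 3 * (t 2 * t 3) - t 4 * t 5 * (t 4 * t 5) = y then
        ∏ i, f (t i) else 0) ≤
      (∑ t ∈ (Finset.univ.filter fun t : Fin 6 → ZMod p =>
        (∀ i, t i ≠ 0) ∧ Eq6 y t ∧ t 0 * t 1 * (t 0 * t 1) ≠ y), ∏ i, f (t i)) +
      ∑ t ∈ (Finset.univ.filter fun t : Fin 6 → ZMod p =>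
        (∀ i, t i ≠ 0) ∧ Eq6 y t ∧ t 0 * t 1 * (t 0 * t 1) = y), ∏ i, f (t i) := by
    rw [Finset.sum_filter, Finset.sum_filter, ← Finset.sum_add_distrib]
    refine Finset.sum_le_sum fun t _ => ?_
    have hpos : 0 ≤ ∏ i, f (t i) := Finset.prod_nonneg fun i _ => f0 _
    by_cases hE : t 0 * t 1 * (t 0 * t 1) + t 2 * t 3 * (t 2 * t 3) - t 4 * t 5 * (t 4 * t 5) = y
    · rw [if_pos hE]
      by_cases hz : ∀ i, t i ≠ 0
      · by_cases hy : t 0 * t 1 * (t 0 * t 1) = y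
        · rw [if_neg (fun h => h.2.2 hy), if_pos ⟨hz, hE, hy⟩, zero_add]
        · rw [if_pos ⟨hz, hE, hy⟩, if_neg (fun h => hy h.2.2), add_zero]
      · rw [if_neg (fun h => hz h.1), if_neg (fun h => hz h.1), add_zero]
        push Not at hz
        obtain ⟨i, hi⟩ := hz
        refine le_of_eq (Finset.prod_eq_zero (Finset.mem_univ i) ?_)
        rw [hi, fz]
    · rw [if_neg hE]
      split_ifs <;> linarith
  have hA : (∑ t ∈ (Finset.univ.filter fun t : Fin 6 → ZMod p =>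
        (∀ i, t i ≠ 0) ∧ Eq6 y t ∧ t 0 * t 1 * (t 0 * t 1) ≠ y), ∏ i, f (t i)) ≤
      ((GS p L y).card : ℝ) / N ^ 12 := by
    simp only [hprod]
    rw [← Finset.sum_div, ← Nat.cast_sum]
    refine div_le_div_of_nonneg_right ?_ (by positivity)
    exact_mod_cast (tup_le hp2 L y).trans (GS_ge L y)
  have hB : (∑ t ∈ (Finset.univ.filter fun t : Fin 6 → ZMod p =>
        (∀ i, t i ≠ 0) ∧ Eq6 y t ∧ t 0 * t 1 * (t 0 * t 1) = y), ∏ i, f (t i)) ≤ 4 * N ^ 4 := by
    have h1 : (∑ t ∈ (Finset.univ.filter fun t : Fin 6 → ZMod p =>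
        (∀ i, t i ≠ 0) ∧ Eq6 y t ∧ t 0 * t 1 * (t 0 * t 1) = y), ∏ i, f (t i)) ≤
        (Finset.univ.filter fun t : Fin 6 → ZMod p =>
          (∀ i, t i ≠ 0) ∧ Eq6 y t ∧ t 0 * t 1 * (t 0 * t 1) = y).card • (1 : ℝ) :=
      Finset.sum_le_card_nsmul _ _ _ fun t _ => Finset.prod_le_one (fun i _ => f0 _) fun i _ => f1 _
    refine h1.trans ?_
    rw [nsmul_eq_mul, mul_one, ← hNc]
    exact_mod_cast deg_card y
  set s : ℝ := Real.sqrt p with hs
  have hs2 : s ^ 2 = p := Real.sq_sqrt (by linarith)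
  have hs0 : 0 < s := Real.sqrt_pos.2 (by linarith)
  have hkey : F ^ 6 / (2 * p) ≤ F ^ 6 / p - (2 * s * F) ^ 3 - 4 * N ^ 4 := by
    have hNp : N ^ 4 ≤ s ^ 8 := by
      have h1 : s ^ 8 = (p : ℝ) ^ 4 := by rw [← hs2]; ring
      rw [h1]
      exact pow_le_pow_left₀ hN.le (by linarith) 4
    have hG : 0 ≤ F ^ 3 - 32 * s ^ 5 := by linarith
    have h5 : 0 < s ^ 5 := by positivity
    have h6 : 0 < s ^ 10 := by positivity
    have e1 : F ^ 6 / p - F ^ 6 / (2 * p) = F ^ 6 / (2 * s ^ 2) := by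
      rw [hs2]
      field_simp
      ring
    have h7 : (2 * s * F) ^ 3 + 4 * N ^ 4 ≤ F ^ 6 / (2 * s ^ 2) := by
      rw [le_div_iff₀ (by positivity)]
      have h8 : 4 * N ^ 4 * (2 * s ^ 2) ≤ 8 * s ^ 10 := by
        have := mul_le_mul_of_nonneg_right hNp (by positivity : 0 ≤ 8 * s ^ 2)
        nlinarith [this]
      have h9 : (F ^ 3 - 32 * s ^ 5) * (F ^ 3 - 32 * s ^ 5) ≥ 0 := mul_nonneg hG hG
      have h10 : (F ^ 3 - 32 * s ^ 5) * s ^ 5 ≥ 0 := mul_nonneg hG h5.le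
      nlinarith [h8, h9, h10, h6]
    linarith
  have hfin : F ^ 6 / (2 * p) ≤ ((GS p L y).card : ℝ) / N ^ 12 := by linarith
  rw [le_div_iff₀ (by positivity)] at hfin
  linarith

end Pool.Agent.NV
end
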