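import Pool.Agent.Lib.MP_55cac8_lc.Mg.G002

section

/-!
# Task C4: the sum over a cut

`cut`: `S_T = ∑_{q=1}^T ∑_{Q=T+1}^{(A+1)T} gw A Q q * mu Q q ^ ex A ≥ 1/2` for `T ≥ 1`.  Let `B` be large and `S'_T = ∑_{q=1}^T ∑_{Q=T+1}^B (same terms)`; the terms with `Q > (A+1) T ≥ (A+1) q` are `0` (`gw_zero_of_lt`), so `S'_T = S_T` if `(A+1) T ≤ B`.
Prove `1/2 ≤ S'_T` by induction on `T` for all `T ≥ 1`, `(A+1) T ≤ B` (`B` fixed).
* `T = 1`: `S_1 = ∑_{a=1}^A exp (-θ a) mu (a+1) 1 ^ s` (put `Q = a + 1`, `gw_root`) `≥ mu 1 1 ^ s` by `children` (`C1`) with `q = q' = 1` (`a * 1 + 1 = a + 1`), and `mu 1 1 = 1/2`, `(1/2) ^ s ≥ 1/2` as `s = ex A ≤ 1` (`A > 2`).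
* `T → T + 1` (`T ≥ 1`): `S'_{T+1} = S'_T - ∑_{q=1}^T (term of (T+1, q)) + ∑_{Q=T+2}^B (term of (Q, T+1))`.  The map `(a, q') ↦ a (T+1) + q'` from `[1, A] × [1, T]` to `[T+2, B]` (`B ≥ (A+1)(T+1)`) is injective (`q' < T+1`: quotient and
  remainder), the terms are nonnegative (`gw_nonneg`, `mu ≥ 0`), so the last sum is at least
  `∑_{q'=1}^T ∑_{a=1}^A exp (-θ a) gw A (T+1) q' * mu (a (T+1) + q') (T+1) ^ s ≥ ∑_{q'=1}^T gw A (T+1) q' * mu (T+1) q' ^ s` (`gw_child` with `q = T+1`, then `children`).  So `S'_{T+1} ≥ S'_T`.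
-/

set_option autoImplicit false

namespace Pool.Agent.NV

private theorem term_nonneg (A Q q : ℕ) : 0 ≤ gw A Q q * mu Q q ^ ex A := by
  apply mul_nonneg (gw_nonneg A Q q)
  apply Real.rpow_nonneg
  unfold mu
  positivity

private theorem ex_le_one {A : ℕ} (hA : 14 ≤ A) : ex A ≤ 1 := by
  have h : (14 : ℝ) ≤ (A : ℝ) := by exact_mod_cast hA
  have h2 : (0 : ℝ) ≤ 6 / ((A : ℝ) - 2) := by
    apply div_nonneg (by norm_num)
    linarith
  unfold ex
  linarith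

private theorem cut_one {A B : ℕ} (hA : 14 ≤ A) (hB : A + 1 ≤ B) :
    1 / 2 ≤ ∑ Q ∈ Finset.Icc 2 B, gw A Q 1 * mu Q 1 ^ ex A := by
  have h1 := children (A := A) (q := 1) (q' := 1) hA le_rfl le_rfl
  have h2 : ∑ a ∈ Finset.Icc 1 A, Real.exp (-tht A * (a : ℝ)) * mu (a * 1 + 1) 1 ^ ex A
      = ∑ Q ∈ (Finset.Icc 1 A).image (fun a => a + 1), gw A Q 1 * mu Q 1 ^ ex A := by
    rw [Finset.sum_image (by intro x _ y _ h; exact Nat.succ_injective h)]
    apply Finset.sum_congr rfl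
    intro a ha
    rw [Finset.mem_Icc] at ha
    rw [gw_root ha.1 ha.2, mul_one]
  have h3 : ∑ Q ∈ (Finset.Icc 1 A).image (fun a => a + 1), gw A Q 1 * mu Q 1 ^ ex A
      ≤ ∑ Q ∈ Finset.Icc 2 B, gw A Q 1 * mu Q 1 ^ ex A := by
    apply Finset.sum_le_sum_of_subset_of_nonneg
    · intro Q hQ
      rw [Finset.mem_image] at hQ
      obtain ⟨a, ha, rfl⟩ := hQ
      rw [Finset.mem_Icc] at ha ⊢
      omega
    · intro Q _ _
      exact term_nonneg A Q 1
  have h4 : mu 1 1 = 1 / 2 := by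
    unfold mu
    norm_num
  have h5 : (1 / 2 : ℝ) ≤ mu 1 1 ^ ex A := by
    rw [h4]
    calc (1 / 2 : ℝ) = (1 / 2 : ℝ) ^ (1 : ℝ) := by rw [Real.rpow_one]
      _ ≤ (1 / 2 : ℝ) ^ ex A := by
          apply Real.rpow_le_rpow_of_exponent_ge (by norm_num) (by norm_num) (ex_le_one hA)
  linarith [h1, h2, h3, h5]

private theorem cut_step {A B T : ℕ} (hA : 14 ≤ A) (hT : 1 ≤ T) (hB : (A + 1) * (T + 1) ≤ B) :
    ∑ q ∈ Finset.Icc 1 T, gw A (T + 1) q * mu (T + 1) q ^ ex A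
      ≤ ∑ Q ∈ Finset.Icc (T + 2) B, gw A Q (T + 1) * mu Q (T + 1) ^ ex A := by
  have h1 : ∀ q ∈ Finset.Icc 1 T, gw A (T + 1) q * mu (T + 1) q ^ ex A
      ≤ ∑ a ∈ Finset.Icc 1 A, gw A (a * (T + 1) + q) (T + 1) * mu (a * (T + 1) + q) (T + 1) ^ ex A := by
    intro q hq
    rw [Finset.mem_Icc] at hq
    have h2 := children (A := A) (q := T + 1) (q' := q) hA hq.1 (by omega)
    have h3 := mul_le_mul_of_nonneg_left h2 (gw_nonneg A (T + 1) q)
    refine h3.trans (le_of_eq ?_)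
    rw [Finset.mul_sum]
    apply Finset.sum_congr rfl
    intro a ha
    rw [Finset.mem_Icc] at ha
    rw [gw_child (by omega) (by omega) ha.1 ha.2]
    ring
  refine (Finset.sum_le_sum h1).trans ?_
  rw [← Finset.sum_product' (Finset.Icc 1 T) (Finset.Icc 1 A)
    (fun q a => gw A (a * (T + 1) + q) (T + 1) * mu (a * (T + 1) + q) (T + 1) ^ ex A)]
  have hinj : Set.InjOn (fun p : ℕ × ℕ => p.2 * (T + 1) + p.1)
      (↑(Finset.Icc 1 T ×ˢ Finset.Icc 1 A) : Set (ℕ × ℕ)) := by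
    rintro ⟨q, a⟩ h ⟨q', a'⟩ h' he
    rw [Finset.mem_coe, Finset.mem_product, Finset.mem_Icc, Finset.mem_Icc] at h h'
    dsimp only at h h' he
    have e1 : (a * (T + 1) + q) / (T + 1) = a := by
      rw [Nat.add_comm, Nat.add_mul_div_right _ _ (Nat.succ_pos T), Nat.div_eq_of_lt (by omega), Nat.zero_add]
    have e2 : (a' * (T + 1) + q') / (T + 1) = a' := by
      rw [Nat.add_comm, Nat.add_mul_div_right _ _ (Nat.succ_pos T), Nat.div_eq_of_lt (by omega), Nat.zero_add]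
    have e3 : a = a' := by rw [← e1, he, e2]
    subst e3
    have e4 : q = q' := by omega
    rw [e4]
  rw [← Finset.sum_image (f := fun Q => gw A Q (T + 1) * mu Q (T + 1) ^ ex A) hinj]
  apply Finset.sum_le_sum_of_subset_of_nonneg
  · intro Q hQ
    rw [Finset.mem_image] at hQ
    obtain ⟨⟨q, a⟩, h, rfl⟩ := hQ
    rw [Finset.mem_product, Finset.mem_Icc, Finset.mem_Icc] at h
    dsimp only at h ⊢
    rw [Finset.mem_Icc]
    have e1 : 1 * (T + 1) ≤ a * (T + 1) := Nat.mul_le_mul_right _ h.2.1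
    have e2 : a * (T + 1) ≤ A * (T + 1) := Nat.mul_le_mul_right _ h.2.2
    have e3 : (A + 1) * (T + 1) = A * (T + 1) + (T + 1) := by ring
    constructor <;> omega
  · intro Q _ _
    exact term_nonneg A Q (T + 1)

private theorem cut_aux {A B : ℕ} (hA : 14 ≤ A) (T : ℕ) (hT : 1 ≤ T) (hB : (A + 1) * T ≤ B) :
    1 / 2 ≤ ∑ q ∈ Finset.Icc 1 T, ∑ Q ∈ Finset.Icc (T + 1) B, gw A Q q * mu Q q ^ ex A := by
  induction T, hT using Nat.le_induction with
  | base =>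
    rw [Finset.Icc_self, Finset.sum_singleton]
    exact cut_one hA (by omega)
  | succ T hT ih =>
    have hB' : (A + 1) * T ≤ B := le_trans (Nat.mul_le_mul_left _ (Nat.le_succ T)) hB
    have h0 := ih hB'
    have hle : T + 1 ≤ B := by
      have : 1 * (T + 1) ≤ (A + 1) * (T + 1) := Nat.mul_le_mul_right _ (by omega)
      omega
    have e1 : Finset.Icc (T + 1) B = insert (T + 1) (Finset.Icc (T + 2) B) := by
      ext x
      rw [Finset.mem_insert, Finset.mem_Icc, Finset.mem_Icc]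
      omega
    have e2 : Finset.Icc 1 (T + 1) = insert (T + 1) (Finset.Icc 1 T) := by
      ext x
      rw [Finset.mem_insert, Finset.mem_Icc, Finset.mem_Icc]
      omega
    have h1 : ∑ q ∈ Finset.Icc 1 T, ∑ Q ∈ Finset.Icc (T + 1) B, gw A Q q * mu Q q ^ ex A
        = ∑ q ∈ Finset.Icc 1 T, gw A (T + 1) q * mu (T + 1) q ^ ex A
          + ∑ q ∈ Finset.Icc 1 T, ∑ Q ∈ Finset.Icc (T + 2) B, gw A Q q * mu Q q ^ ex A := by
      rw [← Finset.sum_add_distrib]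
      apply Finset.sum_congr rfl
      intro q _
      rw [e1, Finset.sum_insert (by rw [Finset.mem_Icc]; omega)]
    have h2 : ∑ q ∈ Finset.Icc 1 (T + 1), ∑ Q ∈ Finset.Icc (T + 1 + 1) B, gw A Q q * mu Q q ^ ex A
        = ∑ Q ∈ Finset.Icc (T + 2) B, gw A Q (T + 1) * mu Q (T + 1) ^ ex A
          + ∑ q ∈ Finset.Icc 1 T, ∑ Q ∈ Finset.Icc (T + 2) B, gw A Q q * mu Q q ^ ex A := by
      rw [e2, Finset.sum_insert (by rw [Finset.mem_Icc]; omega)]
    have h3 := cut_step hA hT hB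
    rw [h2]
    rw [h1] at h0
    linarith

theorem cut {A T : ℕ} (hA : 14 ≤ A) (hT : 1 ≤ T) :
    1 / 2 ≤ ∑ q ∈ Finset.Icc 1 T, ∑ Q ∈ Finset.Icc (T + 1) ((A + 1) * T), gw A Q q * mu Q q ^ ex A :=
  cut_aux hA T hT le_rfl

end Pool.Agent.NV
end

section

/-!
# Task C5: the sum of the weights

`mu Q q = 1/(Q (Q + q)) ≤ 1/T²` for `Q > T`, so `mu Q q ^ s ≤ (1/T²) ^ s = T ^ (-2 s)` (`0 ≤ s = ex A` as `A ≥ 8`); with `cut` (`C4`) and `gw_nonneg`: `1/2 ≤ T ^ (-2 s) ∑ ∑ gw`, so `∑ ∑ gw ≥ T ^ (2 s) / 2`.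
-/

set_option autoImplicit false

namespace Pool.Agent.NV

private theorem ex_nonneg' {A : ℕ} (hA : 14 ≤ A) : 0 ≤ ex A := by
  have h : (14 : ℝ) ≤ A := by exact_mod_cast hA
  unfold ex
  rw [sub_nonneg, div_le_one (by linarith)]
  linarith

theorem sum_gw {A T : ℕ} (hA : 14 ≤ A) (hT : 1 ≤ T) :
    (T : ℝ) ^ (2 * ex A) / 2 ≤ ∑ q ∈ Finset.Icc 1 T, ∑ Q ∈ Finset.Icc (T + 1) ((A + 1) * T), gw A Q q := by
  have hs := ex_nonneg' hA
  have hT0 : (0 : ℝ) < T := by exact_mod_cast (by omega : 0 < T)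
  have hmu : ∀ q ∈ Finset.Icc 1 T, ∀ Q ∈ Finset.Icc (T + 1) ((A + 1) * T),
      mu Q q ^ ex A ≤ (T : ℝ) ^ (-(2 * ex A)) := by
    intro q hq Q hQ
    rw [Finset.mem_Icc] at hq hQ
    have hQ0 : (T : ℝ) ≤ Q := by exact_mod_cast (by omega : T ≤ Q)
    have hq0 : (0 : ℝ) ≤ q := Nat.cast_nonneg q
    have h1 : mu Q q ≤ (T : ℝ) ^ (-(2 : ℝ)) := by
      unfold mu
      rw [Real.rpow_neg hT0.le, Real.rpow_two, one_div]
      exact inv_anti₀ (by positivity) (by nlinarith)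
    calc mu Q q ^ ex A ≤ ((T : ℝ) ^ (-(2 : ℝ))) ^ ex A :=
          Real.rpow_le_rpow (mu_pos (by omega : 1 ≤ Q)).le h1 hs
      _ = (T : ℝ) ^ (-(2 * ex A)) := by rw [← Real.rpow_mul hT0.le, neg_mul]
  have h2 := cut hA hT
  have h3 : ∑ q ∈ Finset.Icc 1 T, ∑ Q ∈ Finset.Icc (T + 1) ((A + 1) * T), gw A Q q * mu Q q ^ ex A ≤
      (∑ q ∈ Finset.Icc 1 T, ∑ Q ∈ Finset.Icc (T + 1) ((A + 1) * T), gw A Q q) * (T : ℝ) ^ (-(2 * ex A)) := by
    rw [Finset.sum_mul]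
    refine Finset.sum_le_sum fun q hq => ?_
    rw [Finset.sum_mul]
    exact Finset.sum_le_sum fun Q hQ => mul_le_mul_of_nonneg_left (hmu q hq Q hQ) (gw_nonneg A Q q)
  have h4 : (0 : ℝ) < (T : ℝ) ^ (2 * ex A) := Real.rpow_pos_of_pos hT0 _
  have h5 : (T : ℝ) ^ (-(2 * ex A)) = ((T : ℝ) ^ (2 * ex A))⁻¹ := Real.rpow_neg hT0.le _
  rw [h5] at h3
  have h6 := h2.trans h3
  rw [← div_eq_mul_inv, le_div_iff₀ h4] at h6
  linarith

end Pool.Agent.NV
end

section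

/-!
# Task C3: many pairs with few steps

`gw_OK`: if `q < Q` and `gw A Q q ≠ 0` there is `c` with `OK c Q q` and `gw A Q q = exp (-θ c)`.  Strong induction on `q`: `q = 0` impossible; `q = 1`: `2 ≤ Q`, `c = Q - 1`, `OK_one` (`E2`); `q ≥ 2`: `a = Q / q ≥ 1`, `r = Q % q < q`,
`gw A q r ≠ 0`, by induction `OK c q r`, `gw A q r = exp (-θ c)`; then `OK (c + a) (a q + r) q` by `OK_mul`, `a q + r = Q` (`Nat.div_add_mod`), and the product of the exponentials.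
`count_good`: `T = N / (A + 1)` (natural division) `≥ 1`, `(A + 1) T ≤ N`, `T ≥ N / (2 (A + 1))` as a real number (`N < (T + 1)(A + 1) ≤ 2 T (A + 1)`).  Let `P` be the set of the pairs `(Q, q)`, `1 ≤ q ≤ T < Q ≤ (A+1) T` (all in `[1, N]²`, `q < Q`).
By `sum_gw` and `gw_OK`: `T ^ (2 s)/2 ≤ ∑_P gw ≤ #{(Q, q) ∈ P : OK L Q q} + |P| exp (-θ L)`: if the pair has `gw = exp (-θ c)` with `c ≤ L` then `OK L Q q` (`OK_mono`) and `gw ≤ 1`; otherwise `c > L`, `gw ≤ exp (-θ L)`; `|P| ≤ N²`.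
With `k = 6/(A-2)`, `2 s = 2 - 2 k`: `T ^ (2 s) = T² T ^ (-2 k) ≥ (N/(2(A+1)))² N ^ (-2 k)` (`T ≤ N`, negative exponent), so the left side is `≥ N² N ^ (-2k) / (8 (A+1)²)`.
`hL` says `θ L ≥ 2 k log N + 2 log (4 (A+1))` (multiply by `θ = 1/((A+2) log (A+1))`), so `exp (-θ L) ≤ N ^ (-2k) / (16 (A+1)²)`.  The difference is `≥ N² N ^ (-2k) / (16 (A+1)²)`.  Note `12/(A-2) = 2 k`.
-/

set_option autoImplicit false

namespace Pool.Agent.NV

theorem gw_OK {A : ℕ} : ∀ {q Q : ℕ}, q < Q → gw A Q q ≠ 0 →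
    ∃ c : ℕ, OK c Q q ∧ gw A Q q = Real.exp (-tht A * (c : ℝ)) := by
  intro q
  induction q using Nat.strong_induction_on with
  | _ q ih =>
    intro Q hQ hne
    by_cases h0 : q = 0
    · exfalso
      apply hne
      rw [gw, dif_pos h0]
    by_cases h1 : q = 1
    · rw [gw, dif_neg h0, if_pos h1] at hne ⊢
      by_cases h2 : 2 ≤ Q ∧ Q ≤ A + 1
      · rw [if_pos h2]
        obtain ⟨a, rfl⟩ : ∃ a, Q = a + 1 := ⟨Q - 1, by omega⟩
        refine ⟨a, ?_, ?_⟩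
        · rw [h1]
          exact OK_one a
        · push_cast
          rw [add_sub_cancel_right]
      · rw [if_neg h2] at hne
        exact absurd rfl hne
    · rw [gw, dif_neg h0, if_neg h1] at hne ⊢
      by_cases h2 : Q / q ≤ A ∧ 1 ≤ Q / q
      · rw [if_pos h2] at hne ⊢
        have hr : Q % q < q := Nat.mod_lt _ (by omega)
        obtain ⟨c, hc, hg⟩ := ih (Q % q) hr hr (right_ne_zero_of_mul hne)
        refine ⟨c + Q / q, ?_, ?_⟩
        · have h3 := OK_mul hc (Q / q)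
          rwa [Nat.div_add_mod'] at h3
        · rw [hg, ← Real.exp_add]
          congr 1
          push_cast
          ring
      · rw [if_neg h2] at hne
        exact absurd rfl hne

theorem count_good {A N L : ℕ} (hA : 14 ≤ A) (hN : A + 1 ≤ N)
    (hL : ((A : ℝ) + 2) * Real.log (A + 1) * (12 / ((A : ℝ) - 2) * Real.log N + 2 * Real.log (4 * (A + 1))) ≤ L) :
    (N : ℝ) ^ 2 * ((N : ℝ) ^ (-(12 / ((A : ℝ) - 2))) / (16 * ((A : ℝ) + 1) ^ 2)) ≤
      (((Finset.Icc 1 N ×ˢ Finset.Icc 1 N).filter fun v : ℕ × ℕ => OK L v.1 v.2).card : ℝ) := by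
  have hA' : (14 : ℝ) ≤ A := by exact_mod_cast hA
  obtain ⟨T, hTdef⟩ : ∃ T, T = N / (A + 1) := ⟨_, rfl⟩
  have hT : 1 ≤ T := by
    rw [hTdef]
    exact (Nat.le_div_iff_mul_le (by omega)).2 (by omega)
  have hTN : (A + 1) * T ≤ N := by
    rw [hTdef]
    exact Nat.mul_div_le N (A + 1)
  have hNT : N < (A + 1) * (T + 1) := by
    rw [hTdef]
    exact Nat.lt_mul_div_succ N (by omega)
  have hT0 : (0 : ℝ) < T := by exact_mod_cast (by omega : 0 < T)
  have hT1 : (1 : ℝ) ≤ T := by exact_mod_cast hT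
  have hN0 : (0 : ℝ) < N := by exact_mod_cast (by omega : 0 < N)
  have hTN' : (T : ℝ) ≤ N := by
    have h1 : T ≤ N := by nlinarith
    exact_mod_cast h1
  have hTge : (N : ℝ) / (2 * ((A : ℝ) + 1)) ≤ T := by
    rw [div_le_iff₀ (by positivity)]
    have h1 : (N : ℝ) < ((A : ℝ) + 1) * ((T : ℝ) + 1) := by exact_mod_cast hNT
    nlinarith
  obtain ⟨x, hx⟩ : ∃ x : ℝ, x = 12 / ((A : ℝ) - 2) := ⟨_, rfl⟩
  rw [← hx] at hL ⊢
  have hx0 : 0 ≤ x := by
    rw [hx]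
    exact div_nonneg (by norm_num) (by linarith)
  have hex : 2 * ex A = 2 + -x := by
    unfold ex
    rw [hx]
    ring
  have hlog : 0 < ((A : ℝ) + 2) * Real.log (A + 1) := mul_pos (by linarith) (Real.log_pos (by linarith))
  have hth : 0 ≤ tht A := by
    unfold tht
    positivity
  have hthL : x * Real.log N + 2 * Real.log (4 * (A + 1)) ≤ tht A * L := by
    unfold tht
    rw [one_div, inv_mul_eq_div, le_div_iff₀ hlog]
    linarith
  -- the exponential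
  have hexp : Real.exp (-tht A * (L : ℝ)) ≤ (N : ℝ) ^ (-x) / (16 * ((A : ℝ) + 1) ^ 2) := by
    have h1 : Real.exp (-tht A * (L : ℝ)) ≤
        Real.exp (-(x * Real.log N)) * Real.exp (-(2 * Real.log (4 * (A + 1)))) := by
      rw [← Real.exp_add]
      apply Real.exp_le_exp.2
      linarith
    have h2 : Real.exp (-(x * Real.log N)) = (N : ℝ) ^ (-x) := by
      rw [Real.rpow_def_of_pos hN0]
      congr 1
      ring
    have h3 : Real.exp (-(2 * Real.log (4 * (A + 1)))) = (16 * ((A : ℝ) + 1) ^ 2)⁻¹ := by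
      rw [Real.exp_neg]
      congr 1
      rw [two_mul, Real.exp_add, Real.exp_log (by positivity)]
      ring
    rw [h2, h3, ← div_eq_mul_inv] at h1
    exact h1
  -- the bound of the weights
  have hgw : ∀ q ∈ Finset.Icc 1 T, ∀ Q ∈ Finset.Icc (T + 1) ((A + 1) * T),
      gw A Q q ≤ (if OK L Q q then (1 : ℝ) else 0) + Real.exp (-tht A * (L : ℝ)) := by
    intro q hq Q hQ
    rw [Finset.mem_Icc] at hq hQ
    have he := Real.exp_pos (-tht A * (L : ℝ))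
    by_cases h0 : gw A Q q = 0
    · rw [h0]
      split_ifs <;> linarith
    obtain ⟨c, hc, hg⟩ := gw_OK (by omega : q < Q) h0
    rw [hg]
    by_cases hcL : c ≤ L
    · rw [if_pos (OK_mono hc hcL)]
      have h1 : Real.exp (-tht A * (c : ℝ)) ≤ 1 := by
        apply Real.exp_le_one_iff.2
        have : 0 ≤ tht A * (c : ℝ) := mul_nonneg hth (Nat.cast_nonneg c)
        linarith
      linarith
    · have h1 : Real.exp (-tht A * (c : ℝ)) ≤ Real.exp (-tht A * (L : ℝ)) := by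
        apply Real.exp_le_exp.2
        have h2 : (L : ℝ) ≤ c := by exact_mod_cast (by omega : L ≤ c)
        have := mul_le_mul_of_nonneg_left h2 hth
        linarith
      split_ifs <;> linarith
  have hsum := (sum_gw hA hT).trans (Finset.sum_le_sum fun q hq => Finset.sum_le_sum fun Q hQ => hgw q hq Q hQ)
  have hsplit : ∑ q ∈ Finset.Icc 1 T, ∑ Q ∈ Finset.Icc (T + 1) ((A + 1) * T),
      ((if OK L Q q then (1 : ℝ) else 0) + Real.exp (-tht A * (L : ℝ))) ≤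
      (((Finset.Icc 1 N ×ˢ Finset.Icc 1 N).filter fun v : ℕ × ℕ => OK L v.1 v.2).card : ℝ) +
        (N : ℝ) ^ 2 * Real.exp (-tht A * (L : ℝ)) := by
    simp only [Finset.sum_add_distrib]
    refine add_le_add ?_ ?_
    · rw [← Finset.sum_product', ← Finset.sum_filter, Finset.sum_const, nsmul_eq_mul, mul_one]
      have h1 : ((Finset.Icc 1 T ×ˢ Finset.Icc (T + 1) ((A + 1) * T)).filter
          fun v : ℕ × ℕ => OK L v.2 v.1).card ≤
          ((Finset.Icc 1 N ×ˢ Finset.Icc 1 N).filter fun v : ℕ × ℕ => OK L v.1 v.2).card := by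
        refine Finset.card_le_card_of_injOn Prod.swap ?_ (Prod.swap_injective.injOn)
        intro v hv
        simp only [Finset.coe_filter, Finset.mem_product, Finset.mem_Icc, Set.mem_ofPred_eq] at hv ⊢
        obtain ⟨⟨⟨h1, h2⟩, h3, h4⟩, h5⟩ := hv
        refine ⟨⟨⟨?_, ?_⟩, ?_, ?_⟩, h5⟩
        · change 1 ≤ v.2
          omega
        · change v.2 ≤ N
          omega
        · change 1 ≤ v.1
          exact h1
        · change v.1 ≤ N
          nlinarith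
      exact_mod_cast h1
    · simp only [Finset.sum_const, nsmul_eq_mul, Nat.card_Icc]
      rw [← mul_assoc]
      refine mul_le_mul_of_nonneg_right ?_ (Real.exp_pos _).le
      have h1 : T + 1 - 1 ≤ N := by
        have : T ≤ N := by exact_mod_cast hTN'
        omega
      have h2 : (A + 1) * T + 1 - (T + 1) ≤ N := by omega
      have h3 : ((T + 1 - 1 : ℕ) : ℝ) ≤ N := by exact_mod_cast h1
      have h4 : (((A + 1) * T + 1 - (T + 1) : ℕ) : ℝ) ≤ N := by exact_mod_cast h2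
      calc ((T + 1 - 1 : ℕ) : ℝ) * (((A + 1) * T + 1 - (T + 1) : ℕ) : ℝ) ≤ N * N :=
            mul_le_mul h3 h4 (Nat.cast_nonneg _) hN0.le
        _ = (N : ℝ) ^ 2 := by ring
  -- the left side
  have hleft : (N : ℝ) ^ 2 * ((N : ℝ) ^ (-x) / (8 * ((A : ℝ) + 1) ^ 2)) ≤ (T : ℝ) ^ (2 * ex A) / 2 := by
    rw [hex, Real.rpow_add hT0, Real.rpow_two]
    have h1 : (N : ℝ) ^ (-x) ≤ (T : ℝ) ^ (-x) := by
      rw [Real.rpow_neg hN0.le, Real.rpow_neg hT0.le]
      exact inv_anti₀ (Real.rpow_pos_of_pos hT0 _) (Real.rpow_le_rpow hT0.le hTN' hx0)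
    have h2 : ((N : ℝ) / (2 * ((A : ℝ) + 1))) ^ 2 ≤ (T : ℝ) ^ 2 :=
      pow_le_pow_left₀ (by positivity) hTge 2
    have h3 : ((N : ℝ) / (2 * ((A : ℝ) + 1))) ^ 2 * (N : ℝ) ^ (-x) ≤ (T : ℝ) ^ 2 * (T : ℝ) ^ (-x) :=
      mul_le_mul h2 h1 (Real.rpow_pos_of_pos hN0 _).le (by positivity)
    calc (N : ℝ) ^ 2 * ((N : ℝ) ^ (-x) / (8 * ((A : ℝ) + 1) ^ 2)) =
          ((N : ℝ) / (2 * ((A : ℝ) + 1))) ^ 2 * (N : ℝ) ^ (-x) / 2 := by
          field_simp
          ring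
      _ ≤ (T : ℝ) ^ 2 * (T : ℝ) ^ (-x) / 2 := by linarith
  have hfin := hleft.trans (hsum.trans hsplit)
  have h7 : (N : ℝ) ^ 2 * Real.exp (-tht A * (L : ℝ)) ≤
      (N : ℝ) ^ 2 * ((N : ℝ) ^ (-x) / (16 * ((A : ℝ) + 1) ^ 2)) :=
    mul_le_mul_of_nonneg_left hexp (by positivity)
  have h8 : (N : ℝ) ^ 2 * ((N : ℝ) ^ (-x) / (8 * ((A : ℝ) + 1) ^ 2)) =
      2 * ((N : ℝ) ^ 2 * ((N : ℝ) ^ (-x) / (16 * ((A : ℝ) + 1) ^ 2))) := by
    field_simp
    ring
  linarith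

end Pool.Agent.NV
end
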