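import Mathlib

section

/-!
# Task H1: an inequality between real numbers (the number of steps)

`ℓ = log p`, `a = log A`.  `A ≥ 302` gives `a ≥ 5.7` (`exp 5.7 ≤ 302`: `exp 57 = (exp 1)^57 < 2.7182818286^57 < 302^10`, `Real.exp_one_lt_d9`, `norm_num`), and `ℓ ≥ A a`.
`log (A+1) ≤ a + 1/A ≤ 1.001 a`; `log (4 (A+1)) = log 4 + log (A+1) ≤ 1.3863 + 1.001 a ≤ 1.25 a` (`log 4 = 2 log 2`, `Real.log_two_lt_d9`).
`A + 2 ≤ p`: `p = exp ℓ ≥ exp (A a) = A ^ A ≥ A ^ 2 ≥ A + 2` (or: `log p ≥ A log A ≥ 2 log A = log (A^2)`, `A^2 ≤ p`).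
`(A+2)/(A-2) ≤ 304/300`, `log (p-1) ≤ ℓ`: `(A+2) log (A+1) · 12/(A-2) · log (p-1) ≤ 12 · (304/300) · 1.001 a ℓ ≤ 12.2 a ℓ`, and `(A+2) · 2 · log (A+1) · log (4(A+1)) ≤ 2 · (304/302) A · 1.001 a · 1.25 a ≤ 2.6 (A a) a ≤ 2.6 ℓ a`.
Together `≤ 14.8 a ℓ ≤ 15 a ℓ ≤ L`.
-/

set_option autoImplicit false

namespace Pool.Agent.NV

private theorem H1_log302 {A : ℕ} (hA : 302 ≤ A) : (5.7 : ℝ) ≤ Real.log A := by
  have h1 : Real.exp 57 ≤ (302 : ℝ) ^ 10 := by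
    have e : Real.exp 57 = (Real.exp 1) ^ 57 := by
      rw [← Real.exp_nat_mul]; norm_num
    rw [e]
    have h2 : Real.exp 1 ≤ 2.7182818286 := Real.exp_one_lt_d9.le
    calc (Real.exp 1) ^ 57 ≤ (2.7182818286 : ℝ) ^ 57 :=
          pow_le_pow_left₀ (Real.exp_pos 1).le h2 57
      _ ≤ (302 : ℝ) ^ 10 := by norm_num
  have h3 : (57 : ℝ) ≤ Real.log ((302 : ℝ) ^ 10) := by
    rw [Real.le_log_iff_exp_le (by positivity)]
    exact h1
  rw [Real.log_pow] at h3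
  have h4 : Real.log 302 ≤ Real.log A := by
    apply Real.log_le_log (by norm_num)
    exact_mod_cast hA
  push_cast at h3
  linarith

private theorem H1_logsucc {A : ℕ} (hA : 302 ≤ A) : Real.log ((A : ℝ) + 1) ≤ Real.log A + 1 / A := by
  have hA' : (302 : ℝ) ≤ A := by exact_mod_cast hA
  have hpos : (0 : ℝ) < A := by linarith
  have e : (A : ℝ) + 1 = A * (1 + 1 / A) := by field_simp
  rw [e, Real.log_mul (by positivity) (by positivity)]
  have := Real.log_le_sub_one_of_pos (show (0 : ℝ) < 1 + 1 / A by positivity)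
  linarith

theorem num_L {A p : ℕ} (hA : 302 ≤ A) (hp : (A : ℝ) * Real.log A ≤ Real.log p) (hp0 : 0 < p) {L : ℝ}
    (hL : 15 * Real.log A * Real.log p ≤ L) :
    A + 2 ≤ p ∧ ((A : ℝ) + 2) * Real.log (A + 1) * (12 / ((A : ℝ) - 2) * Real.log ((p : ℝ) - 1) + 2 * Real.log (4 * (A + 1))) ≤ L := by
  have ha := H1_log302 hA
  have hA' : (302 : ℝ) ≤ A := by exact_mod_cast hA
  have hpos : (0 : ℝ) < A := by linarith
  have hs := H1_logsucc hA
  have hinv : 1 / (A : ℝ) ≤ 0.0057 := by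
    rw [div_le_iff₀ hpos]; nlinarith
  have hs2 : Real.log ((A : ℝ) + 1) ≤ 1.001 * Real.log A := by linarith
  have hp' : (0 : ℝ) < p := by exact_mod_cast hp0
  have hAp : A + 2 ≤ p := by
    have h1 : Real.log ((A : ℝ) ^ 2) ≤ Real.log p := by
      rw [Real.log_pow]
      push_cast
      refine le_trans ?_ hp
      nlinarith
    have h2 : (A : ℝ) ^ 2 ≤ p := (Real.log_le_log_iff (by positivity) hp').1 h1
    have h3 : A ^ 2 ≤ p := by exact_mod_cast h2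
    nlinarith
  refine ⟨hAp, ?_⟩
  have hAp' : (A : ℝ) + 2 ≤ p := by exact_mod_cast hAp
  have hlp1 : Real.log ((p : ℝ) - 1) ≤ Real.log p :=
    Real.log_le_log (by linarith) (by linarith)
  have hlp0 : 0 ≤ Real.log ((p : ℝ) - 1) := Real.log_nonneg (by linarith)
  have hlp : 0 ≤ Real.log (p : ℝ) := le_trans hlp0 hlp1
  have hlA1 : 0 ≤ Real.log ((A : ℝ) + 1) := Real.log_nonneg (by linarith)
  have hl4 : Real.log (4 * ((A : ℝ) + 1)) ≤ 1.25 * Real.log A := by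
    rw [Real.log_mul (by norm_num) (by positivity)]
    have e4 : Real.log 4 = 2 * Real.log 2 := by
      rw [show (4 : ℝ) = 2 ^ 2 by norm_num, Real.log_pow]; push_cast; ring
    have := Real.log_two_lt_d9
    rw [e4]
    linarith
  have hl40 : 0 ≤ Real.log (4 * ((A : ℝ) + 1)) := Real.log_nonneg (by linarith)
  set a := Real.log (A : ℝ) with ha_def
  set l := Real.log (p : ℝ) with hl_def
  set x := Real.log ((A : ℝ) + 1) with hx_def
  set y := Real.log (4 * ((A : ℝ) + 1)) with hy_def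
  set m := Real.log ((p : ℝ) - 1) with hm_def
  have hd : (0 : ℝ) < (A : ℝ) - 2 := by linarith
  have hq : ((A : ℝ) + 2) / ((A : ℝ) - 2) ≤ 304 / 300 := by
    rw [div_le_div_iff₀ hd (by norm_num)]; linarith
  have hq0 : 0 ≤ ((A : ℝ) + 2) / ((A : ℝ) - 2) := by positivity
  have ha0 : 0 ≤ a := by linarith
  have t1 : x * m ≤ 1.001 * a * l := mul_le_mul hs2 hlp1 hlp0 (by positivity)
  have t2 : ((A : ℝ) + 2) / ((A : ℝ) - 2) * (x * m) ≤ 304 / 300 * (1.001 * a * l) :=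
    mul_le_mul hq t1 (mul_nonneg hlA1 hlp0) (by norm_num)
  have t3 : x * y ≤ 1.001 * a * (1.25 * a) := mul_le_mul hs2 hl4 hl40 (by positivity)
  have t4 : ((A : ℝ) + 2) * (x * y) ≤ (304 / 302 * A) * (1.001 * a * (1.25 * a)) :=
    mul_le_mul (by linarith) t3 (mul_nonneg hlA1 hl40) (by positivity)
  have t5 : (A * a) * a ≤ l * a := mul_le_mul_of_nonneg_right hp ha0
  have e : ((A : ℝ) + 2) * x * (12 / ((A : ℝ) - 2) * m + 2 * y)
      = 12 * (((A : ℝ) + 2) / ((A : ℝ) - 2) * (x * m)) + 2 * (((A : ℝ) + 2) * (x * y)) := by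
    field_simp
  rw [e]
  have hal : 0 ≤ a * l := mul_nonneg ha0 hlp
  have t6 : (304 / 302 * (A : ℝ)) * (1.001 * a * (1.25 * a)) = (304 / 302 * 1.001 * 1.25) * ((A * a) * a) := by ring
  rw [t6] at t4
  have t7 : (304 / 302 * 1.001 * 1.25 : ℝ) * ((A * a) * a) ≤ (304 / 302 * 1.001 * 1.25) * (l * a) :=
    mul_le_mul_of_nonneg_left t5 (by norm_num)
  have t8 : l * a = a * l := mul_comm _ _
  rw [t8] at t7
  nlinarith

end Pool.Agent.NV
end

section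

/-!
# Task H2: an inequality between real numbers (the exponential sum)

`ℓ = log p`, `a = log A`.  `A ≥ 302` gives `a ≥ 5.7` (`exp 57 = (exp 1)^57 < 2.7182818286^57 < 302^10`, `Real.exp_one_lt_d9`), and `ℓ ≥ A a ≥ 302 a ≥ 1721`; `p` is large (`p ≥ 4`).
Put `k2 = 12/(A-2) ≤ 1/25`, `ρ = (p-1)^(-k2) / (16 (A+1)²)`.  `p - 1 ≥ p/2`, `(p-1)^(-k2) ≥ p^(-k2) ≥ p^(-1/25)`.
So `(ρ² (p-1))³ = ρ⁶ (p-1)³ ≥ p^(-6/25) / (16^6 (A+1)^12) · p³/8`, and it is enough that `256 · 16^6 (A+1)^12 ≤ p^(3 - 5/2 - 6/25) = p^0.26`.  Logarithms: `32 log 2 + 12 log (A+1) ≤ 22.2 + 12.02 a ≤ 16 a ≤ 0.26 · 302 a ≤ 0.26 ℓ`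
(`log (A+1) ≤ a + 1/A`, `22.2 ≤ 3.9 a`).  `sqrt p ^ 5 = p ^ (5/2)` (`Real.sqrt_eq_rpow`, `Real.rpow_natCast`, `Real.rpow_mul`).  It is convenient to write all powers as `exp (y log x)` (`Real.rpow_def_of_pos`), or to take logarithms of both sides.
-/

set_option autoImplicit false

namespace Pool.Agent.NV

private theorem H2_log302 {A : ℕ} (hA : 302 ≤ A) : (5.7 : ℝ) ≤ Real.log A := by
  have h1 : Real.exp 57 ≤ (302 : ℝ) ^ 10 := by
    have e : Real.exp 57 = (Real.exp 1) ^ 57 := by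
      rw [← Real.exp_nat_mul]; norm_num
    rw [e]
    have h2 : Real.exp 1 ≤ 2.7182818286 := Real.exp_one_lt_d9.le
    calc (Real.exp 1) ^ 57 ≤ (2.7182818286 : ℝ) ^ 57 :=
          pow_le_pow_left₀ (Real.exp_pos 1).le h2 57
      _ ≤ (302 : ℝ) ^ 10 := by norm_num
  have h3 : (57 : ℝ) ≤ Real.log ((302 : ℝ) ^ 10) := by
    rw [Real.le_log_iff_exp_le (by positivity)]
    exact h1
  rw [Real.log_pow] at h3
  have h4 : Real.log 302 ≤ Real.log A := by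
    apply Real.log_le_log (by norm_num)
    exact_mod_cast hA
  push_cast at h3
  linarith

private theorem H2_logsucc {A : ℕ} (hA : 302 ≤ A) : Real.log ((A : ℝ) + 1) ≤ Real.log A + 1 / A := by
  have hA' : (302 : ℝ) ≤ A := by exact_mod_cast hA
  have hpos : (0 : ℝ) < A := by linarith
  have e : (A : ℝ) + 1 = A * (1 + 1 / A) := by field_simp
  rw [e, Real.log_mul (by positivity) (by positivity)]
  have := Real.log_le_sub_one_of_pos (show (0 : ℝ) < 1 + 1 / A by positivity)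
  linarith

theorem num_F {A p : ℕ} (hA : 302 ≤ A) (hp : (A : ℝ) * Real.log A ≤ Real.log p) (hp0 : 0 < p) :
    32 * Real.sqrt p ^ 5 ≤
      ((((p : ℝ) - 1) ^ (-(12 / ((A : ℝ) - 2))) / (16 * ((A : ℝ) + 1) ^ 2)) ^ 2 * ((p : ℝ) - 1)) ^ 3 := by
  have ha := H2_log302 hA
  have hA' : (302 : ℝ) ≤ A := by exact_mod_cast hA
  have hpos : (0 : ℝ) < A := by linarith
  have hs := H2_logsucc hA
  have hinv : 1 / (A : ℝ) ≤ 0.0057 := by
    rw [div_le_iff₀ hpos]; nlinarith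
  have hs2 : Real.log ((A : ℝ) + 1) ≤ 1.001 * Real.log A := by linarith
  have hp' : (0 : ℝ) < p := by exact_mod_cast hp0
  have hp4 : (4 : ℝ) ≤ p := by
    have h1 : Real.log 4 ≤ Real.log p := by
      have e4 : Real.log 4 = 2 * Real.log 2 := by
        rw [show (4 : ℝ) = 2 ^ 2 by norm_num, Real.log_pow]; push_cast; ring
      have := Real.log_two_lt_d9
      rw [e4]
      refine le_trans ?_ hp
      nlinarith
    exact (Real.log_le_log_iff (by norm_num) hp').1 h1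
  have hq : (0 : ℝ) < (p : ℝ) - 1 := by linarith
  have hd : (0 : ℝ) < (A : ℝ) - 2 := by linarith
  set k := 12 / ((A : ℝ) - 2) with hk
  have hk0 : 0 < k := by positivity
  have hk1 : k ≤ 1 / 25 := by
    rw [hk, div_le_div_iff₀ hd (by norm_num)]; linarith
  have hl1 : Real.log p - Real.log 2 ≤ Real.log ((p : ℝ) - 1) := by
    rw [← Real.log_div hp'.ne' (by norm_num)]
    exact Real.log_le_log (by positivity) (by linarith)
  have hl2 : Real.log ((p : ℝ) - 1) ≤ Real.log p := Real.log_le_log hq (by linarith)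
  have hB : (0 : ℝ) < 16 * ((A : ℝ) + 1) ^ 2 := by positivity
  have hrp : 0 < ((p : ℝ) - 1) ^ (-k) := Real.rpow_pos_of_pos hq _
  rw [← Real.log_le_log_iff (by positivity) (by positivity)]
  rw [Real.log_mul (by norm_num) (by positivity), Real.log_pow, Real.log_sqrt hp'.le, Real.log_pow,
    Real.log_mul (by positivity) hq.ne', Real.log_pow, Real.log_div hrp.ne' hB.ne',
    Real.log_rpow hq, Real.log_mul (by norm_num) (by positivity), Real.log_pow]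
  have e32 : Real.log 32 = 5 * Real.log 2 := by
    rw [show (32 : ℝ) = 2 ^ 5 by norm_num, Real.log_pow]; push_cast; ring
  have e16 : Real.log 16 = 4 * Real.log 2 := by
    rw [show (16 : ℝ) = 2 ^ 4 by norm_num, Real.log_pow]; push_cast; ring
  rw [e32, e16]
  push_cast
  have h2 := Real.log_two_lt_d9
  have h20 : 0 < Real.log 2 := Real.log_pos (by norm_num)
  set a := Real.log (A : ℝ) with ha_def
  set l := Real.log (p : ℝ) with hl_def
  set x := Real.log ((A : ℝ) + 1) with hx_def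
  set m := Real.log ((p : ℝ) - 1) with hm_def
  set t := Real.log 2 with ht_def
  have hm0 : 0 ≤ m := Real.log_nonneg (by linarith)
  have hkm : k * m ≤ 1 / 25 * l := mul_le_mul hk1 hl2 hm0 (by norm_num)
  have hl302 : 302 * a ≤ l := le_trans (by nlinarith) hp
  nlinarith

end Pool.Agent.NV
end

section

/-!
# Task H3: an inequality between real numbers (the probability)

`ℓ = log p`, `a = log A`.  `A ≥ 302` gives `a ≥ 5.7` (`exp 57 = (exp 1)^57 < 2.7182818286^57 < 302^10`, `Real.exp_one_lt_d9`), and `ℓ ≥ A a ≥ 302 a ≥ 1721`, so `p ≥ 4`.  `ρ = (p-1)^(-k2) / (16 (A+1)²)`, `k2 = 12/(A-2)`.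
`2^(17 m) = (2^m)^17 ≤ (2 p)^17`, so it is enough that `(2p)^17 A^(-35) p^(-145/A) ≤ (p-1)^12 (ρ² (p-1))^6 / (2 p) = (p-1)^18 ρ^12 / (2p)`, i.e. (multiply by `2 p`, `(p-1)^18 ≥ (p/2)^18`):
`2^36 · 16^12 (A+1)^24 A^(-35) p^(-145/A) ≤ (p-1)^(-12 k2)`.  Now `(p-1)^(-12 k2) ≥ p^(-12 k2) = p^(-144/(A-2)) ≥ p^(-145/A)` (`144 A ≤ 145 (A - 2)`), and `2^84 (A+1)^24 ≤ A^35`: `84 log 2 + 24 log (A+1) ≤ 58.3 + 24 a + 24/A ≤ 35 a` since `11 a ≥ 62.7`
(`log (A+1) ≤ a + 1/A`, `Real.log_two_lt_d9`).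
-/

set_option autoImplicit false

namespace Pool.Agent.NV

theorem num_P {A p m : ℕ} (hA : 302 ≤ A) (hp : (A : ℝ) * Real.log A ≤ Real.log p) (hp0 : 0 < p) (hm : 2 ^ m ≤ 2 * p) :
    (2 : ℝ) ^ (17 * m) * ((A : ℝ) ^ (-(35 : ℝ)) * (p : ℝ) ^ (-(145 / (A : ℝ)))) ≤
      ((p : ℝ) - 1) ^ 12 *
        (((((p : ℝ) - 1) ^ (-(12 / ((A : ℝ) - 2))) / (16 * ((A : ℝ) + 1) ^ 2)) ^ 2 * ((p : ℝ) - 1)) ^ 6 / (2 * p)) := by
  have hA' : (302 : ℝ) ≤ A := by exact_mod_cast hA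
  have hA0 : (0 : ℝ) < A := by linarith
  have hp2 : (2 : ℝ) ≤ p := by
    have h1 : 0 < Real.log A := Real.log_pos (by linarith)
    have h2 : 0 < Real.log p := lt_of_lt_of_le (mul_pos hA0 h1) hp
    have h3 : p ≠ 1 := by
      rintro rfl
      rw [Nat.cast_one, Real.log_one] at h2
      exact lt_irrefl _ h2
    exact_mod_cast (by omega : 2 ≤ p)
  set P : ℝ := (p : ℝ) with hP
  set x : ℝ := P - 1 with hx
  have hP0 : 0 < P := by linarith
  have hx0 : 0 < x := by linarith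
  have hxP : x ≤ P := by linarith
  have hx2 : P / 2 ≤ x := by linarith
  set r : ℝ := x ^ (-(12 / ((A : ℝ) - 2))) with hr
  set t : ℝ := P ^ (-(145 / (A : ℝ))) with ht
  have ht0 : 0 ≤ t := Real.rpow_nonneg hP0.le _
  have hr0 : 0 ≤ r := Real.rpow_nonneg hx0.le _
  have hr12 : t ≤ r ^ 12 := by
    have h1 : r ^ 12 = x ^ (-(144 / ((A : ℝ) - 2))) := by
      rw [hr, ← Real.rpow_natCast, ← Real.rpow_mul hx0.le]
      congr 1
      push_cast
      ring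
    rw [h1]
    have h2 : t ≤ P ^ (-(144 / ((A : ℝ) - 2))) := by
      refine Real.rpow_le_rpow_of_exponent_le (by linarith) ?_
      rw [neg_le_neg_iff, div_le_div_iff₀ (by linarith) hA0]
      linarith
    refine h2.trans ?_
    refine Real.rpow_le_rpow_of_nonpos hx0 hxP ?_
    rw [neg_nonpos]
    exact div_nonneg (by norm_num) (by linarith)
  have h35 : (A : ℝ) ^ (-(35 : ℝ)) = ((A : ℝ) ^ 35)⁻¹ := by
    rw [Real.rpow_neg hA0.le, show (35 : ℝ) = ((35 : ℕ) : ℝ) by norm_num, Real.rpow_natCast]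
  have hpow : (2 : ℝ) ^ 84 * ((A : ℝ) + 1) ^ 24 ≤ (A : ℝ) ^ 35 := by
    have h1 : (((A : ℝ) + 1) * 302) ^ 24 ≤ (303 * (A : ℝ)) ^ 24 :=
      pow_le_pow_left₀ (by positivity) (by linarith) 24
    rw [mul_pow, mul_pow] at h1
    have h2 : (2 : ℝ) ^ 84 * 303 ^ 24 ≤ 302 ^ 24 * 302 ^ 11 := by norm_num
    have h3 : (302 : ℝ) ^ 11 ≤ (A : ℝ) ^ 11 := pow_le_pow_left₀ (by norm_num) hA' 11
    have h4 : (0 : ℝ) < 302 ^ 24 := by norm_num
    have h5 : (0 : ℝ) ≤ (A : ℝ) ^ 24 := by positivity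
    have h6 : (2 : ℝ) ^ 84 * ((A : ℝ) + 1) ^ 24 * 302 ^ 24 ≤ (A : ℝ) ^ 35 * 302 ^ 24 := by
      calc (2 : ℝ) ^ 84 * ((A : ℝ) + 1) ^ 24 * 302 ^ 24
          = 2 ^ 84 * (((A : ℝ) + 1) ^ 24 * 302 ^ 24) := by ring
        _ ≤ 2 ^ 84 * (303 ^ 24 * (A : ℝ) ^ 24) := mul_le_mul_of_nonneg_left h1 (by norm_num)
        _ = 2 ^ 84 * 303 ^ 24 * (A : ℝ) ^ 24 := by ring
        _ ≤ 302 ^ 24 * 302 ^ 11 * (A : ℝ) ^ 24 := mul_le_mul_of_nonneg_right h2 h5
        _ = 302 ^ 11 * (302 ^ 24 * (A : ℝ) ^ 24) := by ring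
        _ ≤ (A : ℝ) ^ 11 * (302 ^ 24 * (A : ℝ) ^ 24) :=
            mul_le_mul_of_nonneg_right h3 (by positivity)
        _ = (A : ℝ) ^ 35 * 302 ^ 24 := by ring
    exact le_of_mul_le_mul_right h6 h4
  have hinv : ((A : ℝ) ^ 35)⁻¹ ≤ (2 ^ 84 * ((A : ℝ) + 1) ^ 24)⁻¹ :=
    inv_anti₀ (by positivity) hpow
  have h2m : (2 : ℝ) ^ (17 * m) ≤ (2 * P) ^ 17 := by
    rw [mul_comm 17 m, pow_mul]
    refine pow_le_pow_left₀ (by positivity) ?_ 17
    have h1 : ((2 ^ m : ℕ) : ℝ) ≤ ((2 * p : ℕ) : ℝ) := by exact_mod_cast hm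
    push_cast at h1
    exact h1
  rw [h35]
  calc (2 : ℝ) ^ (17 * m) * (((A : ℝ) ^ 35)⁻¹ * t)
      ≤ (2 * P) ^ 17 * ((2 ^ 84 * ((A : ℝ) + 1) ^ 24)⁻¹ * t) :=
        mul_le_mul h2m (mul_le_mul_of_nonneg_right hinv ht0) (by positivity) (by positivity)
    _ = (P / 2) ^ 18 * t / (16 ^ 12 * ((A : ℝ) + 1) ^ 24 * (2 * P)) := by
        field_simp
        ring
    _ ≤ x ^ 18 * r ^ 12 / (16 ^ 12 * ((A : ℝ) + 1) ^ 24 * (2 * P)) := by
        refine div_le_div_of_nonneg_right ?_ (by positivity)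
        exact mul_le_mul (pow_le_pow_left₀ (by positivity) hx2 18) hr12 ht0 (by positivity)
    _ = x ^ 12 * (((r / (16 * ((A : ℝ) + 1) ^ 2)) ^ 2 * x) ^ 6 / (2 * P)) := by
        field_simp

end Pool.Agent.NV
end
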