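import Pool.Agent.Lib.MP_55cac8_lc.OWKey

section

/-!
# The rigidity theorem, in integers
-/

set_option autoImplicit false

namespace Pool.Agent.OW

open Matrix Filter Topology

/-- growth constant for words -/
noncomputable def tht : ℝ := Real.exp (49 / 100)

theorem tht_sq : 1 + tht ≤ tht ^ 2 := by
  have h1 : (1:ℝ) + 49 / 200 + (49 / 200) ^ 2 / 2 ≤ Real.exp (49 / 200) :=
    Real.quadratic_le_exp_of_nonneg (by norm_num)
  have h2 : tht = Real.exp (49 / 200) ^ 2 := by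
    rw [tht, ← Real.exp_nat_mul]
    norm_num
  have h3 : (1.62:ℝ) ≤ tht := by
    rw [h2]
    nlinarith
  nlinarith

theorem tht_one : 1 ≤ tht := Real.one_le_exp (by norm_num)

theorem tht_pos : 0 < tht := Real.exp_pos _

theorem ev_bd (w : List (Fin 4)) (i : Fin 2) :
    |(ev ℤ w i 0 : ℝ)| ≤ tht ^ w.length ∧ |(ev ℤ w i 1 : ℝ)| ≤ tht ^ w.length ∧
      |(ev ℤ w i 0 : ℝ)| + |(ev ℤ w i 1 : ℝ)| ≤ tht ^ (w.length + 1) := by
  induction w using List.reverseRecOn with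
  | nil =>
    rw [ev_nil]
    have := tht_one
    rcases (by decide : ∀ k : Fin 2, k = 0 ∨ k = 1) i with rfl | rfl <;> simp <;> linarith
  | append_singleton w s ih =>
    obtain ⟨h0, h1, h2⟩ := ih
    have hlen : (w ++ [s]).length = w.length + 1 := by simp
    rw [hlen, ev_append, ev_single]
    set M := ev ℤ w with hM
    have hpos : 0 < tht ^ w.length := pow_pos tht_pos _
    have hstep : tht ^ w.length ≤ tht ^ (w.length + 1) := pow_le_pow_right₀ tht_one (Nat.le_succ _)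
    have hsq : tht ^ w.length + tht ^ (w.length + 1) ≤ tht ^ (w.length + 1 + 1) := by
      have := tht_sq
      calc tht ^ w.length + tht ^ (w.length + 1) = tht ^ w.length * (1 + tht) := by ring
        _ ≤ tht ^ w.length * tht ^ 2 := mul_le_mul_of_nonneg_left this hpos.le
        _ = _ := by ring
    have hs : ∀ s : Fin 4, s = 0 ∨ s = 1 ∨ s = 2 ∨ s = 3 := by decide
    -- the general step: one column is unchanged, the other is `± x + y`
    have gen : ∀ a b c d : ℤ, (c = a ∨ c = -a) → d = c + b → |(a:ℝ)| ≤ tht ^ w.length →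
        |(a:ℝ)| + |(b:ℝ)| ≤ tht ^ (w.length + 1) →
        |(a:ℝ)| ≤ tht ^ (w.length + 1) ∧ |(d:ℝ)| ≤ tht ^ (w.length + 1) ∧
          |(a:ℝ)| + |(d:ℝ)| ≤ tht ^ (w.length + 1 + 1) := by
      intro a b c d hc hd ha hab
      have hca : |(c:ℝ)| = |(a:ℝ)| := by
        rcases hc with rfl | rfl
        · rfl
        · push_cast; rw [abs_neg]
      have hd' : |(d:ℝ)| ≤ |(a:ℝ)| + |(b:ℝ)| := by
        rw [hd, ← hca]
        push_cast
        exact abs_add_le _ _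
      exact ⟨by linarith, by linarith, by linarith⟩
    rcases hs s with rfl | rfl | rfl | rfl
    · have e0 : (M * letter ℤ 0) i 0 = M i 0 := by
        simp [letter, Matrix.mul_apply, Fin.sum_univ_two]
      have e1 : (M * letter ℤ 0) i 1 = M i 0 + M i 1 := by
        simp [letter, Matrix.mul_apply, Fin.sum_univ_two]
      rw [e0]
      exact gen (M i 0) (M i 1) (M i 0) _ (Or.inl rfl) e1 h0 h2
    · have e0 : (M * letter ℤ 1) i 0 = M i 0 := by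
        simp [letter, Matrix.mul_apply, Fin.sum_univ_two]
      have e1 : (M * letter ℤ 1) i 1 = -M i 0 + M i 1 := by
        simp [letter, Matrix.mul_apply, Fin.sum_univ_two]
      rw [e0]
      exact gen (M i 0) (M i 1) (-M i 0) _ (Or.inr rfl) e1 h0 h2
    · have e0 : (M * letter ℤ 2) i 0 = M i 1 + M i 0 := by
        simp [letter, Matrix.mul_apply, Fin.sum_univ_two]; ring
      have e1 : (M * letter ℤ 2) i 1 = M i 1 := by
        simp [letter, Matrix.mul_apply, Fin.sum_univ_two]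
      rw [e1]
      obtain ⟨g1, g2, g3⟩ := gen (M i 1) (M i 0) (M i 1) _ (Or.inl rfl) e0 h1 (by linarith)
      exact ⟨g2, g1, by linarith⟩
    · have e0 : (M * letter ℤ 3) i 0 = -M i 1 + M i 0 := by
        simp [letter, Matrix.mul_apply, Fin.sum_univ_two]; ring
      have e1 : (M * letter ℤ 3) i 1 = M i 1 := by
        simp [letter, Matrix.mul_apply, Fin.sum_univ_two]
      rw [e1]
      obtain ⟨g1, g2, g3⟩ := gen (M i 1) (M i 0) (-M i 1) _ (Or.inr rfl) e0 h1 (by linarith)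
      exact ⟨g2, g1, by linarith⟩

theorem prod_bd (v w : List (Fin 4)) {c : ℤ} (hc : c = 0 ∨ c = 1) :
    Bd (ev ℤ v * CC ℤ c * ev ℤ w) (5 * tht ^ (v.length + w.length)) := by
  intro i j
  have e : ∀ j, (ev ℤ v * CC ℤ c * ev ℤ w) i j =
      2 * ev ℤ v i 0 * ev ℤ w 0 j + (c * ev ℤ v i 0 + 2 * ev ℤ v i 1) * ev ℤ w 1 j := fun j => by
    simp [CC, Matrix.mul_apply, Fin.sum_univ_two]; ring
  rw [e]
  obtain ⟨a0, a1, _⟩ := ev_bd v i
  have hb : ∀ k, |(ev ℤ w k j : ℝ)| ≤ tht ^ w.length := by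
    intro k
    obtain ⟨b0, b1, _⟩ := ev_bd w k
    rcases (by decide : ∀ k : Fin 2, k = 0 ∨ k = 1) j with rfl | rfl
    · exact b0
    · exact b1
  have hv0 : 0 < tht ^ v.length := pow_pos tht_pos _
  have hw0 : 0 < tht ^ w.length := pow_pos tht_pos _
  have h1 : |(2 * ev ℤ v i 0 * ev ℤ w 0 j : ℝ)| ≤ 2 * (tht ^ v.length * tht ^ w.length) := by
    rw [abs_mul, abs_mul, abs_of_pos (by norm_num : (0:ℝ) < 2)]
    have := mul_le_mul a0 (hb 0) (abs_nonneg _) hv0.le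
    nlinarith
  have h2 : |(c * ev ℤ v i 0 + 2 * ev ℤ v i 1 : ℝ)| ≤ 3 * tht ^ v.length := by
    have hc' : |(c:ℝ)| ≤ 1 := by rcases hc with rfl | rfl <;> simp
    have h3 : |(c * ev ℤ v i 0 : ℝ)| ≤ tht ^ v.length := by
      rw [abs_mul]
      calc |(c:ℝ)| * |(ev ℤ v i 0 : ℝ)| ≤ 1 * tht ^ v.length := mul_le_mul hc' a0 (abs_nonneg _) zero_le_one
        _ = _ := one_mul _
    have h4 : |(2 * ev ℤ v i 1 : ℝ)| ≤ 2 * tht ^ v.length := by
      rw [abs_mul, abs_of_pos (by norm_num : (0:ℝ) < 2)]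
      linarith
    calc |(c * ev ℤ v i 0 + 2 * ev ℤ v i 1 : ℝ)| ≤ |(c * ev ℤ v i 0 : ℝ)| + |(2 * ev ℤ v i 1 : ℝ)| := abs_add_le _ _
      _ ≤ _ := by linarith
  have h5 : |((c * ev ℤ v i 0 + 2 * ev ℤ v i 1) * ev ℤ w 1 j : ℝ)| ≤ 3 * (tht ^ v.length * tht ^ w.length) := by
    rw [abs_mul]
    have := mul_le_mul h2 (hb 1) (abs_nonneg _) (by positivity)
    linarith
  push_cast
  rw [pow_add]
  calc |(2 * ev ℤ v i 0 * ev ℤ w 0 j + (c * ev ℤ v i 0 + 2 * ev ℤ v i 1) * ev ℤ w 1 j : ℝ)|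
      ≤ |(2 * ev ℤ v i 0 * ev ℤ w 0 j : ℝ)| + |((c * ev ℤ v i 0 + 2 * ev ℤ v i 1) * ev ℤ w 1 j : ℝ)| := abs_add_le _ _
    _ ≤ 5 * (tht ^ v.length * tht ^ w.length) := by linarith

theorem tht_pow_le {x : ℝ} (hx : 0 < x) {l : ℕ} {k : ℝ} (h : (l : ℝ) ≤ k * Real.log x) :
    tht ^ l ≤ x ^ (49 / 100 * k) := by
  rw [tht, ← Real.exp_nat_mul, Real.rpow_def_of_pos hx]
  apply Real.exp_le_exp.2
  nlinarith

/-! ### Asymptotics -/

theorem evt_lt (c : ℝ) {a b : ℝ} (h : a < b) : ∀ᶠ x : ℝ in atTop, c * x ^ a < x ^ b := by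
  have h1 : Tendsto (fun x : ℝ => x ^ (b - a)) atTop atTop := tendsto_rpow_atTop (by linarith)
  filter_upwards [h1.eventually_gt_atTop c, eventually_gt_atTop 0] with x hx hx0
  have h2 : x ^ b = x ^ (b - a) * x ^ a := by rw [← Real.rpow_add hx0]; ring_nf
  rw [h2]
  exact mul_lt_mul_of_pos_right hx (Real.rpow_pos_of_pos hx0 _)

theorem evt_log (c : ℝ) {b : ℝ} (h : 0 < b) : ∀ᶠ x : ℝ in atTop, c * Real.log x + 1 ≤ x ^ b := by
  have h1 : ∀ᶠ x : ℝ in atTop, ‖Real.log x‖ ≤ 1 / (2 * (|c| + 1)) * ‖x ^ b‖ :=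
    (isLittleO_log_rpow_atTop h).bound (by positivity)
  have h2 : Tendsto (fun x : ℝ => x ^ b) atTop atTop := tendsto_rpow_atTop h
  filter_upwards [h1, h2.eventually_ge_atTop 2, eventually_gt_atTop 1] with x hx hx2 hx1
  have hl : 0 ≤ Real.log x := Real.log_nonneg hx1.le
  have hp : 0 < x ^ b := Real.rpow_pos_of_pos (by linarith) _
  rw [Real.norm_of_nonneg hl, Real.norm_of_nonneg hp.le] at hx
  have hc : 0 < |c| + 1 := by positivity
  have h3 : (|c| + 1) * Real.log x ≤ x ^ b / 2 := by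
    calc (|c| + 1) * Real.log x ≤ (|c| + 1) * (1 / (2 * (|c| + 1)) * x ^ b) :=
          mul_le_mul_of_nonneg_left hx hc.le
      _ = x ^ b / 2 := by field_simp
  have h4 : c * Real.log x ≤ (|c| + 1) * Real.log x := by
    apply mul_le_mul_of_nonneg_right _ hl
    linarith [le_abs_self c]
  linarith

/-- All the inequalities which are needed. -/
structure Num (K d : ℕ) (δ ε x : ℝ) : Prop where
  one : 1 ≤ x
  W : 1 ≤ x ^ δ
  H : 1 ≤ 5 * x ^ (1 / 2 - ε)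
  GG : 1 ≤ (2 * x ^ δ) ^ (2 ^ d)
  a : 2 * (2 * x ^ δ) ^ (2 ^ d) * (5 * x ^ (1 / 2 - ε)) < x
  b : 5 * x ^ (49 / 100 * (K:ℝ)) < (x / (2 * (2 * x ^ δ) ^ (2 ^ d))) ^ d
  c : 46 * (K * Real.log x + 1) * (d * ((2 * x ^ δ) ^ (2 ^ d)) ^ d * (5 * x ^ (1 / 2 - ε))) ^ 2 < x
  d : 8 * (((2 * x ^ δ) ^ (2 ^ d)) ^ d) ^ 2 < x ^ 2

theorem evt_num (K : ℕ) {ε : ℝ} (hε : 0 < ε) (hε2 : ε ≤ 1 / 2) :
    ∃ δ : ℝ, 0 < δ ∧ δ ≤ 1 ∧ ∀ᶠ x : ℝ in atTop, Num K (K / 2 + 1) δ ε x := by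
  set d := K / 2 + 1 with hd
  have hd1 : 1 ≤ d := by omega
  have hdK : K + 1 ≤ 2 * d := by omega
  have hdK' : ((K:ℝ) + 1) / 2 ≤ d := by
    have : ((K + 1 : ℕ) : ℝ) ≤ ((2 * d : ℕ) : ℝ) := by exact_mod_cast hdK
    push_cast at this
    linarith
  have hd0 : (0:ℝ) < d := by exact_mod_cast hd1
  refine ⟨ε / (20 * d * 2 ^ d), by positivity, ?_, ?_⟩
  · rw [div_le_one (by positivity)]
    have h1 : (1:ℝ) ≤ d := by exact_mod_cast hd1
    have h2 : (1:ℝ) ≤ 2 ^ d := one_le_pow₀ (by norm_num)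
    nlinarith [mul_le_mul h1 h2 zero_le_one hd0.le]
  set δ : ℝ := ε / (20 * d * 2 ^ d) with hδ
  have hδ0 : 0 < δ := by positivity
  have hδd : δ * (2 ^ d * d) = ε / 20 := by rw [hδ]; field_simp
  filter_upwards [evt_lt ((2:ℝ) ^ (2 ^ d * d)) (a := ε / 20) (b := ε / 8) (by linarith),
    evt_lt 10 (a := ε / 8 + (1 / 2 - ε)) (b := 1) (by linarith),
    evt_lt (5 * 2 ^ d) (a := ε / 8) (b := 1 / 2) (by linarith),
    evt_log K (b := ε / 8) (by positivity),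
    evt_lt d (a := 0) (b := ε / 8) (by positivity),
    evt_lt 1150 (a := ε / 8 + 2 * (ε / 8 + ε / 8 + (1 / 2 - ε))) (b := 1) (by linarith),
    evt_lt 8 (a := ε / 4) (b := 2) (by linarith), eventually_ge_atTop 1]
    with x h1 h2 h3 h4 h5 h6 h7 hx1
  have hx0 : 0 < x := by linarith
  set y : ℝ := x ^ (ε / 8) with hy
  have hy1 : 1 ≤ y := Real.one_le_rpow hx1 (by positivity)
  have hW : 1 ≤ x ^ δ := Real.one_le_rpow hx1 hδ0.le
  have h2W : 1 ≤ 2 * x ^ δ := by linarith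
  have hGG : 1 ≤ (2 * x ^ δ) ^ (2 ^ d) := one_le_pow₀ h2W
  set GG : ℝ := (2 * x ^ δ) ^ (2 ^ d) with hGGdef
  have hGGd : GG ^ d = 2 ^ (2 ^ d * d) * x ^ (ε / 20) := by
    rw [hGGdef, ← pow_mul, mul_pow, ← Real.rpow_natCast (x ^ δ), ← Real.rpow_mul hx0.le]
    congr 2
    push_cast
    exact hδd
  have hGy : GG ^ d ≤ y := by rw [hGGd]; exact h1.le
  have hGGy : GG ≤ y := (le_self_pow₀ hGG (by omega)).trans hGy
  have hH : 1 ≤ x ^ (1 / 2 - ε) := Real.one_le_rpow hx1 (by linarith)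
  have hHp : 0 < x ^ (1 / 2 - ε) := by linarith
  refine ⟨hx1, hW, by linarith, hGG, ?_, ?_, ?_, ?_⟩
  · -- a
    have e1 : y * x ^ (1 / 2 - ε) = x ^ (ε / 8 + (1 / 2 - ε)) := by
      rw [hy, ← Real.rpow_add hx0]
    rw [Real.rpow_one] at h2
    calc 2 * GG * (5 * x ^ (1 / 2 - ε)) ≤ 2 * y * (5 * x ^ (1 / 2 - ε)) := by gcongr
      _ = 10 * x ^ (ε / 8 + (1 / 2 - ε)) := by rw [← e1]; ring
      _ < x := h2
  · -- b
    rw [div_pow, lt_div_iff₀ (by positivity), mul_pow]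
    have e2 : x ^ d = x ^ (1 / 2 : ℝ) * x ^ ((d:ℝ) - 1 / 2) := by
      rw [← Real.rpow_add hx0, ← Real.rpow_natCast]; ring_nf
    have e3 : x ^ (49 / 100 * (K:ℝ)) ≤ x ^ ((d:ℝ) - 1 / 2) := by
      apply Real.rpow_le_rpow_of_exponent_le hx1
      have : (0:ℝ) ≤ K := Nat.cast_nonneg _
      linarith
    have hp : 0 < x ^ ((d:ℝ) - 1 / 2) := Real.rpow_pos_of_pos hx0 _
    calc 5 * x ^ (49 / 100 * (K:ℝ)) * (2 ^ d * GG ^ d) ≤ 5 * x ^ ((d:ℝ) - 1 / 2) * (2 ^ d * y) := by gcongr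
      _ = (5 * 2 ^ d * y) * x ^ ((d:ℝ) - 1 / 2) := by ring
      _ < x ^ (1 / 2 : ℝ) * x ^ ((d:ℝ) - 1 / 2) := mul_lt_mul_of_pos_right h3 hp
      _ = x ^ d := e2.symm
  · -- c
    have hdy : (d:ℝ) ≤ y := by
      rw [Real.rpow_zero, mul_one] at h5
      exact h5.le
    have hL0 : 0 ≤ (K:ℝ) * Real.log x + 1 := by
      have := Real.log_nonneg hx1
      positivity
    have hGd0 : 0 ≤ GG ^ d := by positivity
    have e4 : y * (y * y * (5 * x ^ (1 / 2 - ε))) ^ 2 =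
        25 * x ^ (ε / 8 + 2 * (ε / 8 + ε / 8 + (1 / 2 - ε))) := by
      have e5 : y * y * x ^ (1 / 2 - ε) = x ^ (ε / 8 + ε / 8 + (1 / 2 - ε)) := by
        rw [hy, ← Real.rpow_add hx0, ← Real.rpow_add hx0]
      have e6 : (x ^ (ε / 8 + ε / 8 + (1 / 2 - ε))) ^ 2 = x ^ (2 * (ε / 8 + ε / 8 + (1 / 2 - ε))) := by
        rw [← Real.rpow_natCast, ← Real.rpow_mul hx0.le]
        congr 1
        push_cast
        ring
      rw [Real.rpow_add hx0, ← hy, ← e6, ← e5]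
      ring
    rw [Real.rpow_one] at h6
    calc 46 * ((K:ℝ) * Real.log x + 1) * (d * GG ^ d * (5 * x ^ (1 / 2 - ε))) ^ 2
        ≤ 46 * y * (y * y * (5 * x ^ (1 / 2 - ε))) ^ 2 := by gcongr
      _ = 1150 * x ^ (ε / 8 + 2 * (ε / 8 + ε / 8 + (1 / 2 - ε))) := by rw [mul_assoc, e4]; ring
      _ < x := h6
  · -- d
    have e5 : y ^ 2 = x ^ (ε / 4) := by
      rw [hy, ← Real.rpow_natCast, ← Real.rpow_mul hx0.le]
      congr 1
      push_cast
      ring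
    have e6 : x ^ (2:ℝ) = x ^ 2 := by exact_mod_cast Real.rpow_natCast x 2
    rw [e6, ← e5] at h7
    calc 8 * (GG ^ d) ^ 2 ≤ 8 * y ^ 2 := by gcongr
      _ < x ^ 2 := h7

end Pool.Agent.OW
end

section

/-!
# The rigidity theorem
-/

set_option autoImplicit false

namespace Pool.Agent.OW

open Matrix Filter Topology

theorem CC_zero : CC ℤ 0 = 2 • (1 : Mat) := by
  ext i j
  rcases (by decide : ∀ k : Fin 2, k = 0 ∨ k = 1) i with rfl | rfl <;>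
    rcases (by decide : ∀ k : Fin 2, k = 0 ∨ k = 1) j with rfl | rfl <;> simp [CC]

theorem par_aux {A B C D : Mat} {e : ℤ} (h : CC ℤ 1 = e • (A * B * CC ℤ 0 * C * D)) : False := by
  have h1 := congrFun (congrFun h 0) 1
  have h2 : (e • (A * B * CC ℤ 0 * C * D)) 0 1 = 2 * (e * (A * B * C * D) 0 1) := by
    rw [CC_zero]
    have : A * B * (2 • (1 : Mat)) * C * D = 2 • (A * B * C * D) := by
      rw [Matrix.mul_smul, Matrix.mul_one, Matrix.smul_mul, Matrix.smul_mul]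
    rw [this]
    show e * (2 • (A * B * C * D)) 0 1 = _
    have h3 : (2 • (A * B * C * D)) 0 1 = 2 * (A * B * C * D) 0 1 := by
      rw [Matrix.smul_apply]; simp
    rw [h3]
    ring
  rw [h2] at h1
  have h4 : CC ℤ 1 0 1 = 1 := rfl
  rw [h4] at h1
  omega

/-- exact equality is impossible modulo `2` -/
theorem parity {c e : ℤ} (hc : c = 0 ∨ c = 1) (he : e = 1 ∨ e = -1) (w1 w2 a b : List (Fin 4)) :
    ev ℤ w1 * CC ℤ c * ev ℤ w2 ≠ e • (ev ℤ a * CC ℤ (1 - c) * ev ℤ b) := by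
  intro h
  have hee : e * e = 1 := by rcases he with rfl | rfl <;> norm_num
  rcases hc with rfl | rfl
  · -- `c = 0`
    rw [sub_zero] at h
    apply par_aux (A := ev ℤ (iv a)) (B := ev ℤ w1) (C := ev ℤ w2) (D := ev ℤ (iv b)) (e := e)
    have h1 : e • (ev ℤ w1 * CC ℤ 0 * ev ℤ w2) = ev ℤ a * CC ℤ 1 * ev ℤ b := by
      rw [h, smul_smul, hee, one_smul]
    calc CC ℤ 1 = (ev ℤ (iv a) * ev ℤ a) * CC ℤ 1 * (ev ℤ b * ev ℤ (iv b)) := by
          rw [ev_iv_mul, ev_mul_iv, Matrix.one_mul, Matrix.mul_one]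
      _ = ev ℤ (iv a) * (ev ℤ a * CC ℤ 1 * ev ℤ b) * ev ℤ (iv b) := by simp only [Matrix.mul_assoc]
      _ = ev ℤ (iv a) * (e • (ev ℤ w1 * CC ℤ 0 * ev ℤ w2)) * ev ℤ (iv b) := by rw [h1]
      _ = e • (ev ℤ (iv a) * ev ℤ w1 * CC ℤ 0 * ev ℤ w2 * ev ℤ (iv b)) := by
          rw [Matrix.mul_smul, Matrix.smul_mul]; simp only [Matrix.mul_assoc]
  · rw [sub_self] at h
    apply par_aux (A := ev ℤ (iv w1)) (B := ev ℤ a) (C := ev ℤ b) (D := ev ℤ (iv w2)) (e := e)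
    calc CC ℤ 1 = (ev ℤ (iv w1) * ev ℤ w1) * CC ℤ 1 * (ev ℤ w2 * ev ℤ (iv w2)) := by
          rw [ev_iv_mul, ev_mul_iv, Matrix.one_mul, Matrix.mul_one]
      _ = ev ℤ (iv w1) * (ev ℤ w1 * CC ℤ 1 * ev ℤ w2) * ev ℤ (iv w2) := by simp only [Matrix.mul_assoc]
      _ = ev ℤ (iv w1) * (e • (ev ℤ a * CC ℤ 0 * ev ℤ b)) * ev ℤ (iv w2) := by rw [h]
      _ = e • (ev ℤ (iv w1) * ev ℤ a * CC ℤ 0 * ev ℤ b * ev ℤ (iv w2)) := by
          rw [Matrix.mul_smul, Matrix.smul_mul]; simp only [Matrix.mul_assoc]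

/-- **Rigidity.**  A short matrix `Q = w1 C w2` is congruent to a different matrix with entries at most
`5 x^(1/2-ε)` for at most `K/2` of the moduli `n` in `[x, x + x^δ]`. -/
theorem rigid (K : ℕ) {ε : ℝ} (hε : 0 < ε) (hε2 : ε ≤ 1 / 2) :
    ∃ δ : ℝ, 0 < δ ∧ δ ≤ 1 ∧ ∃ x₀ : ℝ, 1 ≤ x₀ ∧ ∀ x : ℝ, x₀ ≤ x → ∀ c : ℤ, (c = 0 ∨ c = 1) →
    ∀ w1 w2 : List (Fin 4), (w1.length : ℝ) + w2.length ≤ K * Real.log x →
    ∀ s : Finset ℤ, (∀ n ∈ s, x ≤ n ∧ (n : ℝ) ≤ x + x ^ δ ∧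
      ∃ R : Mat, Bd R (5 * x ^ (1 / 2 - ε)) ∧ (∀ i j, n ∣ (ev ℤ w1 * CC ℤ c * ev ℤ w2) i j - R i j) ∧
        ev ℤ w1 * CC ℤ c * ev ℤ w2 ≠ R) → s.card ≤ K / 2 := by
  obtain ⟨δ, hδ0, hδ1, hev⟩ := evt_num K hε hε2
  obtain ⟨x₁, hx₁⟩ := eventually_atTop.1 hev
  refine ⟨δ, hδ0, hδ1, max x₁ 1, le_max_right _ _, ?_⟩
  intro x hx c hc w1 w2 hw s hs
  by_contra hcard
  have hN := hx₁ x ((le_max_left _ _).trans hx)
  have hx1 := hN.one
  have hx0 : 0 < x := by linarith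
  set d := K / 2 + 1 with hd
  obtain ⟨t, hts, htc⟩ := Finset.exists_subset_card_eq (show d ≤ s.card by omega)
  have hs' := fun n (hn : n ∈ t) => (hs n (hts hn)).2.2
  choose! R hRb hdvd hne using hs'
  set l : List (ℤ × ℤ × Mat) := t.toList.map (fun n => (n, 1, R n)) with hl
  have hlen : l.length = d := by rw [hl, List.length_map, Finset.length_toList, htc]
  have hmem : ∀ u ∈ l, ∃ n ∈ t, u = (n, 1, R n) := by
    intro u hu
    rw [hl, List.mem_map] at hu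
    obtain ⟨n, hn, rfl⟩ := hu
    exact ⟨n, Finset.mem_toList.1 hn, rfl⟩
  set Q := ev ℤ w1 * CC ℤ c * ev ℤ w2 with hQ
  have hdetQ : Q.det = 4 := by
    rw [hQ, Matrix.det_mul, Matrix.det_mul, det_ev, det_ev, det_CC]; norm_num
  have hQ0 : Q ≠ 0 := by
    intro h
    rw [h] at hdetQ
    simp at hdetQ
  have hQb : Bd Q (5 * x ^ (49 / 100 * (K:ℝ))) := by
    intro i j
    refine (prod_bd w1 w2 hc i j).trans ?_
    have := tht_pow_le hx0 (l := w1.length + w2.length) (k := K) (by push_cast; exact hw)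
    linarith
  have hDat : ∀ u ∈ l, Dat x (x ^ δ) 1 (5 * x ^ (1 / 2 - ε)) Q u := by
    intro u hu
    obtain ⟨n, hn, rfl⟩ := hmem u hu
    refine ⟨(hs n (hts hn)).1, (hs n (hts hn)).2.1, one_ne_zero, by simp, ?_, ?_⟩
    · rw [one_mul]
      exact hRb n hn
    · intro i j
      show n ∣ 1 * Q i j - R n i j
      rw [one_mul]
      exact hdvd n hn i j
  have hpw : l.Pairwise fun s t => s.1 ≠ t.1 := by
    rw [hl, List.pairwise_map]
    exact Finset.nodup_toList t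
  have key := rep hN.W hN.H hN.GG hN.a d l hlen 1 le_rfl (by rw [mul_one]) Q _ hQ0 hQb hN.b hDat hpw
  rcases key with ⟨u, hu, huQ⟩ | hrep
  · obtain ⟨n, hn, rfl⟩ := hmem u hu
    have : (1:ℤ) • Q = R n := huQ
    rw [one_smul] at this
    exact hne n hn this
  · exact not_rep w1 w2 hc hx1 (L := K * Real.log x + 1) (by linarith) hN.c hN.d hrep

end Pool.Agent.OW
end
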